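import Pool.Agent.BLN.Red.Min

set_option autoImplicit false
set_option linter.unusedSectionVars false

/-!
A minimal counterexample is connected, and each of its bridges is a pendant edge.
-/

namespace Pool.Agent.BLN.Red

open Finset

variable {V : Type} [Fintype V] [DecidableEq V] {S : Finset V} {w : V → V → ℕ}

theorem rw_of_mem {X : Finset V} {u v : V} (hu : u ∈ X) (hv : v ∈ X) : rw w X u v = w u v := by
  unfold rw
  rw [if_pos ⟨hu, hv⟩]

theorem dg_rw {X : Finset V} {v : V} (hv : v ∈ X) (h : ∀ u, w v u ≠ 0 → u ∈ X) :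
    dg (rw w X) v = dg w v := by
  refine dg_congr (fun u => ?_)
  by_cases h1 : u ∈ X
  · exact rw_of_mem hv h1
  · have h2 : w v u = 0 := by
      by_contra h3
      exact h1 (h u h3)
    unfold rw
    rw [if_neg (fun h3 => h1 h3.2), h2]

theorem mg_rw (hM : Mg S w) {X : Finset V}
    (hd : ∀ v ∈ X, dg (rw w X) v = 1 ∨ dg (rw w X) v = 3) : Mg X (rw w X) := by
  refine ⟨?_, ?_, ?_, hd⟩
  · intro u v
    unfold rw
    by_cases h : u ∈ X ∧ v ∈ X
    · rw [if_pos h, if_pos ⟨h.2, h.1⟩, hM.symm]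
    · rw [if_neg h, if_neg (fun h1 => h ⟨h1.2, h1.1⟩)]
  · intro v
    unfold rw
    rw [hM.loop]
    split_ifs <;> rfl
  · intro u v huv
    by_contra h
    apply huv
    unfold rw
    rw [if_neg (fun h1 => h h1.1)]

theorem pet_rw {X : Finset V} (hX : X ⊆ S) (h : Pet X (rw w X)) : Pet S w := by
  obtain ⟨π, h1, h2, h3⟩ := h
  refine ⟨π, h1, fun i => hX (h2 i), fun i j => ?_⟩
  rw [← h3 i j, rw_of_mem (h2 i) (h2 j)]

theorem own_rw {X : Finset V} {f f' : V → Bool} {v : V} (hv : v ∈ X)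
    (h : ∀ u, w v u ≠ 0 → u ∈ X) (hf : ∀ u ∈ X, f u = f' u) :
    own w f v = own (rw w X) f' v := by
  refine own_congr (fun u hu => ?_)
  have h1 : u ∈ X := by
    rcases hu with h1 | h1
    · exact h u h1
    · by_contra h2
      apply h1
      unfold rw
      rw [if_neg (fun h3 => h2 h3.2)]
  rw [rw_of_mem hv h1, hf u h1, hf v hv]
  exact ⟨rfl, Iff.rfl⟩

/-- A minimal counterexample is connected. -/
theorem Min.conn (h : Min S w) : Conn S w := by
  intro T hT hne hcl
  by_contra hcon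
  obtain ⟨m, hm⟩ := h.pm
  -- both parts are closed
  have key : ∀ X : Finset V, X ⊆ S → X ≠ S → (∀ u ∈ X, ∀ v, w u v ≠ 0 → v ∈ X) →
      ∃ f, Good X (rw w X) f := by
    intro X hX hXS hXc
    refine h.min X (rw w X) ?_ ?_ ?_ ?_
    · exact Finset.card_lt_card (Finset.ssubset_iff_subset_ne.2 ⟨hX, hXS⟩)
    · refine mg_rw h.mg (fun v hv => ?_)
      rw [dg_rw hv (hXc v hv)]
      exact h.mg.deg v (hX hv)
    · refine ⟨m, ?_, ?_, ?_⟩
      · intro v hv
        exact hXc v hv _ (hm.adj v (hX hv))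
      · intro v hv
        exact hm.inv v (hX hv)
      · intro v hv
        have h1 := hm.adj v (hX hv)
        rw [rw_of_mem hv (hXc v hv _ h1)]
        exact h1
    · exact fun h1 => h.nopet (pet_rw hX h1)
  have hcl2 : ∀ u ∈ S \ T, ∀ v, w u v ≠ 0 → v ∈ S \ T := by
    intro u hu v huv
    rw [Finset.mem_sdiff] at hu ⊢
    refine ⟨h.mg.supp' huv, fun hv => hu.2 ?_⟩
    refine hcl v hv u ?_
    rw [h.mg.symm]
    exact huv
  obtain ⟨f1, hf1⟩ := key T hT hcon hcl
  obtain ⟨f2, hf2⟩ := key (S \ T) Finset.sdiff_subset (by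
    intro h1
    obtain ⟨v, hv⟩ := hne
    have h2 : v ∈ S \ T := by
      rw [h1]
      exact hT hv
    exact (Finset.mem_sdiff.1 h2).2 hv) hcl2
  refine h.bad (fun v => if v ∈ T then f1 v else f2 v) ⟨?_, ?_⟩
  · intro v hv
    by_cases h1 : v ∈ T
    · rw [own_rw h1 (hcl v h1) (f' := f1) (fun u hu => if_pos hu), ← dg_rw h1 (hcl v h1)]
      exact hf1.1 v h1
    · have h2 : v ∈ S \ T := Finset.mem_sdiff.2 ⟨hv, h1⟩
      rw [own_rw h2 (hcl2 v h2) (f' := f2) (fun u hu => if_neg (Finset.mem_sdiff.1 hu).2),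
        ← dg_rw h2 (hcl2 v h2)]
      exact hf2.1 v h2
  · rw [← Finset.sum_sdiff hT]
    have h1 : ∑ v ∈ S \ T, sg (if v ∈ T then f1 v else f2 v) = ∑ v ∈ S \ T, sg (f2 v) :=
      Finset.sum_congr rfl (fun v hv => by rw [if_neg (Finset.mem_sdiff.1 hv).2])
    have h2 : ∑ v ∈ T, sg (if v ∈ T then f1 v else f2 v) = ∑ v ∈ T, sg (f1 v) :=
      Finset.sum_congr rfl (fun v hv => by rw [if_pos hv])
    rw [h1, h2, hf1.2, hf2.2, add_zero]

/-- The sum of a symmetric matrix with zero diagonal is even. -/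
theorem even_sum (T : Finset V) (hs : ∀ u v, w u v = w v u) (hl : ∀ v, w v v = 0) :
    Even (∑ u ∈ T, ∑ v ∈ T, w u v) := by
  rw [← ZMod.natCast_eq_zero_iff_even, ← Finset.sum_product']
  push_cast
  refine Finset.sum_involution (fun p _ => p.swap) ?_ ?_ ?_ ?_
  · intro p _
    show (w p.1 p.2 : ZMod 2) + (w p.2 p.1 : ZMod 2) = 0
    rw [hs p.2 p.1]
    exact CharTwo.add_self_eq_zero _
  · intro p _ hp h1
    apply hp
    have h2 : p.2 = p.1 := congrArg Prod.fst h1
    rw [h2, hl]
    rfl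
  · intro p hp
    rw [Finset.mem_product] at hp ⊢
    exact ⟨hp.2, hp.1⟩
  · intro p _
    rfl

/-- A part with only one edge to the rest has odd size. -/
theorem odd_card (hM : Mg S w) {T : Finset V} (hT : T ⊆ S) {x y : V} (hx : x ∈ T) (hy : y ∉ T)
    (hxy : w x y = 1) (hu : ∀ u ∈ T, ∀ v, v ∉ T → w u v ≠ 0 → u = x ∧ v = y) : Odd T.card := by
  have h1 : ∑ u ∈ T, dg w u = (∑ u ∈ T, ∑ v ∈ T, w u v) + 1 := by
    have h2 : ∀ u ∈ T, dg w u = (∑ v ∈ T, w u v) + if u = x then 1 else 0 := by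
      intro u hu'
      unfold dg
      rw [← Finset.sum_add_sum_compl T (fun v => w u v)]
      congr 1
      by_cases h3 : u = x
      · rw [if_pos h3, Finset.sum_eq_single y, h3, hxy]
        · intro b hb hby
          rw [Finset.mem_compl] at hb
          by_contra h4
          exact hby (hu u hu' b hb h4).2
        · intro h4
          exact absurd (Finset.mem_compl.2 hy) h4
      · rw [if_neg h3]
        refine Finset.sum_eq_zero (fun b hb => ?_)
        rw [Finset.mem_compl] at hb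
        by_contra h4
        exact h3 (hu u hu' b hb h4).1
    rw [Finset.sum_congr rfl h2, Finset.sum_add_distrib, Finset.sum_ite_eq', if_pos hx]
  obtain ⟨k, hk⟩ := even_sum (w := w) T hM.symm hM.loop
  have h2 : (∑ u ∈ T, dg w u) % 2 = T.card % 2 := by
    rw [Finset.sum_nat_mod, Finset.card_eq_sum_ones, Finset.sum_nat_mod T 2 (fun _ => 1)]
    congr 1
    refine Finset.sum_congr rfl (fun v hv => ?_)
    rcases hM.deg v (hT hv) with h3 | h3 <;> rw [h3]
  rw [Nat.odd_iff]
  omega

/-- One side of a bridge. -/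
theorem Min.side (h : Min S w) {T : Finset V} (hT : T ⊆ S) {x y : V} (hx : x ∈ T) (hy : y ∉ T)
    (hxy : w x y = 1) (hu : ∀ u ∈ T, ∀ v, v ∉ T → w u v ≠ 0 → u = x ∧ v = y)
    (hc : (S \ T).card ≠ 1) : ∃ f, Good (insert y T) (rw w (insert y T)) f := by
  obtain ⟨m, hm⟩ := h.pm
  have hyS : y ∈ S := h.mg.supp' (u := x) (v := y) (by omega)
  have hX : insert y T ⊆ S := Finset.insert_subset hyS hT
  have hcl : ∀ u ∈ T, ∀ v, w u v ≠ 0 → v ∈ insert y T := by
    intro u hu' v huv
    by_cases h1 : v ∈ T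
    · exact Finset.mem_insert_of_mem h1
    · rw [(hu u hu' v h1 huv).2]
      exact Finset.mem_insert_self _ _
  have hdy : dg (rw w (insert y T)) y = 1 := by
    unfold dg
    rw [Finset.sum_eq_single x]
    · rw [rw_of_mem (Finset.mem_insert_self _ _) (Finset.mem_insert_of_mem hx), h.mg.symm, hxy]
    · intro b _ hb
      by_contra h1
      have h2 : b ∈ insert y T := by
        by_contra h3
        apply h1
        unfold rw
        rw [if_neg (fun h4 => h3 h4.2)]
      rw [rw_of_mem (Finset.mem_insert_self _ _) h2, h.mg.symm] at h1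
      rcases Finset.mem_insert.1 h2 with h3 | h3
      · rw [h3, h.mg.loop] at h1
        exact h1 rfl
      · exact hb (hu b h3 y hy h1).1
    · intro h1
      exact absurd (Finset.mem_univ _) h1
  have hmx : m x = y := by
    by_contra h1
    have h2 : ∀ v ∈ T, m v ∈ T := by
      intro v hv
      by_contra h3
      have h4 := hu v hv (m v) h3 (hm.adj v (hT hv))
      rw [h4.1] at h4
      exact h1 h4.2
    have h3 := even_card_of_inv T m h2 (fun v hv => hm.inv v (hT hv))
      (fun v hv h4 => h.mg.ne (hm.adj v (hT hv)) h4.symm)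
    have h4 := odd_card h.mg hT hx hy hxy hu
    rw [Nat.odd_iff] at h4
    rw [Nat.even_iff] at h3
    omega
  have hmy : m y = x := by
    rw [← hmx]
    exact hm.inv x (hT hx)
  refine h.min _ _ ?_ ?_ ?_ ?_
  · have h1 : (insert y T).card = T.card + 1 := Finset.card_insert_of_notMem hy
    have h2 : (S \ T).card + T.card = S.card := Finset.card_sdiff_add_card_eq_card hT
    have h3 : (S \ T).card ≠ 0 := by
      rw [Finset.card_ne_zero]
      exact ⟨y, Finset.mem_sdiff.2 ⟨hyS, hy⟩⟩
    omega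
  · refine mg_rw h.mg (fun v hv => ?_)
    rcases Finset.mem_insert.1 hv with h1 | h1
    · rw [h1, hdy]
      exact Or.inl rfl
    · rw [dg_rw hv (hcl v h1)]
      exact h.mg.deg v (hT h1)
  · refine ⟨m, ?_, ?_, ?_⟩
    · intro v hv
      rcases Finset.mem_insert.1 hv with h1 | h1
      · rw [h1, hmy]
        exact Finset.mem_insert_of_mem hx
      · exact hcl v h1 _ (hm.adj v (hT h1))
    · intro v hv
      exact hm.inv v (hX hv)
    · intro v hv
      have h1 : m v ∈ insert y T := by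
        rcases Finset.mem_insert.1 hv with h1 | h1
        · rw [h1, hmy]
          exact Finset.mem_insert_of_mem hx
        · exact hcl v h1 _ (hm.adj v (hT h1))
      rw [rw_of_mem hv h1]
      exact hm.adj v (hX hv)
  · exact fun h1 => h.nopet (pet_rw hX h1)

/-- In a good colouring of one side the two ends of the bridge have different colours. -/
theorem side_ne (hM : Mg S w) {T : Finset V} {x y : V} (hx : x ∈ T) (hy : y ∉ T)
    (hxy : w x y = 1) (hu : ∀ u ∈ T, ∀ v, v ∉ T → w u v ≠ 0 → u = x ∧ v = y) {f : V → Bool}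
    (hf : Good (insert y T) (rw w (insert y T)) f) : f x ≠ f y := by
  intro h1
  have h2 := hf.1 y (Finset.mem_insert_self _ _)
  have h3 : rw w (insert y T) y x = 1 := by
    rw [rw_of_mem (Finset.mem_insert_self _ _) (Finset.mem_insert_of_mem hx), hM.symm, hxy]
  have h4 : dg (rw w (insert y T)) y ≤ 1 := by
    unfold dg
    rw [Finset.sum_eq_single x]
    · omega
    · intro b _ hb
      by_contra h1
      have h2 : b ∈ insert y T := by
        by_contra h3
        apply h1
        unfold rw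
        rw [if_neg (fun h4 => h3 h4.2)]
      rw [rw_of_mem (Finset.mem_insert_self _ _) h2, hM.symm] at h1
      rcases Finset.mem_insert.1 h2 with h3 | h3
      · rw [h3, hM.loop] at h1
        exact h1 rfl
      · exact hb (hu b h3 y hy h1).1
    · intro h1
      exact absurd (Finset.mem_univ _) h1
  have h5 : 1 ≤ own (rw w (insert y T)) f y := by
    unfold own
    have h6 := Finset.single_le_sum (f := fun u => if f u = f y then rw w (insert y T) y u else 0)
      (fun _ _ => Nat.zero_le _) (Finset.mem_univ x)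
    have h7 : (if f x = f y then rw w (insert y T) y x else 0) = 1 := by
      rw [if_pos h1, h3]
    exact h7 ▸ h6
  omega

/-- Each bridge of a minimal counterexample is a pendant edge. -/
theorem Min.bridge (h : Min S w) {T : Finset V} (hT : T ⊆ S) {x y : V} (hx : x ∈ T) (hy : y ∉ T)
    (hxy : w x y = 1) (hu : ∀ u ∈ T, ∀ v, v ∉ T → w u v ≠ 0 → u = x ∧ v = y) :
    T.card = 1 ∨ (S \ T).card = 1 := by
  by_contra hcon
  push Not at hcon
  have hyS : y ∈ S := h.mg.supp' (u := x) (v := y) (by omega)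
  have hT' : S \ T ⊆ S := Finset.sdiff_subset
  have hss : S \ (S \ T) = T := Finset.sdiff_sdiff_eq_self hT
  have hy' : y ∈ S \ T := Finset.mem_sdiff.2 ⟨hyS, hy⟩
  have hx' : x ∉ S \ T := fun h1 => (Finset.mem_sdiff.1 h1).2 hx
  have hyx : w y x = 1 := by rw [h.mg.symm, hxy]
  have hu' : ∀ u ∈ S \ T, ∀ v, v ∉ S \ T → w u v ≠ 0 → u = y ∧ v = x := by
    intro u hu1 v hv huv
    have h1 := h.mg.supp' huv
    have h2 : v ∈ T := by
      by_contra h3
      exact hv (Finset.mem_sdiff.2 ⟨h1, h3⟩)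
    have h3 := hu v h2 u (Finset.mem_sdiff.1 hu1).2 (by rw [h.mg.symm]; exact huv)
    exact ⟨h3.2, h3.1⟩
  obtain ⟨f1, hf1⟩ := h.side hT hx hy hxy hu hcon.2
  obtain ⟨f20, hf20⟩ := h.side hT' hy' hx' hyx hu' (by rw [hss]; exact hcon.1)
  obtain ⟨f2, hf2, hfy⟩ := hf20.wlog y (f1 y)
  have hn1 := side_ne h.mg hx hy hxy hu hf1
  have hn2 := side_ne h.mg hy' hx' hyx hu' hf2
  have hfx : f2 x = f1 x := by
    rw [hfy] at hn2
    cases h1 : f2 x <;> cases h2 : f1 x <;> cases h3 : f1 y <;> simp_all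
  have hcl : ∀ u ∈ T, ∀ v, w u v ≠ 0 → v ∈ insert y T := by
    intro u hu1 v huv
    by_cases h1 : v ∈ T
    · exact Finset.mem_insert_of_mem h1
    · rw [(hu u hu1 v h1 huv).2]
      exact Finset.mem_insert_self _ _
  have hcl' : ∀ u ∈ S \ T, ∀ v, w u v ≠ 0 → v ∈ insert x (S \ T) := by
    intro u hu1 v huv
    by_cases h1 : v ∈ S \ T
    · exact Finset.mem_insert_of_mem h1
    · rw [(hu' u hu1 v h1 huv).2]
      exact Finset.mem_insert_self _ _
  refine h.bad (fun v => if v ∈ T then f1 v else f2 v) ⟨?_, ?_⟩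
  · intro v hv
    by_cases h1 : v ∈ T
    · have h2 : v ∈ insert y T := Finset.mem_insert_of_mem h1
      rw [own_rw h2 (hcl v h1) (f' := f1) ?_, ← dg_rw h2 (hcl v h1)]
      · exact hf1.1 v h2
      · intro u hu1
        rcases Finset.mem_insert.1 hu1 with h3 | h3
        · show (if u ∈ T then f1 u else f2 u) = f1 u
          rw [h3, if_neg hy, hfy]
        · exact if_pos h3
    · have h2 : v ∈ S \ T := Finset.mem_sdiff.2 ⟨hv, h1⟩
      have h2' : v ∈ insert x (S \ T) := Finset.mem_insert_of_mem h2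
      rw [own_rw h2' (hcl' v h2) (f' := f2) ?_, ← dg_rw h2' (hcl' v h2)]
      · exact hf2.1 v h2'
      · intro u hu1
        rcases Finset.mem_insert.1 hu1 with h3 | h3
        · show (if u ∈ T then f1 u else f2 u) = f2 u
          rw [h3, if_pos hx, hfx]
        · exact if_neg (Finset.mem_sdiff.1 h3).2
  · rw [← Finset.sum_sdiff hT]
    have h1 : ∑ v ∈ S \ T, sg (if v ∈ T then f1 v else f2 v) = ∑ v ∈ S \ T, sg (f2 v) :=
      Finset.sum_congr rfl (fun v hv => by rw [if_neg (Finset.mem_sdiff.1 hv).2])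
    have h2 : ∑ v ∈ T, sg (if v ∈ T then f1 v else f2 v) = ∑ v ∈ T, sg (f1 v) :=
      Finset.sum_congr rfl (fun v hv => by rw [if_pos hv])
    rw [h1, h2]
    have h3 := hf1.2
    have h4 := hf2.2
    rw [Finset.sum_insert hy] at h3
    rw [Finset.sum_insert hx', hfx] at h4
    have h5 := sg_ne hn1
    linarith

end Pool.Agent.BLN.Red
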