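import Mathlib

set_option autoImplicit false

/-!
Reductions for 2-bisections, in the class of loopless multigraphs with all degrees 1 or 3 and a
perfect matching. The vertex type `V` is fixed, `S` is the set of vertices that are alive and
`w u v` is the multiplicity of the edge `uv`.
-/

namespace Pool.Agent.BLN.Red

open Finset

variable {V : Type} [Fintype V] [DecidableEq V]

/-- The sign of a colour. -/
def sg (b : Bool) : ℤ := if b = true then 1 else -1

omit [DecidableEq V] in
/-- The degree. -/
def dg (w : V → V → ℕ) (v : V) : ℕ := ∑ u, w v u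

omit [DecidableEq V] in
/-- The number of edges at `v` whose ends have the same colour. -/
def own (w : V → V → ℕ) (f : V → Bool) (v : V) : ℕ := ∑ u, if f u = f v then w v u else 0

/-- A loopless multigraph on the vertex set `S` with all degrees 1 or 3. -/
structure Mg (S : Finset V) (w : V → V → ℕ) : Prop where
  symm : ∀ u v, w u v = w v u
  loop : ∀ v, w v v = 0
  supp : ∀ u v, w u v ≠ 0 → u ∈ S
  deg : ∀ v ∈ S, dg w v = 1 ∨ dg w v = 3

/-- `m` is a perfect matching. -/
structure PM (S : Finset V) (w : V → V → ℕ) (m : V → V) : Prop where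
  mem : ∀ v ∈ S, m v ∈ S
  inv : ∀ v ∈ S, m (m v) = v
  adj : ∀ v ∈ S, w v (m v) ≠ 0

/-- A balanced colouring in which less than half of the edges at each vertex are monochromatic. -/
def Good (S : Finset V) (w : V → V → ℕ) (f : V → Bool) : Prop :=
  (∀ v ∈ S, 2 * own w f v < dg w v) ∧ ∑ v ∈ S, sg (f v) = 0

theorem sg_not (b : Bool) : sg (!b) = - sg b := by cases b <;> simp [sg]

theorem sg_ne {a b : Bool} (h : a ≠ b) : sg a + sg b = 0 := by
  cases a <;> cases b <;> simp_all [sg]

omit [DecidableEq V] in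
theorem own_not (w : V → V → ℕ) (f : V → Bool) (v : V) : own w (fun u => !f u) v = own w f v := by
  unfold own
  refine Finset.sum_congr rfl (fun u _ => ?_)
  by_cases h : f u = f v
  · simp [h]
  · have h' : (!f u) ≠ !f v := by
      intro h2
      exact h (by cases hu : f u <;> cases hv : f v <;> simp_all)
    simp [h, h']

omit [DecidableEq V] in
theorem Good.not {S : Finset V} {w : V → V → ℕ} {f : V → Bool} (h : Good S w f) :
    Good S w (fun u => !f u) := by
  refine ⟨fun v hv => ?_, ?_⟩
  · rw [own_not]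
    exact h.1 v hv
  · have h1 : ∑ v ∈ S, sg (!f v) = - ∑ v ∈ S, sg (f v) := by
      rw [← Finset.sum_neg_distrib]
      exact Finset.sum_congr rfl (fun v _ => sg_not _)
    rw [h1, h.2]
    rfl

omit [DecidableEq V] in
/-- We may prescribe the colour of one vertex. -/
theorem Good.wlog {S : Finset V} {w : V → V → ℕ} {f : V → Bool} (h : Good S w f) (x : V)
    (s : Bool) : ∃ g, Good S w g ∧ g x = s := by
  by_cases hx : f x = s
  · exact ⟨f, h, hx⟩
  · refine ⟨fun u => !f u, h.not, ?_⟩
    cases hf : f x <;> cases hs : s <;> simp_all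

omit [DecidableEq V] in
theorem Mg.supp' {S : Finset V} {w : V → V → ℕ} (h : Mg S w) {u v : V} (huv : w u v ≠ 0) : v ∈ S :=
  h.supp v u (by rw [h.symm]; exact huv)

omit [DecidableEq V] in
theorem Mg.ne {S : Finset V} {w : V → V → ℕ} (h : Mg S w) {u v : V} (huv : w u v ≠ 0) : u ≠ v := by
  rintro rfl
  exact huv (h.loop u)

omit [DecidableEq V] in
theorem Mg.deg_le {S : Finset V} {w : V → V → ℕ} (h : Mg S w) {v : V} (hv : v ∈ S) :
    dg w v ≤ 3 := by
  rcases h.deg v hv with h1 | h1 <;> omega

omit [DecidableEq V] in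
theorem own_congr {w w' : V → V → ℕ} {f f' : V → Bool} {v : V}
    (h : ∀ u, w v u ≠ 0 ∨ w' v u ≠ 0 → (w v u = w' v u ∧ (f u = f v ↔ f' u = f' v))) :
    own w f v = own w' f' v := by
  unfold own
  refine Finset.sum_congr rfl (fun u _ => ?_)
  by_cases h1 : w v u ≠ 0 ∨ w' v u ≠ 0
  · obtain ⟨h2, h3⟩ := h u h1
    by_cases h4 : f u = f v
    · rw [if_pos h4, if_pos (h3.1 h4), h2]
    · rw [if_neg h4, if_neg (fun h5 => h4 (h3.2 h5))]
  · push Not at h1
    rw [h1.1, h1.2]
    split_ifs <;> rfl

omit [DecidableEq V] in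
theorem dg_congr {w w' : V → V → ℕ} {v : V} (h : ∀ u, w v u = w' v u) : dg w v = dg w' v := by
  unfold dg
  exact Finset.sum_congr rfl (fun u _ => h u)

omit [DecidableEq V] in
theorem own_le_dg (w : V → V → ℕ) (f : V → Bool) (v : V) : own w f v ≤ dg w v := by
  unfold own dg
  refine Finset.sum_le_sum (fun u _ => ?_)
  split_ifs <;> omega

omit [DecidableEq V] in
theorem le_dg (w : V → V → ℕ) (v u : V) : w v u ≤ dg w v := by
  unfold dg
  exact Finset.single_le_sum (f := fun u => w v u) (fun _ _ => Nat.zero_le _) (Finset.mem_univ u)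

/-- If edges of total multiplicity 2 at `v` are known, there is exactly one more edge. -/
theorem exists_third {w : V → V → ℕ} {v : V} (hd : dg w v = 3) (k : V → ℕ)
    (hk : ∀ y, k y ≤ w v y) (hs : ∑ y, k y = 2) :
    ∃ x, ∀ y, w v y = k y + if y = x then 1 else 0 := by
  have h1 : ∑ y, (w v y - k y) = 1 := by
    have h2 : ∑ y, (w v y - k y) + ∑ y, k y = ∑ y, w v y := by
      rw [← Finset.sum_add_distrib]
      exact Finset.sum_congr rfl (fun y _ => Nat.sub_add_cancel (hk y))
    have h3 : ∑ y, w v y = 3 := hd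
    omega
  have h4 : ∃ x, w v x - k x ≠ 0 := by
    by_contra hcon
    push Not at hcon
    rw [Finset.sum_eq_zero (fun y _ => hcon y)] at h1
    omega
  obtain ⟨x, hx⟩ := h4
  refine ⟨x, fun y => ?_⟩
  have h5 := hk y
  have h6 := Finset.add_sum_erase Finset.univ (fun y => w v y - k y) (Finset.mem_univ x)
  have h7 : (w v x - k x) + ∑ y ∈ Finset.univ.erase x, (w v y - k y) = 1 := h6.trans h1
  by_cases hy : y = x
  · subst hy
    rw [if_pos rfl]
    omega
  · rw [if_neg hy]
    have h8 : w v y - k y ≤ ∑ y ∈ Finset.univ.erase x, (w v y - k y) :=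
      Finset.single_le_sum (f := fun y => w v y - k y) (fun _ _ => Nat.zero_le _)
        (Finset.mem_erase.2 ⟨hy, Finset.mem_univ y⟩)
    omega

omit [Fintype V] [DecidableEq V] in
/-- Parity: an involution without fixed points. -/
theorem even_card_of_inv (T : Finset V) (m : V → V) (h1 : ∀ v ∈ T, m v ∈ T)
    (h2 : ∀ v ∈ T, m (m v) = v) (h3 : ∀ v ∈ T, m v ≠ v) : Even T.card := by
  classical
  have h := Finset.sum_involution (s := T) (f := fun _ => (1 : ZMod 2)) (fun v _ => m v)
    (fun v _ => by decide) (fun v hv _ => h3 v hv) (fun v hv => h1 v hv) (fun v hv => h2 v hv)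
  rw [Finset.sum_const, nsmul_eq_mul, mul_one] at h
  exact (ZMod.natCast_eq_zero_iff_even).1 h

end Pool.Agent.BLN.Red
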