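import Pool.Agent.BLN.Red.Min
import Pool.Agent.BLE.Concl
import Pool.Agent.BLE.Hex

set_option autoImplicit false
set_option linter.unusedSectionVars false

/-!
From the reductions to the statement of S11147: a minimal counterexample is a simple graph with
all degrees 1 or 3, without 4-cycles, whose bridges are pendant edges.
-/

namespace Pool.Agent.BLN.Red

open Finset Pool.Agent.IVT Pool.Agent.BLN

/-- The Petersen graph of the frozen statement. -/
abbrev PetG : SimpleGraph {s : Finset (Fin 5) // s.card = 2} :=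
  SimpleGraph.fromRel (fun s t : {s : Finset (Fin 5) // s.card = 2} => Disjoint s.1 t.1)

/-- The statement about simple graphs with degrees 1 and 3 which remains after the reductions. -/
def Main13 : Prop :=
  ∀ (V : Type) [Fintype V] [DecidableEq V] (G : SimpleGraph V) [DecidableRel G.Adj],
    G.Connected → (∀ v, G.degree v = 1 ∨ G.degree v = 3) → C4Free G →
    ∀ m : V → V, (∀ v, m (m v) = v) → (∀ v, G.Adj v (m v)) →
    (∀ T : Finset V, ((Finset.univ ×ˢ Finset.univ).filter
        (fun p : V × V => p.1 ∈ T ∧ p.2 ∉ T ∧ G.Adj p.1 p.2)).card = 1 →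
        T.card = 1 ∨ Tᶜ.card = 1) →
    IsEmpty (G ≃g SimpleGraph.fromRel
      (fun s t : {s : Finset (Fin 5) // s.card = 2} => Disjoint s.1 t.1)) →
    ∃ c : V → Bool, (∀ v, 2 * (bad G c v).card < G.degree v) ∧ sgn true c = 0

section

variable {V : Type} [Fintype V] [DecidableEq V]

/-- The simple graph on the vertices which are alive. -/
def gr (S : Finset V) (w : V → V → ℕ) (hM : Mg S w) : SimpleGraph {v : V // v ∈ S} where
  Adj u v := w u.1 v.1 ≠ 0
  symm := ⟨fun u v h => by rwa [hM.symm]⟩
  loopless := ⟨fun u h => h (hM.loop u.1)⟩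

instance (S : Finset V) (w : V → V → ℕ) (hM : Mg S w) : DecidableRel (gr S w hM).Adj :=
  fun u v => inferInstanceAs (Decidable (w u.1 v.1 ≠ 0))

theorem gr_adj {S : Finset V} {w : V → V → ℕ} (hM : Mg S w) (u v : {v : V // v ∈ S}) :
    (gr S w hM).Adj u v ↔ w u.1 v.1 ≠ 0 := Iff.rfl

theorem gr_degree {S : Finset V} {w : V → V → ℕ} (hM : Mg S w) (hs : ∀ u v, w u v ≤ 1)
    (v : {v : V // v ∈ S}) : (gr S w hM).degree v = dg w v.1 := by
  have h1 : dg w v.1 = ∑ u ∈ S, w v.1 u := by
    unfold dg
    refine (Finset.sum_subset (Finset.subset_univ S) ?_).symm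
    intro u _ hu
    by_contra h
    exact hu (hM.supp' h)
  have h2 : (gr S w hM).neighborFinset v = Finset.univ.filter (fun u => w v.1 u.1 ≠ 0) := by
    ext u
    simp [SimpleGraph.mem_neighborFinset, gr_adj]
  rw [← SimpleGraph.card_neighborFinset_eq_degree, h2, h1, Finset.card_filter,
    ← Finset.sum_coe_sort S (fun u => w v.1 u)]
  refine Finset.sum_congr rfl (fun u _ => ?_)
  have := hs v.1 u.1
  by_cases h : w v.1 u.1 = 0
  · simp [h]
  · rw [if_pos h]; omega

theorem gr_bad {S : Finset V} {w : V → V → ℕ} (hM : Mg S w) (hs : ∀ u v, w u v ≤ 1)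
    (c : {v : V // v ∈ S} → Bool) (f : V → Bool) (hf : ∀ v : {v : V // v ∈ S}, f v.1 = c v)
    (v : {v : V // v ∈ S}) : own w f v.1 = (bad (gr S w hM) c v).card := by
  have h1 : own w f v.1 = ∑ u ∈ S, (if f u = f v.1 then w v.1 u else 0) := by
    unfold own
    refine (Finset.sum_subset (Finset.subset_univ S) ?_).symm
    intro u _ hu
    have : w v.1 u = 0 := by
      by_contra h
      exact hu (hM.supp' h)
    rw [this]
    split_ifs <;> rfl
  have h2 : bad (gr S w hM) c v = Finset.univ.filter (fun u => w v.1 u.1 ≠ 0 ∧ c u = c v) := by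
    ext u
    rw [mem_bad]
    simp [gr_adj]
  rw [h2, h1, Finset.card_filter, ← Finset.sum_coe_sort S
    (fun u => if f u = f v.1 then w v.1 u else 0)]
  refine Finset.sum_congr rfl (fun u _ => ?_)
  have := hs v.1 u.1
  rw [hf u, hf v]
  by_cases h : w v.1 u.1 = 0
  · simp [h]
  · by_cases h' : c u = c v
    · rw [if_pos h', if_pos ⟨h, h'⟩]; omega
    · rw [if_neg h', if_neg (fun h3 => h' h3.2)]

/-- The minimal counterexample as a simple graph. -/
theorem Min.false_of {S : Finset V} {w : V → V → ℕ} (hMain : Main13) (h : Min S w)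
    (conn : Conn S w)
    (bridge : ∀ {T : Finset V}, T ⊆ S → ∀ {x y : V}, x ∈ T → y ∉ T → w x y = 1 →
      (∀ u ∈ T, ∀ v, v ∉ T → w u v ≠ 0 → u = x ∧ v = y) → T.card = 1 ∨ (S \ T).card = 1)
    (simple : ∀ u v : V, w u v ≤ 1)
    (noC4 : ∀ {a b c d : V}, a ≠ c → b ≠ d → w a b ≠ 0 → w b c ≠ 0 → w c d ≠ 0 → w d a ≠ 0 →
      False) : False := by
  obtain ⟨m, hm⟩ := h.pm
  have hM := h.mg
  -- `S` is not empty
  have hne : S.Nonempty := by
    by_contra hcon
    rw [Finset.not_nonempty_iff_eq_empty] at hcon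
    refine h.bad (fun _ => true) ⟨?_, ?_⟩
    · rw [hcon]; intro v hv; simp at hv
    · rw [hcon]; simp
  obtain ⟨v0, hv0⟩ := hne
  -- connectedness
  have hC : (gr S w hM).Connected := by
    classical
    have : Nonempty {v : V // v ∈ S} := ⟨⟨v0, hv0⟩⟩
    refine ⟨fun u v => ?_⟩
    have hT := conn (Finset.univ.filter (fun z => ∃ hz : z ∈ S, (gr S w hM).Reachable u ⟨z, hz⟩))
      (fun z hz => (Finset.mem_filter.1 hz).2.1)
      ⟨u.1, Finset.mem_filter.2 ⟨Finset.mem_univ _, u.2, SimpleGraph.Reachable.refl _⟩⟩ ?_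
    · have hv : v.1 ∈ Finset.univ.filter (fun z => ∃ hz : z ∈ S,
          (gr S w hM).Reachable u ⟨z, hz⟩) := by
        rw [hT]
        exact v.2
      exact (Finset.mem_filter.1 hv).2.2
    · intro z hz z' hzz
      rw [Finset.mem_filter] at hz ⊢
      obtain ⟨_, hz1, hz2⟩ := hz
      have hz' := hM.supp' hzz
      refine ⟨Finset.mem_univ _, hz', hz2.trans (SimpleGraph.Adj.reachable ?_)⟩
      exact hzz
  -- degrees
  have hdeg : ∀ v, (gr S w hM).degree v = 1 ∨ (gr S w hM).degree v = 3 := by
    intro v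
    rw [gr_degree hM simple]
    exact hM.deg v.1 v.2
  have hC4 : C4Free (gr S w hM) := by
    intro a b c d hab hbc hcd hda
    by_contra hcon
    push Not at hcon
    exact noC4 (fun h' => hcon.1 (Subtype.ext h')) (fun h' => hcon.2 (Subtype.ext h'))
      hab hbc hcd hda
  have hcut : ∀ T : Finset {v : V // v ∈ S}, ((Finset.univ ×ˢ Finset.univ).filter
      (fun p : {v : V // v ∈ S} × {v : V // v ∈ S} => p.1 ∈ T ∧ p.2 ∉ T ∧
        (gr S w hM).Adj p.1 p.2)).card = 1 → T.card = 1 ∨ Tᶜ.card = 1 := by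
    intro T hT
    obtain ⟨⟨x, y⟩, hxy⟩ := Finset.card_eq_one.1 hT
    have hmem : ∀ u v : {v : V // v ∈ S}, (u ∈ T ∧ v ∉ T ∧ (gr S w hM).Adj u v) ↔
        (u = x ∧ v = y) := by
      intro u v
      have : (u, v) ∈ (Finset.univ ×ˢ Finset.univ).filter
          (fun p : {v : V // v ∈ S} × {v : V // v ∈ S} => p.1 ∈ T ∧ p.2 ∉ T ∧
            (gr S w hM).Adj p.1 p.2) ↔ (u, v) ∈ ({(x, y)} : Finset _) := by rw [hxy]
      rw [Finset.mem_filter, Finset.mem_singleton, Prod.mk.injEq] at this
      simpa using this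
    obtain ⟨hx, hy, hadj⟩ := (hmem x y).2 ⟨rfl, rfl⟩
    have hmapmem : ∀ u : V, u ∈ T.map (Function.Embedding.subtype _) ↔
        ∃ hu : u ∈ S, (⟨u, hu⟩ : {v : V // v ∈ S}) ∈ T := by
      intro u
      rw [Finset.mem_map]
      constructor
      · rintro ⟨z, hz, rfl⟩
        exact ⟨z.2, hz⟩
      · rintro ⟨hu, hu'⟩
        exact ⟨⟨u, hu⟩, hu', rfl⟩
    have hres := bridge (T := T.map (Function.Embedding.subtype _)) (x := x.1) (y := y.1) ?_ ?_ ?_
      ?_ ?_
    · rcases hres with h1 | h1
      · left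
        rwa [Finset.card_map] at h1
      · right
        rw [← h1]
        have h2 : (Tᶜ).map (Function.Embedding.subtype _) =
            S \ T.map (Function.Embedding.subtype _) := by
          ext u
          rw [Finset.mem_sdiff, hmapmem, Finset.mem_map]
          constructor
          · rintro ⟨z, hz, rfl⟩
            refine ⟨z.2, fun ⟨_, h3⟩ => (Finset.mem_compl.1 hz) h3⟩
          · rintro ⟨hu, hu'⟩
            refine ⟨⟨u, hu⟩, Finset.mem_compl.2 (fun h3 => hu' ⟨hu, h3⟩), rfl⟩
        rw [← h2, Finset.card_map]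
    · intro u hu
      exact ((hmapmem u).1 hu).1
    · exact (hmapmem x.1).2 ⟨x.2, hx⟩
    · intro h2
      obtain ⟨_, h3⟩ := (hmapmem y.1).1 h2
      exact hy h3
    · have h2 := simple x.1 y.1
      have h3 : w x.1 y.1 ≠ 0 := hadj
      omega
    · intro u hu v hv huv
      obtain ⟨hu1, hu2⟩ := (hmapmem u).1 hu
      have hv1 := hM.supp' huv
      have h3 := (hmem ⟨u, hu1⟩ ⟨v, hv1⟩).1
        ⟨hu2, fun h4 => hv ((hmapmem v).2 ⟨hv1, h4⟩), huv⟩
      exact ⟨congrArg Subtype.val h3.1, congrArg Subtype.val h3.2⟩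
  have hpet : IsEmpty (gr S w hM ≃g SimpleGraph.fromRel
      (fun s t : {s : Finset (Fin 5) // s.card = 2} => Disjoint s.1 t.1)) := by
    refine ⟨fun φ => h.nopet ⟨fun i => (φ.symm (eEquiv i)).1, ?_, fun i => ?_, fun i j => ?_⟩⟩
    · intro i j hij
      exact eEquiv.injective (φ.symm.injective (Subtype.ext hij))
    · exact (φ.symm (eEquiv i)).2
    · have h1 : (gr S w hM).Adj (φ.symm (eEquiv i)) (φ.symm (eEquiv j)) ↔ P i j = 1 := by
        rw [φ.symm.map_adj_iff, eFun_disj, SimpleGraph.fromRel_adj]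
        have h2 : (eEquiv i).1 = eFun i := rfl
        have h3 : (eEquiv j).1 = eFun j := rfl
        rw [h2, h3]
        constructor
        · rintro ⟨_, h4 | h4⟩
          · exact h4
          · exact h4.symm
        · intro h4
          refine ⟨?_, Or.inl h4⟩
          intro h5
          have h6 : eFun i = eFun j := by rw [← h2, ← h3, h5]
          rw [h6, disjoint_self] at h4
          have h7 := eFun_card j
          rw [h4] at h7
          simp at h7
      rw [gr_adj] at h1
      have h2 := simple (φ.symm (eEquiv i)).1 (φ.symm (eEquiv j)).1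
      have h3 := P_le i j
      change w (φ.symm (eEquiv i)).1 (φ.symm (eEquiv j)).1 = P i j
      by_cases h4 : P i j = 1
      · have := h1.2 h4
        omega
      · have : ¬ w (φ.symm (eEquiv i)).1 (φ.symm (eEquiv j)).1 ≠ 0 := fun h5 => h4 (h1.1 h5)
        omega
  obtain ⟨c, hc1, hc2⟩ := hMain {v : V // v ∈ S} (gr S w hM) hC hdeg hC4
    (fun v => ⟨m v.1, hm.mem v.1 v.2⟩) (fun v => Subtype.ext (hm.inv v.1 v.2))
    (fun v => hm.adj v.1 v.2) hcut hpet
  refine h.bad (fun v => if hv : v ∈ S then c ⟨v, hv⟩ else true) ⟨?_, ?_⟩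
  · intro v hv
    have h1 := gr_bad hM simple c (fun v => if hv : v ∈ S then c ⟨v, hv⟩ else true)
      (fun v => by simp [v.2]) ⟨v, hv⟩
    have h2 := gr_degree hM simple ⟨v, hv⟩
    have h3 := hc1 ⟨v, hv⟩
    simp only at h1 h2
    rw [h1, ← h2]
    exact h3
  · rw [← hc2]
    unfold sgn
    rw [← Finset.sum_coe_sort S]
    refine Finset.sum_congr rfl (fun v _ => ?_)
    unfold sg
    simp [v.2]

/-- Without minimal counterexamples there are no counterexamples. -/
theorem all_good_of (hfalse : ∀ (S : Finset V) (w : V → V → ℕ), Min S w → False) :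
    ∀ (n : ℕ) (S : Finset V) (w : V → V → ℕ), S.card = n → Mg S w → (∃ m, PM S w m) →
      ¬ Pet S w → ∃ f, Good S w f := by
  intro n
  induction n using Nat.strong_induction_on with
  | _ n ih =>
    intro S w hS hM hm hP
    by_contra hcon
    push Not at hcon
    refine hfalse S w ⟨hM, hm, hP, hcon, ?_⟩
    intro S' w' hlt hM' hm' hP'
    exact ih S'.card (by omega) S' w' rfl hM' hm' hP'

/-- From good colourings of the multigraphs to the statement of S11147. -/
theorem s11147_of (hall : ∀ (S : Finset V) (w : V → V → ℕ), Mg S w → (∃ m, PM S w m) →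
      ¬ Pet S w → ∃ f, Good S w f)
    (G : SimpleGraph V) [DecidableRel G.Adj] (hconn : G.Connected)
    (hreg : G.IsRegularOfDegree 3) (hmat : ∃ M : G.Subgraph, M.IsPerfectMatching)
    (hpet : IsEmpty (G ≃g SimpleGraph.fromRel
      (fun s t : {s : Finset (Fin 5) // s.card = 2} => Disjoint s.1 t.1))) :
    ∃ c : V → Bool,
      (Finset.univ.filter (fun v => c v = true)).card
        = (Finset.univ.filter (fun v => c v = false)).card ∧
      ∀ v : V, {w : V | (G ⊓ SimpleGraph.fromRel
        (fun a b : V => c a = c b)).Reachable v w}.ncard ≤ 2 := by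
  set w : V → V → ℕ := fun u v => if G.Adj u v then 1 else 0 with hw
  have hwadj : ∀ u v, w u v ≠ 0 ↔ G.Adj u v := by
    intro u v
    simp only [hw]
    split_ifs with h <;> simp [h]
  have hdg : ∀ v, dg w v = 3 := by
    intro v
    have h1 := hreg v
    rw [← SimpleGraph.card_neighborFinset_eq_degree] at h1
    unfold dg
    simp only [hw]
    rw [← Finset.card_filter, ← h1]
    congr 1
    ext u
    simp [SimpleGraph.mem_neighborFinset]
  have hM : Mg (Finset.univ : Finset V) w := by
    refine ⟨fun u v => ?_, fun v => ?_, fun u v _ => Finset.mem_univ u, fun v _ => Or.inr (hdg v)⟩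
    · simp only [hw, G.adj_comm]
    · simp [hw]
  have hm : ∃ m, PM (Finset.univ : Finset V) w m := by
    obtain ⟨M, hM⟩ := hmat
    have hp : ∀ v : V, ∃ u, M.Adj v u := fun v => (hM.1 (hM.2 v)).exists
    choose p hp using hp
    have huniq : ∀ v u, M.Adj v u → u = p v := fun v u hu =>
      (hM.1 (hM.2 v)).unique hu (hp v)
    refine ⟨p, fun v _ => Finset.mem_univ _, fun v _ => ?_, fun v _ => ?_⟩
    · exact (huniq (p v) v (hp v).symm).symm
    · rw [hwadj]
      exact (hp v).adj_sub
  have hP : ¬ Pet (Finset.univ : Finset V) w := by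
    rintro ⟨π, hi, _, hπ⟩
    have h1 := Pool.BLE.petersen_of_hom G hconn hreg (fun s => π (eEquiv.symm s))
      (fun s t h => eEquiv.symm.injective (hi h)) (fun s t h => by
        rw [← hwadj, hπ]
        have h2 : P (eEquiv.symm s) (eEquiv.symm t) = 1 := by
          rw [eFun_disj]
          have h3 : eFun (eEquiv.symm s) = s.1 := by
            rw [← eEquiv_apply, Equiv.apply_symm_apply]
          have h4 : eFun (eEquiv.symm t) = t.1 := by
            rw [← eEquiv_apply, Equiv.apply_symm_apply]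
          rw [h3, h4]
          exact h
        omega)
    exact h1.elim fun φ => hpet.elim φ
  obtain ⟨f, hf1, hf2⟩ := hall _ w hM hm hP
  refine Pool.BLE.concl_of_valid G ⟨true, f, fun v => ?_, ?_⟩
  · have h1 := hf1 v (Finset.mem_univ v)
    rw [hdg v] at h1
    have h2 : own w f v = (bad G f v).card := by
      have h3 : bad G f v = Finset.univ.filter (fun u => G.Adj v u ∧ f u = f v) := by
        ext u
        rw [mem_bad]
        simp
      unfold own
      rw [h3, Finset.card_filter]
      refine Finset.sum_congr rfl (fun u _ => ?_)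
      simp only [hw]
      by_cases h4 : f u = f v <;> by_cases h5 : G.Adj v u <;> simp [h4, h5]
    omega
  · rw [← hf2]
    unfold sgn sg
    exact Finset.sum_congr rfl (fun v _ => rfl)

end

end Pool.Agent.BLN.Red
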