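import Pool.Agent.BLN.Red.Min

set_option autoImplicit false
set_option linter.unusedSectionVars false

/-!
All new edges in one Petersen graph: transport of the finite check.
-/

namespace Pool.Agent.BLN.Red

open Finset

variable {V : Type} [Fintype V] [DecidableEq V]
variable {S : Finset V} {w : V → V → ℕ} {C E : Finset V} {out τ : V → V}

/-- The old weights inside the copy of the Petersen graph. -/
theorem pet_weight (hM : Mg S w) {π : Fin 10 → V} (hi : Function.Injective π)
    (hS : ∀ i, π i ∈ S \ C) (hw : ∀ i j, nw w C E out τ (π i) (π j) = P i j) (i j : Fin 10) :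
    w (π i) (π j) + (if i = j then 0 else
      (E.filter (fun c => out c = π i ∧ out (τ c) = π j)).card) = P i j := by
  by_cases h1 : i = j
  · subst h1
    rw [if_pos rfl, hM.loop, P_self]
  · rw [if_neg h1, ← hw i j]
    unfold nw
    rw [if_pos ⟨(Finset.mem_sdiff.1 (hS i)).2, (Finset.mem_sdiff.1 (hS j)).2,
      fun e => h1 (hi e)⟩]

/-- A good colouring from one of the Petersen graph with the piece inserted. -/
theorem pet_lift (hM : Mg S w) (hG : Gad S w C E out τ) {π : Fin 10 → V}
    (hi : Function.Injective π) (hS : ∀ i, π i ∈ S \ C)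
    (hw : ∀ i j, nw w C E out τ (π i) (π j) = P i j)
    (hall : ∀ v ∈ S, v ∉ C → ∃ i, π i = v) (F : Fin 10 → Bool) (g : V → Bool)
    (h1 : ∀ i, (∑ j, if F j = F i then w (π i) (π j) else 0)
      + (E.filter (fun c => out c = π i ∧ g c = F i)).card ≤ 1)
    (h2 : ∀ f : V → Bool, (∀ i, f (π i) = F i) → (∀ c ∈ C, f c = g c) →
      ∀ c ∈ C, 2 * own w f c < dg w c)
    (h3 : ∑ i, sg (F i) + ∑ c ∈ C, sg (g c) = 0) : ∃ f, Good S w f := by
  classical
  have hN := mg_nw hM hG
  let f : V → Bool := fun v => if v ∈ C then g v else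
    if hv : ∃ j, π j = v then F hv.choose else true
  have hfπ : ∀ i, f (π i) = F i := by
    intro i
    have hex : ∃ j, π j = π i := ⟨i, rfl⟩
    show (if π i ∈ C then g (π i) else if hv : ∃ j, π j = π i then F hv.choose else true) = F i
    rw [if_neg (Finset.mem_sdiff.1 (hS i)).2, dif_pos hex]
    congr 1
    exact hi hex.choose_spec
  have hfC : ∀ c ∈ C, f c = g c := fun c hc => if_pos hc
  refine ⟨f, ?_, ?_⟩
  · intro u hu
    by_cases huC : u ∈ C
    · exact h2 f hfπ hfC u huC
    · obtain ⟨i, rfl⟩ := hall u hu huC
      have h4 : dg w (π i) = 3 := by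
        have h5 := pet_dg (fun v hv => hN.deg_le hv) hi hS hw i
        have h6 := dg_nw hM hG hu huC
        have h7 := hM.deg_le hu
        omega
      have h5 : own w f (π i) ≤ 1 := by
        refine le_trans (le_of_eq ?_) (h1 i)
        have h6 : own w f (π i) = _ := sum_old hG hu huC (fun v => f v = f (π i))
        rw [h6]
        congr 1
        · have h7 : (∑ v, if v ∉ C ∧ f v = f (π i) then w (π i) v else 0)
              = ∑ v ∈ Finset.univ.image π, if v ∉ C ∧ f v = f (π i) then w (π i) v else 0 := by
            symm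
            refine Finset.sum_subset (Finset.subset_univ _) (fun v _ hv => ?_)
            by_cases h8 : v ∉ C ∧ f v = f (π i)
            · rw [if_pos h8]
              by_contra h9
              obtain ⟨j, hj⟩ := hall v (hM.supp' h9) h8.1
              exact hv (by rw [← hj]; exact Finset.mem_image_of_mem _ (Finset.mem_univ _))
            · rw [if_neg h8]
          rw [h7, Finset.sum_image (fun a _ b _ e => hi e)]
          refine Finset.sum_congr rfl (fun j _ => ?_)
          rw [hfπ, hfπ]
          by_cases h8 : F j = F i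
          · rw [if_pos h8, if_pos ⟨(Finset.mem_sdiff.1 (hS j)).2, h8⟩]
          · rw [if_neg h8, if_neg (fun e => h8 e.2)]
        · congr 1
          ext c
          rw [Finset.mem_filter, Finset.mem_filter, hfπ]
          constructor
          · rintro ⟨a, b, d⟩
            exact ⟨a, b, by rw [← hfC c (hG.EC a)]; exact d⟩
          · rintro ⟨a, b, d⟩
            exact ⟨a, b, by rw [hfC c (hG.EC a)]; exact d⟩
      omega
  · rw [← Finset.sum_sdiff hG.CS]
    have h4 : ∑ v ∈ C, sg (f v) = ∑ v ∈ C, sg (g v) :=
      Finset.sum_congr rfl (fun v hv => by rw [hfC v hv])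
    have h5 : S \ C = Finset.univ.image π := by
      ext v
      rw [Finset.mem_image, Finset.mem_sdiff]
      constructor
      · rintro ⟨a, b⟩
        obtain ⟨i, hi'⟩ := hall v a b
        exact ⟨i, Finset.mem_univ _, hi'⟩
      · rintro ⟨i, _, hi'⟩
        rw [← hi']
        exact Finset.mem_sdiff.1 (hS i)
    rw [h4, h5, Finset.sum_image (fun a _ b _ e => hi e), ← h3]
    congr 1
    exact Finset.sum_congr rfl (fun i _ => by rw [hfπ])

end Pool.Agent.BLN.Red
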