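import Pool.Agent.BLN.Red.Repl
import Pool.Agent.BLN.Red.PetLift

set_option autoImplicit false
set_option linter.unusedSectionVars false

/-!
Four-cycles do not occur in a minimal counterexample.
-/

namespace Pool.Agent.BLN.Red

open Finset

variable {V : Type} [Fintype V] [DecidableEq V]
variable {S : Finset V} {w : V → V → ℕ} {C E : Finset V} {out τ : V → V}

/-- The finite check for four-cycles inserted in two edges of the Petersen graph. -/
def PetC : Prop :=
  ∀ a b c d : Fin 10, P a b = 1 → P c d = 1 → ¬ ((a = c ∧ b = d) ∨ (a = d ∧ b = c)) →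
    ∃ (F : Fin 10 → Bool) (g0 g1 g2 g3 : Bool),
      (∀ i, (∑ j, if F j = F i ∧ ¬ ((i = a ∧ j = b) ∨ (i = b ∧ j = a) ∨ (i = c ∧ j = d) ∨
          (i = d ∧ j = c)) then P i j else 0)
        + ((if i = a ∧ g0 = F i then 1 else 0) + (if i = b ∧ g1 = F i then 1 else 0)
        + (if i = c ∧ g2 = F i then 1 else 0) + (if i = d ∧ g3 = F i then 1 else 0)) ≤ 1) ∧
      (if g1 = g0 then 1 else 0) + (if g3 = g0 then 1 else 0) + (if F a = g0 then 1 else 0) ≤ 1 ∧
      (if g0 = g1 then 1 else 0) + (if g2 = g1 then 1 else 0) + (if F b = g1 then 1 else 0) ≤ 1 ∧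
      (if g1 = g2 then 1 else 0) + (if g3 = g2 then 1 else 0) + (if F c = g2 then 1 else 0) ≤ 1 ∧
      (if g2 = g3 then 1 else 0) + (if g0 = g3 then 1 else 0) + (if F d = g3 then 1 else 0) ≤ 1 ∧
      ∑ i, sg (F i) + (sg g0 + (sg g1 + (sg g2 + sg g3))) = 0

/-- The table for a four-cycle. -/
theorem q4_table (p q r s : Bool) : ∃ g0 g1 g2 g3 : Bool,
    ((g0 = p → q = p) ∧ (g1 = q → p = q) ∧ (g2 = r → s = r) ∧ (g3 = s → r = s)) ∧
    (¬ (g0 = p ∧ g1 = q) ∧ ¬ (g2 = r ∧ g3 = s)) ∧
    (if g1 = g0 then 1 else 0) + (if g3 = g0 then 1 else 0) + (if p = g0 then 1 else 0) ≤ 1 ∧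
    (if g0 = g1 then 1 else 0) + (if g2 = g1 then 1 else 0) + (if q = g1 then 1 else 0) ≤ 1 ∧
    (if g1 = g2 then 1 else 0) + (if g3 = g2 then 1 else 0) + (if r = g2 then 1 else 0) ≤ 1 ∧
    (if g2 = g3 then 1 else 0) + (if g0 = g3 then 1 else 0) + (if s = g3 then 1 else 0) ≤ 1 ∧
    sg g0 + (sg g1 + (sg g2 + sg g3)) = 0 := by
  refine ⟨if p = q then (if r = s then (if p = r then p else !p) else s) else !p,
    if p = q then (if r = s then !p else r) else !q,
    if p = q then (if r = s then p else !r) else (if r = s then q else !r),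
    if p = q then (if r = s then (if p = r then !p else p) else !s) else (if r = s then p else !s),
    ?_⟩
  cases p <;> cases q <;> cases r <;> cases s <;> simp [sg]

theorem own_three {v a b x : V} (h : ∀ u, w v u = (if u = a then 1 else 0)
    + (if u = b then 1 else 0) + (if u = x then 1 else 0)) (f : V → Bool) :
    own w f v = (if f a = f v then 1 else 0) + (if f b = f v then 1 else 0)
      + (if f x = f v then 1 else 0) := by
  unfold own
  have h1 : ∀ u, (if f u = f v then w v u else 0)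
      = (if u = a then (if f u = f v then 1 else 0) else 0)
        + (if u = b then (if f u = f v then 1 else 0) else 0)
        + (if u = x then (if f u = f v then 1 else 0) else 0) := by
    intro u
    rw [h u]
    by_cases h2 : f u = f v
    · simp only [h2, if_true]
    · simp only [h2, if_false]
      split_ifs <;> rfl
  rw [Finset.sum_congr rfl (fun u _ => h1 u), Finset.sum_add_distrib, Finset.sum_add_distrib,
    Finset.sum_ite_eq', Finset.sum_ite_eq', Finset.sum_ite_eq', if_pos (Finset.mem_univ _),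
    if_pos (Finset.mem_univ _), if_pos (Finset.mem_univ _)]

theorem dg_three {v a b x : V} (h : ∀ u, w v u = (if u = a then 1 else 0)
    + (if u = b then 1 else 0) + (if u = x then 1 else 0)) : dg w v = 3 := by
  unfold dg
  rw [Finset.sum_congr rfl (fun u _ => h u), Finset.sum_add_distrib, Finset.sum_add_distrib,
    Finset.sum_ite_eq', Finset.sum_ite_eq', Finset.sum_ite_eq', if_pos (Finset.mem_univ _),
    if_pos (Finset.mem_univ _), if_pos (Finset.mem_univ _)]

/-- Only one new edge in the Petersen component. -/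
theorem rp_of_gad (hM : Mg S w) (hG : Gad S w C E out τ) {π : Fin 10 → V}
    (hi : Function.Injective π) (hS : ∀ i, π i ∈ S \ C)
    (hw : ∀ i j, nw w C E out τ (π i) (π j) = P i j) {e0 e1 : V} (h0 : e0 ∈ E)
    (h1 : τ e0 = e1) {a b : Fin 10} (ha : π a = out e0) (hb : π b = out e1)
    (ho : ∀ c ∈ E, c ≠ e0 → c ≠ e1 → ∀ i, π i ≠ out c) (hadj : w e0 e1 ≠ 0) :
    Rp S w π a b e0 e1 := by
  have hN := mg_nw hM hG
  have he1 : e1 ∈ E := h1 ▸ hG.tE e0 h0
  have h10 : τ e1 = e0 := by rw [← h1]; exact hG.tt e0 h0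
  obtain ⟨j, hj, hja, hP⟩ := pet_pair hM hG hi hS hw h0 ha
  have hjb : j = b := hi (by rw [hj, h1, hb])
  subst hjb
  refine ⟨hi, fun i => (Finset.mem_sdiff.1 (hS i)).1, hP, hM.ne hadj, ?_, ?_, hadj, ?_, ?_⟩
  · rintro i rfl
    exact (Finset.mem_sdiff.1 (hS i)).2 (hG.EC h0)
  · rintro i rfl
    exact (Finset.mem_sdiff.1 (hS i)).2 (hG.EC he1)
  · intro i k
    rw [← pet_weight hM hi hS hw i k]
    congr 1
    by_cases h2 : i = k
    · subst h2
      rw [if_pos rfl, if_neg]
      rintro (⟨h3, h4⟩ | ⟨h3, h4⟩)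
      · exact hja (h4.symm.trans h3)
      · exact hja (h3.symm.trans h4)
    · rw [if_neg h2]
      by_cases h3 : i = a ∧ k = j
      · obtain ⟨rfl, rfl⟩ := h3
        rw [if_pos (Or.inl ⟨rfl, rfl⟩)]
        symm
        rw [Finset.card_eq_one]
        refine ⟨e0, ?_⟩
        ext c
        rw [Finset.mem_filter, Finset.mem_singleton]
        constructor
        · rintro ⟨h4, h5, h6⟩
          by_contra h7
          by_cases h8 : c = e1
          · rw [h8, ← hb] at h5
            exact h2 (hi h5).symm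
          · exact ho c h4 h7 h8 _ h5.symm
        · rintro rfl
          exact ⟨h0, ha.symm, by rw [h1, hb]⟩
      · by_cases h3' : i = j ∧ k = a
        · obtain ⟨rfl, rfl⟩ := h3'
          rw [if_pos (Or.inr ⟨rfl, rfl⟩)]
          symm
          rw [Finset.card_eq_one]
          refine ⟨e1, ?_⟩
          ext c
          rw [Finset.mem_filter, Finset.mem_singleton]
          constructor
          · rintro ⟨h4, h5, h6⟩
            by_contra h7
            by_cases h8 : c = e0
            · rw [h8, ← ha] at h5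
              exact h2 (hi h5).symm
            · exact ho c h4 h8 h7 _ h5.symm
          · rintro rfl
            exact ⟨he1, hb.symm, by rw [h10, ha]⟩
        · rw [if_neg (by tauto)]
          symm
          rw [Finset.card_eq_zero]
          ext c
          rw [Finset.mem_filter]
          constructor
          · rintro ⟨h4, h5, h6⟩
            exfalso
            by_cases h8 : c = e0
            · subst h8
              rw [← ha] at h5
              rw [h1, ← hb] at h6
              exact h3 ⟨(hi h5).symm, (hi h6).symm⟩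
            · by_cases h9 : c = e1
              · subst h9
                rw [← hb] at h5
                rw [h10, ← ha] at h6
                exact h3' ⟨(hi h5).symm, (hi h6).symm⟩
              · exact ho c h4 h8 h9 _ h5.symm
          · intro h4
            exact absurd h4 (Finset.notMem_empty _)
  · intro i v hv
    have hiS := Finset.mem_sdiff.1 (hS i)
    have hab : ∀ c, c ≠ e0 → c ≠ e1 → ((if i = a ∧ c = e0 then 1 else 0)
        + (if i = j ∧ c = e1 then 1 else 0) : ℕ) = 0 := by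
      intro c h5 h6
      rw [if_neg (fun e => h5 e.2), if_neg (fun e => h6 e.2)]
    by_cases hvC : v ∈ C
    · rw [hG.cross _ hiS.1 hiS.2 v hvC]
      by_cases h4 : v = e0
      · subst h4
        rw [if_neg (show ¬ (i = j ∧ v = e1) from fun e => hM.ne hadj e.2), add_zero]
        congr 1
        apply propext
        constructor
        · rintro ⟨_, h5⟩
          exact ⟨hi (by rw [ha, h5]), rfl⟩
        · rintro ⟨h5, _⟩
          exact ⟨h0, by rw [h5, ha]⟩
      · by_cases h5 : v = e1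
        · subst h5
          rw [if_neg (show ¬ (i = a ∧ v = e0) from fun e => h4 e.2), zero_add]
          congr 1
          apply propext
          constructor
          · rintro ⟨_, h5⟩
            exact ⟨hi (by rw [hb, h5]), rfl⟩
          · rintro ⟨h5, _⟩
            exact ⟨he1, by rw [h5, hb]⟩
        · rw [hab v h4 h5, if_neg]
          rintro ⟨h6, h7⟩
          exact ho v h6 h4 h5 i h7.symm
    · have h4 : v ≠ e0 := by
        rintro rfl
        exact hvC (hG.EC h0)
      have h5 : v ≠ e1 := by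
        rintro rfl
        exact hvC (hG.EC he1)
      rw [hab v h4 h5]
      by_contra h6
      have h7 := le_nw (w := w) (E := E) (out := out) (τ := τ) hiS.2 hvC (hM.ne h6)
      obtain ⟨k, hk⟩ := pet_closed (fun v hv => hN.deg_le hv) hi hS hw i v (by omega)
      exact hv k hk

/-- A chordless four-cycle with its outer neighbours. -/
structure Q4 (S : Finset V) (w : V → V → ℕ) (c0 c1 c2 c3 o0 o1 o2 o3 : V) : Prop where
  n01 : c0 ≠ c1
  n02 : c0 ≠ c2
  n03 : c0 ≠ c3
  n12 : c1 ≠ c2
  n13 : c1 ≠ c3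
  n23 : c2 ≠ c3
  b0 : ∀ v, w c0 v = (if v = c1 then 1 else 0) + (if v = c3 then 1 else 0)
    + (if v = o0 then 1 else 0)
  b1 : ∀ v, w c1 v = (if v = c0 then 1 else 0) + (if v = c2 then 1 else 0)
    + (if v = o1 then 1 else 0)
  b2 : ∀ v, w c2 v = (if v = c1 then 1 else 0) + (if v = c3 then 1 else 0)
    + (if v = o2 then 1 else 0)
  b3 : ∀ v, w c3 v = (if v = c2 then 1 else 0) + (if v = c0 then 1 else 0)
    + (if v = o3 then 1 else 0)
  m0 : o0 ∉ ({c0, c1, c2, c3} : Finset V)
  m1 : o1 ∉ ({c0, c1, c2, c3} : Finset V)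
  m2 : o2 ∉ ({c0, c1, c2, c3} : Finset V)
  m3 : o3 ∉ ({c0, c1, c2, c3} : Finset V)

theorem not_mem_four {v c0 c1 c2 c3 : V} :
    v ∉ ({c0, c1, c2, c3} : Finset V) ↔ v ≠ c0 ∧ v ≠ c1 ∧ v ≠ c2 ∧ v ≠ c3 := by
  simp only [Finset.mem_insert, Finset.mem_singleton]
  tauto

/-- Rotation. -/
theorem Q4.rot {c0 c1 c2 c3 o0 o1 o2 o3 : V} (h : Q4 S w c0 c1 c2 c3 o0 o1 o2 o3) :
    Q4 S w c1 c2 c3 c0 o1 o2 o3 o0 := by
  have h0 := not_mem_four.1 h.m0
  have h1 := not_mem_four.1 h.m1
  have h2 := not_mem_four.1 h.m2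
  have h3 := not_mem_four.1 h.m3
  refine ⟨h.n12, h.n13, h.n01.symm, h.n23, h.n02.symm, h.n03.symm, ?_, h.b2, h.b3, ?_,
    ?_, ?_, ?_, ?_⟩
  · intro v
    rw [h.b1 v]
    omega
  · intro v
    rw [h.b0 v]
    omega
  · exact not_mem_four.2 ⟨h1.2.1, h1.2.2.1, h1.2.2.2, h1.1⟩
  · exact not_mem_four.2 ⟨h2.2.1, h2.2.2.1, h2.2.2.2, h2.1⟩
  · exact not_mem_four.2 ⟨h3.2.1, h3.2.2.1, h3.2.2.2, h3.1⟩
  · exact not_mem_four.2 ⟨h0.2.1, h0.2.2.1, h0.2.2.2, h0.1⟩

/-- The outer neighbours as a function. -/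
def oQ (c0 c1 c2 o0 o1 o2 o3 v : V) : V :=
  if v = c0 then o0 else if v = c1 then o1 else if v = c2 then o2 else o3

/-- The pairing. -/
def tQ (c0 c1 c2 c3 v : V) : V :=
  if v = c0 then c1 else if v = c1 then c0 else if v = c2 then c3 else c2

section

variable {c0 c1 c2 c3 o0 o1 o2 o3 : V}

theorem Q4.eo0 (_ : Q4 S w c0 c1 c2 c3 o0 o1 o2 o3) : oQ c0 c1 c2 o0 o1 o2 o3 c0 = o0 := by
  unfold oQ
  rw [if_pos rfl]

theorem Q4.eo1 (h : Q4 S w c0 c1 c2 c3 o0 o1 o2 o3) : oQ c0 c1 c2 o0 o1 o2 o3 c1 = o1 := by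
  unfold oQ
  rw [if_neg h.n01.symm, if_pos rfl]

theorem Q4.eo2 (h : Q4 S w c0 c1 c2 c3 o0 o1 o2 o3) : oQ c0 c1 c2 o0 o1 o2 o3 c2 = o2 := by
  unfold oQ
  rw [if_neg h.n02.symm, if_neg h.n12.symm, if_pos rfl]

theorem Q4.eo3 (h : Q4 S w c0 c1 c2 c3 o0 o1 o2 o3) : oQ c0 c1 c2 o0 o1 o2 o3 c3 = o3 := by
  unfold oQ
  rw [if_neg h.n03.symm, if_neg h.n13.symm, if_neg h.n23.symm]

theorem Q4.t0 (_ : Q4 S w c0 c1 c2 c3 o0 o1 o2 o3) : tQ c0 c1 c2 c3 c0 = c1 := by
  unfold tQ
  rw [if_pos rfl]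

theorem Q4.t1 (h : Q4 S w c0 c1 c2 c3 o0 o1 o2 o3) : tQ c0 c1 c2 c3 c1 = c0 := by
  unfold tQ
  rw [if_neg h.n01.symm, if_pos rfl]

theorem Q4.t2 (h : Q4 S w c0 c1 c2 c3 o0 o1 o2 o3) : tQ c0 c1 c2 c3 c2 = c3 := by
  unfold tQ
  rw [if_neg h.n02.symm, if_neg h.n12.symm, if_pos rfl]

theorem Q4.t3 (h : Q4 S w c0 c1 c2 c3 o0 o1 o2 o3) : tQ c0 c1 c2 c3 c3 = c2 := by
  unfold tQ
  rw [if_neg h.n03.symm, if_neg h.n13.symm, if_neg h.n23.symm]

theorem mem_four {v : V} :
    v ∈ ({c0, c1, c2, c3} : Finset V) ↔ v = c0 ∨ v = c1 ∨ v = c2 ∨ v = c3 := by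
  simp only [Finset.mem_insert, Finset.mem_singleton]

theorem Q4.mem (h : Q4 S w c0 c1 c2 c3 o0 o1 o2 o3) (hM : Mg S w) :
    (c0 ∈ S ∧ c1 ∈ S ∧ c2 ∈ S ∧ c3 ∈ S) ∧ (o0 ∈ S ∧ o1 ∈ S ∧ o2 ∈ S ∧ o3 ∈ S) := by
  have h0 : w c0 o0 ≠ 0 := by
    rw [h.b0]
    simp
  have h1 : w c1 o1 ≠ 0 := by
    rw [h.b1]
    simp
  have h2 : w c2 o2 ≠ 0 := by
    rw [h.b2]
    simp
  have h3 : w c3 o3 ≠ 0 := by
    rw [h.b3]
    simp
  exact ⟨⟨hM.supp _ _ h0, hM.supp _ _ h1, hM.supp _ _ h2, hM.supp _ _ h3⟩,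
    ⟨hM.supp' h0, hM.supp' h1, hM.supp' h2, hM.supp' h3⟩⟩

theorem Q4.gad (h : Q4 S w c0 c1 c2 c3 o0 o1 o2 o3) (hM : Mg S w) :
    Gad S w {c0, c1, c2, c3} {c0, c1, c2, c3} (oQ c0 c1 c2 o0 o1 o2 o3) (tQ c0 c1 c2 c3) := by
  obtain ⟨⟨s0, s1, s2, s3⟩, ⟨u0, u1, u2, u3⟩⟩ := h.mem hM
  refine ⟨?_, fun v hv => hv, ?_, ?_, ?_, ?_, ?_⟩
  · intro v hv
    rcases mem_four.1 hv with e | e | e | e <;> subst e <;> assumption
  · intro v hv
    rcases mem_four.1 hv with e | e | e | e <;> subst e
    · rw [h.eo0]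
      exact ⟨u0, h.m0⟩
    · rw [h.eo1]
      exact ⟨u1, h.m1⟩
    · rw [h.eo2]
      exact ⟨u2, h.m2⟩
    · rw [h.eo3]
      exact ⟨u3, h.m3⟩
  · intro v hv hvC c hc
    have hv4 := not_mem_four.1 hvC
    rw [hM.symm]
    rcases mem_four.1 hc with e | e | e | e
    · subst e
      rw [h.b0, h.eo0, if_neg hv4.2.1, if_neg hv4.2.2.2, zero_add, zero_add]
      congr 1
      apply propext
      exact ⟨fun e => ⟨hc, e.symm⟩, fun e => e.2.symm⟩
    · subst e
      rw [h.b1, h.eo1, if_neg hv4.1, if_neg hv4.2.2.1, zero_add, zero_add]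
      congr 1
      apply propext
      exact ⟨fun e => ⟨hc, e.symm⟩, fun e => e.2.symm⟩
    · subst e
      rw [h.b2, h.eo2, if_neg hv4.2.1, if_neg hv4.2.2.2, zero_add, zero_add]
      congr 1
      apply propext
      exact ⟨fun e => ⟨hc, e.symm⟩, fun e => e.2.symm⟩
    · subst e
      rw [h.b3, h.eo3, if_neg hv4.2.2.1, if_neg hv4.1, zero_add, zero_add]
      congr 1
      apply propext
      exact ⟨fun e => ⟨hc, e.symm⟩, fun e => e.2.symm⟩
  · intro v hv
    rcases mem_four.1 hv with e | e | e | e <;> subst e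
    · rw [h.t0]
      simp
    · rw [h.t1]
      simp
    · rw [h.t2]
      simp
    · rw [h.t3]
      simp
  · intro v hv
    rcases mem_four.1 hv with e | e | e | e <;> subst e
    · rw [h.t0, h.t1]
    · rw [h.t1, h.t0]
    · rw [h.t2, h.t3]
    · rw [h.t3, h.t2]
  · intro v hv
    rcases mem_four.1 hv with e | e | e | e <;> subst e
    · rw [h.t0]
      exact h.n01.symm
    · rw [h.t1]
      exact h.n01
    · rw [h.t2]
      exact h.n23.symm
    · rw [h.t3]
      exact h.n23

theorem Q4.sum (h : Q4 S w c0 c1 c2 c3 o0 o1 o2 o3) (g : V → ℤ) :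
    ∑ v ∈ ({c0, c1, c2, c3} : Finset V), g v = g c0 + (g c1 + (g c2 + g c3)) := by
  rw [Finset.sum_insert, Finset.sum_insert, Finset.sum_insert, Finset.sum_singleton]
  · rw [Finset.mem_singleton]
    exact h.n23
  · rw [Finset.mem_insert, Finset.mem_singleton]
    rintro (e | e)
    · exact h.n12 e
    · exact h.n13 e
  · rw [Finset.mem_insert, Finset.mem_insert, Finset.mem_singleton]
    rintro (e | e | e)
    · exact h.n01 e
    · exact h.n02 e
    · exact h.n03 e

/-- Colours on the cycle. -/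
def gQ (c0 c1 c2 c3 : V) (g0 g1 g2 g3 : Bool) (f : V → Bool) (v : V) : Bool :=
  if v = c0 then g0 else if v = c1 then g1 else if v = c2 then g2 else
    if v = c3 then g3 else f v

theorem Q4.g0 (_ : Q4 S w c0 c1 c2 c3 o0 o1 o2 o3) (g0 g1 g2 g3 : Bool) (f : V → Bool) :
    gQ c0 c1 c2 c3 g0 g1 g2 g3 f c0 = g0 := by
  unfold gQ
  rw [if_pos rfl]

theorem Q4.g1 (h : Q4 S w c0 c1 c2 c3 o0 o1 o2 o3) (g0 g1 g2 g3 : Bool) (f : V → Bool) :
    gQ c0 c1 c2 c3 g0 g1 g2 g3 f c1 = g1 := by
  unfold gQ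
  rw [if_neg h.n01.symm, if_pos rfl]

theorem Q4.g2 (h : Q4 S w c0 c1 c2 c3 o0 o1 o2 o3) (g0 g1 g2 g3 : Bool) (f : V → Bool) :
    gQ c0 c1 c2 c3 g0 g1 g2 g3 f c2 = g2 := by
  unfold gQ
  rw [if_neg h.n02.symm, if_neg h.n12.symm, if_pos rfl]

theorem Q4.g3 (h : Q4 S w c0 c1 c2 c3 o0 o1 o2 o3) (g0 g1 g2 g3 : Bool) (f : V → Bool) :
    gQ c0 c1 c2 c3 g0 g1 g2 g3 f c3 = g3 := by
  unfold gQ
  rw [if_neg h.n03.symm, if_neg h.n13.symm, if_neg h.n23.symm, if_pos rfl]

theorem gQ_out {v : V} (hv : v ∉ ({c0, c1, c2, c3} : Finset V)) (g0 g1 g2 g3 : Bool)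
    (f : V → Bool) : gQ c0 c1 c2 c3 g0 g1 g2 g3 f v = f v := by
  have h := not_mem_four.1 hv
  unfold gQ
  rw [if_neg h.1, if_neg h.2.1, if_neg h.2.2.1, if_neg h.2.2.2]

/-- Own counts on the cycle. -/
theorem Q4.own (h : Q4 S w c0 c1 c2 c3 o0 o1 o2 o3) {g0 g1 g2 g3 p0 p1 p2 p3 : Bool}
    (hg0 : (if g1 = g0 then 1 else 0) + (if g3 = g0 then 1 else 0)
      + (if p0 = g0 then 1 else 0) ≤ 1)
    (hg1 : (if g0 = g1 then 1 else 0) + (if g2 = g1 then 1 else 0)
      + (if p1 = g1 then 1 else 0) ≤ 1)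
    (hg2 : (if g1 = g2 then 1 else 0) + (if g3 = g2 then 1 else 0)
      + (if p2 = g2 then 1 else 0) ≤ 1)
    (hg3 : (if g2 = g3 then 1 else 0) + (if g0 = g3 then 1 else 0)
      + (if p3 = g3 then 1 else 0) ≤ 1)
    (f : V → Bool) (f0 : f c0 = g0) (f1 : f c1 = g1) (f2 : f c2 = g2) (f3 : f c3 = g3)
    (q0 : f o0 = p0) (q1 : f o1 = p1) (q2 : f o2 = p2) (q3 : f o3 = p3) :
    ∀ c ∈ ({c0, c1, c2, c3} : Finset V), 2 * Red.own w f c < dg w c := by
  intro c hc
  rcases mem_four.1 hc with e | e | e | e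
  · subst e
    rw [dg_three h.b0, own_three h.b0, f0, f1, f3, q0]
    omega
  · subst e
    rw [dg_three h.b1, own_three h.b1, f0, f1, f2, q1]
    omega
  · subst e
    rw [dg_three h.b2, own_three h.b2, f1, f2, f3, q2]
    omega
  · subst e
    rw [dg_three h.b3, own_three h.b3, f0, f2, f3, q3]
    omega

theorem card_two_le {E : Finset V} {p : V → Prop} [DecidablePred p] {x y : V} (hx : x ∈ E)
    (hy : y ∈ E) (hxy : x ≠ y) (px : p x) (py : p y) : 2 ≤ (E.filter p).card := by
  have h1 : ({x, y} : Finset V) ⊆ E.filter p := by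
    intro v hv
    rw [Finset.mem_insert, Finset.mem_singleton] at hv
    rw [Finset.mem_filter]
    rcases hv with e | e
    · rw [e]
      exact ⟨hx, px⟩
    · rw [e]
      exact ⟨hy, py⟩
  have h2 := Finset.card_le_card h1
  rwa [Finset.card_pair hxy] at h2

theorem four_aux (A B C D s0 s1 s2 s3 : Prop) (q0 : s0 ↔ ¬ (A ∨ D)) (q1 : s1 ↔ ¬ (A ∨ B))
    (q2 : s2 ↔ ¬ (B ∨ C)) (q3 : s3 ↔ ¬ (C ∨ D)) (x0 : ¬ (A ∧ D)) (x1 : ¬ (A ∧ B))
    (x2 : ¬ (B ∧ C)) (x3 : ¬ (C ∧ D)) :
    ((s0 ↔ s1) ∧ (s2 ↔ s3)) ∨ ((s1 ↔ s2) ∧ (s3 ↔ s0)) := by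
  by_cases hA : A <;> by_cases hB : B <;> by_cases hC : C <;> by_cases hD : D <;> simp_all

/-- The case where the matching is compatible with the pairs 01, 23. -/
theorem Q4.false (hE : PetE) (hC : PetC) (h : Q4 S w c0 c1 c2 c3 o0 o1 o2 o3)
    (hmin : Min S w) (hcn : Conn S w) {m : V → V} (hm : PM S w m) (h01 : m c0 = o0 ↔ m c1 = o1)
    (h23 : m c2 = o2 ↔ m c3 = o3) : False := by
  have hM := hmin.mg
  have hG := h.gad hM
  have hne : ({c0, c1, c2, c3} : Finset V).Nonempty := ⟨c0, by simp⟩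
  have k0 : c0 ∈ ({c0, c1, c2, c3} : Finset V) := by simp
  have k1 : c1 ∈ ({c0, c1, c2, c3} : Finset V) := by simp
  have k2 : c2 ∈ ({c0, c1, c2, c3} : Finset V) := by simp
  have k3 : c3 ∈ ({c0, c1, c2, c3} : Finset V) := by simp
  have hcomp : ∀ c ∈ ({c0, c1, c2, c3} : Finset V), m c = oQ c0 c1 c2 o0 o1 o2 o3 c →
      m (tQ c0 c1 c2 c3 c) = oQ c0 c1 c2 o0 o1 o2 o3 (tQ c0 c1 c2 c3 c) := by
    intro c hc
    rcases mem_four.1 hc with e | e | e | e <;> subst e
    · rw [h.eo0, h.t0, h.eo1]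
      exact h01.1
    · rw [h.eo1, h.t1, h.eo0]
      exact h01.2
    · rw [h.eo2, h.t2, h.eo3]
      exact h23.1
    · rw [h.eo3, h.t3, h.eo2]
      exact h23.2
  by_cases hP : Pet (S \ {c0, c1, c2, c3})
      (nw w {c0, c1, c2, c3} {c0, c1, c2, c3} (oQ c0 c1 c2 o0 o1 o2 o3) (tQ c0 c1 c2 c3))
  · obtain ⟨π, hi, hS, hw⟩ := hP
    -- the outer neighbours in the copy
    have e01 : (∃ i, π i = o0) ↔ ∃ i, π i = o1 := by
      constructor
      · rintro ⟨i, hi'⟩
        obtain ⟨j, hj, _⟩ := pet_pair hM hG hi hS hw k0 (i := i) (by rw [h.eo0]; exact hi')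
        exact ⟨j, by rw [hj, h.t0, h.eo1]⟩
      · rintro ⟨i, hi'⟩
        obtain ⟨j, hj, _⟩ := pet_pair hM hG hi hS hw k1 (i := i) (by rw [h.eo1]; exact hi')
        exact ⟨j, by rw [hj, h.t1, h.eo0]⟩
    have e23 : (∃ i, π i = o2) ↔ ∃ i, π i = o3 := by
      constructor
      · rintro ⟨i, hi'⟩
        obtain ⟨j, hj, _⟩ := pet_pair hM hG hi hS hw k2 (i := i) (by rw [h.eo2]; exact hi')
        exact ⟨j, by rw [hj, h.t2, h.eo3]⟩
      · rintro ⟨i, hi'⟩
        obtain ⟨j, hj, _⟩ := pet_pair hM hG hi hS hw k3 (i := i) (by rw [h.eo3]; exact hi')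
        exact ⟨j, by rw [hj, h.t3, h.eo2]⟩
    by_cases hA : ∃ i, π i = o0
    · by_cases hB : ∃ i, π i = o2
      · -- everything in the copy
        have hC' := e01.1 hA
        have hD' := e23.1 hB
        obtain ⟨a, ha⟩ := hA
        obtain ⟨b, hb⟩ := hC'
        obtain ⟨c, hc⟩ := hB
        obtain ⟨d, hd⟩ := hD'
        have hall := pet_all hM hG hcn hne hi hS hw (by
          intro v hv
          rcases mem_four.1 hv with e | e | e | e <;> subst e
          · exact ⟨a, by rw [h.eo0, ha]⟩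
          · exact ⟨b, by rw [h.eo1, hb]⟩
          · exact ⟨c, by rw [h.eo2, hc]⟩
          · exact ⟨d, by rw [h.eo3, hd]⟩)
        have hab : P a b = 1 := by
          obtain ⟨j, hj, _, hj2⟩ := pet_pair hM hG hi hS hw k0 (i := a) (by rw [h.eo0]; exact ha)
          rw [h.t0, h.eo1, ← hb] at hj
          rw [← hi hj]
          exact hj2
        have hcd : P c d = 1 := by
          obtain ⟨j, hj, _, hj2⟩ := pet_pair hM hG hi hS hw k2 (i := c) (by rw [h.eo2]; exact hc)
          rw [h.t2, h.eo3, ← hd] at hj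
          rw [← hi hj]
          exact hj2
        have hanb : a ≠ b := by
          rintro rfl
          rw [P_self] at hab
          omega
        have hwt := pet_weight hM hi hS hw
        have hdist : ¬ ((a = c ∧ b = d) ∨ (a = d ∧ b = c)) := by
          intro hcon
          have h1 := hwt a b
          rw [if_neg hanb] at h1
          have h2 := P_le a b
          rcases hcon with ⟨rfl, rfl⟩ | ⟨rfl, rfl⟩
          · have h3 := card_two_le (E := ({c0, c1, c2, c3} : Finset V))
              (p := fun v => oQ c0 c1 c2 o0 o1 o2 o3 v = π a ∧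
                oQ c0 c1 c2 o0 o1 o2 o3 (tQ c0 c1 c2 c3 v) = π b) k0 k2 h.n02
              ⟨by rw [h.eo0, ha], by rw [h.t0, h.eo1, hb]⟩
              ⟨by rw [h.eo2, hc], by rw [h.t2, h.eo3, hd]⟩
            omega
          · have h3 := card_two_le (E := ({c0, c1, c2, c3} : Finset V))
              (p := fun v => oQ c0 c1 c2 o0 o1 o2 o3 v = π a ∧
                oQ c0 c1 c2 o0 o1 o2 o3 (tQ c0 c1 c2 c3 v) = π b) k0 k3 h.n03
              ⟨by rw [h.eo0, ha], by rw [h.t0, h.eo1, hb]⟩
              ⟨by rw [h.eo3, hd], by rw [h.t3, h.eo2, hc]⟩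
            omega
        obtain ⟨F, g0, g1, g2, g3, hF, G0, G1, G2, G3, hsum⟩ := hC a b c d hab hcd hdist
        obtain ⟨f, hf⟩ := pet_lift hM hG hi hS hw hall F (gQ c0 c1 c2 c3 g0 g1 g2 g3 (fun _ => true))
          (by
            intro i
            refine le_trans (le_of_eq ?_) (hF i)
            congr 1
            · refine Finset.sum_congr rfl (fun j _ => ?_)
              by_cases h1 : F j = F i
              · rw [if_pos h1]
                have h2 := hwt i j
                have h4 := P_le i j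
                by_cases h3 : (i = a ∧ j = b) ∨ (i = b ∧ j = a) ∨ (i = c ∧ j = d) ∨
                    (i = d ∧ j = c)
                · rw [if_neg (fun e => e.2 h3)]
                  have hcd' : c ≠ d := by
                    rintro rfl
                    rw [P_self] at hcd
                    omega
                  have hij : i ≠ j := by
                    rintro rfl
                    rcases h3 with ⟨rfl, e⟩ | ⟨rfl, e⟩ | ⟨rfl, e⟩ | ⟨rfl, e⟩
                    · exact hanb e
                    · exact hanb e.symm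
                    · exact hcd' e
                    · exact hcd' e.symm
                  rw [if_neg hij] at h2
                  have h5 : 0 < (Finset.filter (fun v => oQ c0 c1 c2 o0 o1 o2 o3 v = π i ∧
                      oQ c0 c1 c2 o0 o1 o2 o3 (tQ c0 c1 c2 c3 v) = π j)
                      ({c0, c1, c2, c3} : Finset V)).card := by
                    rw [Finset.card_pos]
                    rcases h3 with ⟨rfl, rfl⟩ | ⟨rfl, rfl⟩ | ⟨rfl, rfl⟩ | ⟨rfl, rfl⟩
                    · exact ⟨c0, Finset.mem_filter.2 ⟨k0, by rw [h.eo0, ha], by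
                        rw [h.t0, h.eo1, hb]⟩⟩
                    · exact ⟨c1, Finset.mem_filter.2 ⟨k1, by rw [h.eo1, hb], by
                        rw [h.t1, h.eo0, ha]⟩⟩
                    · exact ⟨c2, Finset.mem_filter.2 ⟨k2, by rw [h.eo2, hc], by
                        rw [h.t2, h.eo3, hd]⟩⟩
                    · exact ⟨c3, Finset.mem_filter.2 ⟨k3, by rw [h.eo3, hd], by
                        rw [h.t3, h.eo2, hc]⟩⟩
                  omega
                · rw [if_pos ⟨h1, h3⟩]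
                  by_cases hij : i = j
                  · rw [if_pos hij, add_zero] at h2
                    exact h2
                  · rw [if_neg hij] at h2
                    have h5 : (Finset.filter (fun v => oQ c0 c1 c2 o0 o1 o2 o3 v = π i ∧
                        oQ c0 c1 c2 o0 o1 o2 o3 (tQ c0 c1 c2 c3 v) = π j)
                        ({c0, c1, c2, c3} : Finset V)).card = 0 := by
                      rw [Finset.card_eq_zero, Finset.filter_eq_empty_iff]
                      intro v hv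
                      rcases mem_four.1 hv with e | e | e | e <;> subst e
                      · rw [h.eo0, h.t0, h.eo1, ← ha, ← hb]
                        rintro ⟨e1, e2⟩
                        exact h3 (Or.inl ⟨(hi e1).symm, (hi e2).symm⟩)
                      · rw [h.eo1, h.t1, h.eo0, ← ha, ← hb]
                        rintro ⟨e1, e2⟩
                        exact h3 (Or.inr (Or.inl ⟨(hi e1).symm, (hi e2).symm⟩))
                      · rw [h.eo2, h.t2, h.eo3, ← hc, ← hd]
                        rintro ⟨e1, e2⟩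
                        exact h3 (Or.inr (Or.inr (Or.inl ⟨(hi e1).symm, (hi e2).symm⟩)))
                      · rw [h.eo3, h.t3, h.eo2, ← hc, ← hd]
                        rintro ⟨e1, e2⟩
                        exact h3 (Or.inr (Or.inr (Or.inr ⟨(hi e1).symm, (hi e2).symm⟩)))
                    omega
              · rw [if_neg h1, if_neg (fun e => h1 e.1)]
            · rw [Finset.card_filter]
              rw [Finset.sum_insert, Finset.sum_insert, Finset.sum_insert, Finset.sum_singleton]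
              · rw [h.eo0, h.eo1, h.eo2, h.eo3, h.g0, h.g1, h.g2, h.g3, ← ha, ← hb, ← hc, ← hd]
                simp only [hi.eq_iff, eq_comm (b := i)]
                omega
              · rw [Finset.mem_singleton]
                exact h.n23
              · rw [Finset.mem_insert, Finset.mem_singleton]
                rintro (e | e)
                · exact h.n12 e
                · exact h.n13 e
              · rw [Finset.mem_insert, Finset.mem_insert, Finset.mem_singleton]
                rintro (e | e | e)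
                · exact h.n01 e
                · exact h.n02 e
                · exact h.n03 e)
          (by
            intro f hf1 hf2
            refine h.own G0 G1 G2 G3 f ?_ ?_ ?_ ?_ ?_ ?_ ?_ ?_
            · rw [hf2 _ k0, h.g0]
            · rw [hf2 _ k1, h.g1]
            · rw [hf2 _ k2, h.g2]
            · rw [hf2 _ k3, h.g3]
            · rw [← ha, hf1]
            · rw [← hb, hf1]
            · rw [← hc, hf1]
            · rw [← hd, hf1])
          (by
            rw [h.sum, h.g0, h.g1, h.g2, h.g3]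
            exact hsum)
        exact hmin.bad f hf
      · -- only the first pair
        have hD' : ¬ ∃ i, π i = o3 := fun e => hB (e23.2 e)
        have hC' := e01.1 hA
        obtain ⟨a, ha⟩ := hA
        obtain ⟨b, hb⟩ := hC'
        have hR := rp_of_gad hM hG hi hS hw k0 h.t0 (a := a) (b := b) (by rw [h.eo0, ha])
          (by rw [h.eo1, hb]) (by
            intro v hv n0 n1 i
            rcases mem_four.1 hv with e | e | e | e
            · exact absurd e n0
            · exact absurd e n1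
            · rw [e, h.eo2]
              exact fun e' => hB ⟨i, e'⟩
            · rw [e, h.eo3]
              exact fun e' => hD' ⟨i, e'⟩) (by rw [h.b0]; simp)
        refine hR.false hE hmin hm ?_
        rw [ha, hb]
        exact h01
    · -- only the second pair
      have hC' : ¬ ∃ i, π i = o1 := fun e => hA (e01.2 e)
      have hB : ∃ i, π i = o2 := by
        obtain ⟨v, hv, i, hi'⟩ := pet_meets hM hG hcn hne hi hS hw
        rcases mem_four.1 hv with e | e | e | e
        · rw [e, h.eo0] at hi'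
          exact absurd ⟨i, hi'⟩ hA
        · rw [e, h.eo1] at hi'
          exact absurd ⟨i, hi'⟩ hC'
        · rw [e, h.eo2] at hi'
          exact ⟨i, hi'⟩
        · rw [e, h.eo3] at hi'
          exact e23.2 ⟨i, hi'⟩
      have hD' := e23.1 hB
      obtain ⟨c, hc⟩ := hB
      obtain ⟨d, hd⟩ := hD'
      have hR := rp_of_gad hM hG hi hS hw k2 h.t2 (a := c) (b := d) (by rw [h.eo2, hc])
        (by rw [h.eo3, hd]) (by
          intro v hv n2 n3 i
          rcases mem_four.1 hv with e | e | e | e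
          · rw [e, h.eo0]
            exact fun e' => hA ⟨i, e'⟩
          · rw [e, h.eo1]
            exact fun e' => hC' ⟨i, e'⟩
          · exact absurd e n2
          · exact absurd e n3) (by rw [h.b2]; simp)
      refine hR.false hE hmin hm ?_
      rw [hc, hd]
      exact h23
  · obtain ⟨f', hf'⟩ := hmin.step hG hne hm hcomp hP
    obtain ⟨g0, g1, g2, g3, ⟨t1, t2, t3, t4⟩, ⟨t5, t6⟩, G0, G1, G2, G3, hsum⟩ :=
      q4_table (f' o0) (f' o1) (f' o2) (f' o3)
    refine hmin.bad (gQ c0 c1 c2 c3 g0 g1 g2 g3 f') (lift hM hG hf' ?_ ?_ ?_ ?_ ?_)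
    · intro v hv
      exact gQ_out hv _ _ _ _ _
    · intro c hc
      rcases mem_four.1 hc with e | e | e | e <;> subst e
      · rw [h.eo0, h.t0, h.eo1, h.g0, gQ_out h.m0, gQ_out h.m1]
        exact t1
      · rw [h.eo1, h.t1, h.eo0, h.g1, gQ_out h.m0, gQ_out h.m1]
        exact t2
      · rw [h.eo2, h.t2, h.eo3, h.g2, gQ_out h.m2, gQ_out h.m3]
        exact t3
      · rw [h.eo3, h.t3, h.eo2, h.g3, gQ_out h.m2, gQ_out h.m3]
        exact t4
    · intro c hc
      rcases mem_four.1 hc with e | e | e | e <;> subst e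
      · rw [h.eo0, h.t0, h.eo1, h.g0, h.g1, gQ_out h.m0, gQ_out h.m1]
        exact fun e1 e2 => t5 ⟨e1, e2⟩
      · rw [h.eo1, h.t1, h.eo0, h.g0, h.g1, gQ_out h.m0, gQ_out h.m1]
        exact fun e1 e2 => t5 ⟨e2, e1⟩
      · rw [h.eo2, h.t2, h.eo3, h.g2, h.g3, gQ_out h.m2, gQ_out h.m3]
        exact fun e1 e2 => t6 ⟨e1, e2⟩
      · rw [h.eo3, h.t3, h.eo2, h.g2, h.g3, gQ_out h.m2, gQ_out h.m3]
        exact fun e1 e2 => t6 ⟨e2, e1⟩
    · refine h.own G0 G1 G2 G3 _ (h.g0 _ _ _ _ _) (h.g1 _ _ _ _ _) (h.g2 _ _ _ _ _)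
        (h.g3 _ _ _ _ _) (gQ_out h.m0 _ _ _ _ _) (gQ_out h.m1 _ _ _ _ _)
        (gQ_out h.m2 _ _ _ _ _) (gQ_out h.m3 _ _ _ _ _)
    · rw [h.sum, h.g0, h.g1, h.g2, h.g3]
      exact hsum

/-- No chordless four-cycle. -/
theorem Q4.false' (hE : PetE) (hC : PetC) (h : Q4 S w c0 c1 c2 c3 o0 o1 o2 o3)
    (hmin : Min S w) (hcn : Conn S w) : False := by
  have hM := hmin.mg
  obtain ⟨m, hm⟩ := hmin.pm
  obtain ⟨⟨s0, s1, s2, s3⟩, _⟩ := h.mem hM
  have a0 : m c0 = c1 ∨ m c0 = c3 ∨ m c0 = o0 := by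
    have h1 := hm.adj c0 s0
    rw [h.b0] at h1
    by_contra hcon
    push Not at hcon
    rw [if_neg hcon.1, if_neg hcon.2.1, if_neg hcon.2.2] at h1
    exact h1 rfl
  have a1 : m c1 = c0 ∨ m c1 = c2 ∨ m c1 = o1 := by
    have h1 := hm.adj c1 s1
    rw [h.b1] at h1
    by_contra hcon
    push Not at hcon
    rw [if_neg hcon.1, if_neg hcon.2.1, if_neg hcon.2.2] at h1
    exact h1 rfl
  have a2 : m c2 = c1 ∨ m c2 = c3 ∨ m c2 = o2 := by
    have h1 := hm.adj c2 s2
    rw [h.b2] at h1
    by_contra hcon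
    push Not at hcon
    rw [if_neg hcon.1, if_neg hcon.2.1, if_neg hcon.2.2] at h1
    exact h1 rfl
  have a3 : m c3 = c2 ∨ m c3 = c0 ∨ m c3 = o3 := by
    have h1 := hm.adj c3 s3
    rw [h.b3] at h1
    by_contra hcon
    push Not at hcon
    rw [if_neg hcon.1, if_neg hcon.2.1, if_neg hcon.2.2] at h1
    exact h1 rfl
  have i0 := hm.inv c0 s0
  have i1 := hm.inv c1 s1
  have i2 := hm.inv c2 s2
  have i3 := hm.inv c3 s3
  have m0 := not_mem_four.1 h.m0
  have m1 := not_mem_four.1 h.m1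
  have m2 := not_mem_four.1 h.m2
  have m3 := not_mem_four.1 h.m3
  -- pairs of cycle edges
  have p01 : m c0 = c1 ↔ m c1 = c0 := by
    constructor
    · intro e
      rw [← e, i0]
    · intro e
      rw [← e, i1]
  have p12 : m c1 = c2 ↔ m c2 = c1 := by
    constructor
    · intro e
      rw [← e, i1]
    · intro e
      rw [← e, i2]
  have p23 : m c2 = c3 ↔ m c3 = c2 := by
    constructor
    · intro e
      rw [← e, i2]
    · intro e
      rw [← e, i3]
  have p30 : m c3 = c0 ↔ m c0 = c3 := by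
    constructor
    · intro e
      rw [← e, i3]
    · intro e
      rw [← e, i0]
  have n01 := h.n01
  have n02 := h.n02
  have n03 := h.n03
  have n12 := h.n12
  have n13 := h.n13
  have n23 := h.n23
  -- matched outside or not, as propositions
  have q0 : m c0 = o0 ↔ ¬ (m c0 = c1 ∨ m c0 = c3) := by
    constructor
    · rintro e (e' | e')
      · exact m0.2.1 (e.symm.trans e')
      · exact m0.2.2.2 (e.symm.trans e')
    · intro e
      rcases a0 with e' | e' | e'
      · exact absurd (Or.inl e') e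
      · exact absurd (Or.inr e') e
      · exact e'
  have q1 : m c1 = o1 ↔ ¬ (m c1 = c0 ∨ m c1 = c2) := by
    constructor
    · rintro e (e' | e')
      · exact m1.1 (e.symm.trans e')
      · exact m1.2.2.1 (e.symm.trans e')
    · intro e
      rcases a1 with e' | e' | e'
      · exact absurd (Or.inl e') e
      · exact absurd (Or.inr e') e
      · exact e'
  have q2 : m c2 = o2 ↔ ¬ (m c2 = c1 ∨ m c2 = c3) := by
    constructor
    · rintro e (e' | e')
      · exact m2.2.1 (e.symm.trans e')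
      · exact m2.2.2.2 (e.symm.trans e')
    · intro e
      rcases a2 with e' | e' | e'
      · exact absurd (Or.inl e') e
      · exact absurd (Or.inr e') e
      · exact e'
  have q3 : m c3 = o3 ↔ ¬ (m c3 = c2 ∨ m c3 = c0) := by
    constructor
    · rintro e (e' | e')
      · exact m3.2.2.1 (e.symm.trans e')
      · exact m3.1 (e.symm.trans e')
    · intro e
      rcases a3 with e' | e' | e'
      · exact absurd (Or.inl e') e
      · exact absurd (Or.inr e') e
      · exact e'
  have x0 : ¬ (m c0 = c1 ∧ m c0 = c3) := fun e => n13 (e.1.symm.trans e.2)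
  have x1 : ¬ (m c1 = c0 ∧ m c1 = c2) := fun e => n02 (e.1.symm.trans e.2)
  have x2 : ¬ (m c2 = c1 ∧ m c2 = c3) := fun e => n13 (e.1.symm.trans e.2)
  have x3 : ¬ (m c3 = c2 ∧ m c3 = c0) := fun e => n02 (e.2.symm.trans e.1)
  have hfin := four_aux (m c0 = c1) (m c1 = c2) (m c2 = c3) (m c3 = c0) (m c0 = o0) (m c1 = o1)
    (m c2 = o2) (m c3 = o3)
    (by rw [q0, ← p30]) (by rw [q1, ← p01]) (by rw [q2, ← p12])
    (by rw [q3, ← p23]) (by rw [p30]; exact x0) (by rw [p01]; exact x1) (by rw [p12]; exact x2)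
    (by rw [p23]; exact x3)
  rcases hfin with hB | hB
  · exact h.false hE hC hmin hcn hm hB.1 hB.2
  · exact h.rot.false hE hC hmin hcn hm hB.1 hB.2

end

end Pool.Agent.BLN.Red
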