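import Pool.Agent.BLN.Red.Four

set_option autoImplicit false
set_option linter.unusedSectionVars false

/-!
Four-cycles with their outer neighbours.
-/

namespace Pool.Agent.BLN.Red

open Finset

variable {V : Type} [Fintype V] [DecidableEq V]
variable {S : Finset V} {w : V → V → ℕ}

theorem third_nb (hM : Mg S w) (hs : ∀ u v, w u v ≤ 1) {v a b : V} (ha : w v a ≠ 0)
    (hb : w v b ≠ 0) (hab : a ≠ b) : ∃ x, (∀ u, w v u = (if u = a then 1 else 0)
      + (if u = b then 1 else 0) + (if u = x then 1 else 0)) ∧ w v x = 1 ∧ x ≠ a ∧ x ≠ b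
      ∧ x ≠ v := by
  have hv : v ∈ S := hM.supp v a ha
  have h1 := hs v a
  have h2 := hs v b
  have h3 : dg w v = 3 := by
    rcases hM.deg v hv with h4 | h4
    · exfalso
      have h5 : ∑ u ∈ ({a, b} : Finset V), w v u ≤ dg w v :=
        Finset.sum_le_sum_of_subset (Finset.subset_univ _)
      rw [Finset.sum_pair hab] at h5
      omega
    · exact h4
  obtain ⟨x, hx⟩ := exists_third h3 (fun u => (if u = a then 1 else 0) + (if u = b then 1 else 0))
    (by
      intro y
      show (if y = a then 1 else 0) + (if y = b then 1 else 0) ≤ w v y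
      by_cases hya : y = a
      · by_cases hyb : y = b
        · exact absurd (hya.symm.trans hyb) hab
        · rw [if_pos hya, if_neg hyb, hya]
          omega
      · by_cases hyb : y = b
        · rw [if_neg hya, if_pos hyb, hyb]
          omega
        · rw [if_neg hya, if_neg hyb]
          omega)
    (by
      rw [Finset.sum_add_distrib, Finset.sum_ite_eq', Finset.sum_ite_eq',
        if_pos (Finset.mem_univ _), if_pos (Finset.mem_univ _)])
  have hxa : x ≠ a := by
    rintro rfl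
    have h4 := hx x
    rw [if_pos rfl] at h4
    split_ifs at h4 <;> omega
  have hxb : x ≠ b := by
    rintro rfl
    have h4 := hx x
    rw [if_pos rfl] at h4
    split_ifs at h4 <;> omega
  have hwx : w v x = 1 := by
    rw [hx x, if_neg hxa, if_neg hxb, if_pos rfl]
  refine ⟨x, hx, hwx, hxa, hxb, ?_⟩
  rintro rfl
  rw [hM.loop] at hwx
  omega

/-- No four-cycle in a minimal counterexample. -/
theorem noC4_aux (hE : PetE) (hC : PetC) (hmin : Min S w) (hcn : Conn S w)
    (hs : ∀ u v, w u v ≤ 1)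
    (hd : ∀ u a b v, u ≠ v → w u a ≠ 0 → w u b ≠ 0 → w v a ≠ 0 → w v b ≠ 0 → w a b ≠ 0 → False)
    {a b c d : V} (hac : a ≠ c) (hbd : b ≠ d) (h1 : w a b ≠ 0) (h2 : w b c ≠ 0)
    (h3 : w c d ≠ 0) (h4 : w d a ≠ 0) : False := by
  have hM := hmin.mg
  have h1' : w b a ≠ 0 := by rw [hM.symm]; exact h1
  have h2' : w c b ≠ 0 := by rw [hM.symm]; exact h2
  have h3' : w d c ≠ 0 := by rw [hM.symm]; exact h3
  have h4' : w a d ≠ 0 := by rw [hM.symm]; exact h4
  have kac : w a c = 0 := by
    by_contra h5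
    exact hd b a c d hbd h1' h2 h4 h3' h5
  have kbd : w b d = 0 := by
    by_contra h5
    exact hd a b d c hac h1 h4' h2' h3 h5
  have kca : w c a = 0 := by rw [hM.symm]; exact kac
  have kdb : w d b = 0 := by rw [hM.symm]; exact kbd
  obtain ⟨o0, b0, w0, x0, y0, z0⟩ := third_nb hM hs h1 h4' hbd
  obtain ⟨o1, b1, w1, x1, y1, z1⟩ := third_nb hM hs h1' h2 hac
  obtain ⟨o2, b2, w2, x2, y2, z2⟩ := third_nb hM hs h2' h3 hbd
  obtain ⟨o3, b3, w3, x3, y3, z3⟩ := third_nb hM hs h3' h4 hac.symm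
  have hQ : Q4 S w a b c d o0 o1 o2 o3 := by
    refine ⟨hM.ne h1, hac, hM.ne h4', hM.ne h2, hbd, hM.ne h3, b0, b1, b2, b3, ?_, ?_, ?_, ?_⟩
    · refine not_mem_four.2 ⟨z0, x0, ?_, y0⟩
      rintro rfl
      omega
    · refine not_mem_four.2 ⟨x1, z1, y1, ?_⟩
      rintro rfl
      omega
    · refine not_mem_four.2 ⟨?_, x2, z2, y2⟩
      rintro rfl
      omega
    · refine not_mem_four.2 ⟨y3, ?_, x3, z3⟩
      rintro rfl
      omega
  exact hQ.false' hE hC hmin hcn

end Pool.Agent.BLN.Red
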