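import Pool.Agent.BLN.Red.Defs

set_option autoImplicit false
set_option linter.unusedSectionVars false

/-!
Removal of a piece `C`. Each exit `c` in `E` has exactly one neighbour `out c` outside `C`; the
involution `τ` pairs the exits, and the pair `c, τ c` is replaced by the edge from `out c` to
`out (τ c)`, or by nothing if these two vertices are equal.
-/

namespace Pool.Agent.BLN.Red

open Finset

variable {V : Type} [Fintype V] [DecidableEq V]

/-- A piece `C` with exits `E`, paired by `τ`. -/
structure Gad (S : Finset V) (w : V → V → ℕ) (C E : Finset V) (out τ : V → V) : Prop where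
  CS : C ⊆ S
  EC : E ⊆ C
  outS : ∀ c ∈ E, out c ∈ S ∧ out c ∉ C
  cross : ∀ v ∈ S, v ∉ C → ∀ c ∈ C, w v c = if c ∈ E ∧ out c = v then 1 else 0
  tE : ∀ c ∈ E, τ c ∈ E
  tt : ∀ c ∈ E, τ (τ c) = c
  tne : ∀ c ∈ E, τ c ≠ c

/-- The new multigraph. -/
def nw (w : V → V → ℕ) (C E : Finset V) (out τ : V → V) (u v : V) : ℕ :=
  if u ∉ C ∧ v ∉ C ∧ u ≠ v then
    w u v + (E.filter (fun c => out c = u ∧ out (τ c) = v)).card else 0

variable {S : Finset V} {w : V → V → ℕ} {C E : Finset V} {out τ : V → V}

omit [Fintype V] in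
theorem nw_loop (v : V) : nw w C E out τ v v = 0 := by
  unfold nw
  rw [if_neg]
  rintro ⟨_, _, h⟩
  exact h rfl

theorem Gad.card_symm (h : Gad S w C E out τ) (u v : V) :
    (E.filter (fun c => out c = u ∧ out (τ c) = v)).card
      = (E.filter (fun c => out c = v ∧ out (τ c) = u)).card := by
  refine Finset.card_bij (fun c _ => τ c) ?_ ?_ ?_
  · intro c hc
    rw [Finset.mem_filter] at hc ⊢
    refine ⟨h.tE c hc.1, hc.2.2, ?_⟩
    rw [h.tt c hc.1]
    exact hc.2.1
  · intro c hc d hd hcd
    rw [Finset.mem_filter] at hc hd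
    have h1 : τ (τ c) = τ (τ d) := by rw [show τ c = τ d from hcd]
    rwa [h.tt c hc.1, h.tt d hd.1] at h1
  · intro c hc
    rw [Finset.mem_filter] at hc
    refine ⟨τ c, ?_, h.tt c hc.1⟩
    rw [Finset.mem_filter]
    refine ⟨h.tE c hc.1, hc.2.2, ?_⟩
    rw [h.tt c hc.1]
    exact hc.2.1

theorem nw_symm (hM : Mg S w) (h : Gad S w C E out τ) (u v : V) :
    nw w C E out τ u v = nw w C E out τ v u := by
  unfold nw
  by_cases h1 : u ∉ C ∧ v ∉ C ∧ u ≠ v
  · rw [if_pos h1, if_pos ⟨h1.2.1, h1.1, h1.2.2.symm⟩, hM.symm, h.card_symm]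
  · rw [if_neg h1, if_neg]
    rintro ⟨a, b, c⟩
    exact h1 ⟨b, a, c.symm⟩

theorem nw_supp (hM : Mg S w) (h : Gad S w C E out τ) (u v : V)
    (huv : nw w C E out τ u v ≠ 0) : u ∈ S \ C := by
  unfold nw at huv
  by_cases h1 : u ∉ C ∧ v ∉ C ∧ u ≠ v
  · rw [if_pos h1] at huv
    rw [Finset.mem_sdiff]
    refine ⟨?_, h1.1⟩
    by_cases h2 : w u v = 0
    · rw [h2, zero_add] at huv
      obtain ⟨c, hc⟩ := Finset.card_pos.1 (Nat.pos_of_ne_zero huv)
      rw [Finset.mem_filter] at hc
      rw [← hc.2.1]
      exact (h.outS c hc.1).1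
    · exact hM.supp u v h2
  · rw [if_neg h1] at huv
    exact absurd rfl huv

theorem le_nw {u v : V} (hu : u ∉ C) (hv : v ∉ C) (huv : u ≠ v) :
    w u v ≤ nw w C E out τ u v := by
  unfold nw
  rw [if_pos ⟨hu, hv, huv⟩]
  exact Nat.le_add_right _ _

theorem nw_new {u v : V} (hu : u ∉ C) (hv : v ∉ C) (huv : u ≠ v) {c : V} (hc : c ∈ E)
    (h1 : out c = u) (h2 : out (τ c) = v) : nw w C E out τ u v ≠ 0 := by
  unfold nw
  rw [if_pos ⟨hu, hv, huv⟩]
  have h3 : 0 < (E.filter (fun c => out c = u ∧ out (τ c) = v)).card :=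
    Finset.card_pos.2 ⟨c, Finset.mem_filter.2 ⟨hc, h1, h2⟩⟩
  omega

/-- Sum of the new weights over the vertices with property `p`. -/
theorem sum_nw (hM : Mg S w) (h : Gad S w C E out τ) {u : V} (hu' : u ∉ C)
    (p : V → Prop) [DecidablePred p] :
    (∑ v, if p v then nw w C E out τ u v else 0)
      = (∑ v, if v ∉ C ∧ p v then w u v else 0)
        + (E.filter (fun c => out c = u ∧ out (τ c) ≠ u ∧ p (out (τ c)))).card := by
  have h1 : (E.filter (fun c => out c = u ∧ out (τ c) ≠ u ∧ p (out (τ c)))).card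
      = ∑ v, if v ∉ C ∧ p v ∧ u ≠ v then
          (E.filter (fun c => out c = u ∧ out (τ c) = v)).card else 0 := by
    rw [← Finset.sum_filter]
    rw [Finset.card_eq_sum_card_fiberwise (f := fun c => out (τ c))
      (t := Finset.univ.filter (fun v => v ∉ C ∧ p v ∧ u ≠ v))]
    · refine Finset.sum_congr rfl (fun v hv => ?_)
      rw [Finset.mem_filter] at hv
      congr 1
      ext c
      simp only [Finset.mem_filter]
      constructor
      · rintro ⟨⟨a, b, _, _⟩, e⟩
        exact ⟨a, b, e⟩
      · rintro ⟨a, b, e⟩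
        refine ⟨⟨a, b, ?_, ?_⟩, e⟩
        · rw [e]
          exact hv.2.2.2.symm
        · rw [e]
          exact hv.2.2.1
    · intro c hc
      have hc' := Finset.mem_filter.1 (Finset.mem_coe.1 hc)
      refine Finset.mem_coe.2 (Finset.mem_filter.2 ⟨Finset.mem_univ _, ?_, hc'.2.2.2, ?_⟩)
      · exact (h.outS _ (h.tE c hc'.1)).2
      · exact fun e => hc'.2.2.1 e.symm
  rw [h1, ← Finset.sum_add_distrib]
  refine Finset.sum_congr rfl (fun v _ => ?_)
  unfold nw
  by_cases h2 : p v
  · rw [if_pos h2]
    by_cases h3 : v ∈ C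
    · rw [if_neg (by tauto), if_neg (by tauto), if_neg (by tauto)]
    · by_cases h4 : u = v
      · subst h4
        rw [if_neg (by tauto), if_pos (by tauto), if_neg (by tauto), hM.loop]
      · rw [if_pos (by tauto), if_pos (by tauto), if_pos (by tauto)]
  · rw [if_neg h2, if_neg (by tauto), if_neg (by tauto)]

/-- Sum of the old weights over the vertices with property `p`. -/
theorem sum_old (h : Gad S w C E out τ) {u : V} (hu : u ∈ S) (hu' : u ∉ C)
    (p : V → Prop) [DecidablePred p] :
    (∑ v, if p v then w u v else 0)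
      = (∑ v, if v ∉ C ∧ p v then w u v else 0)
        + (E.filter (fun c => out c = u ∧ p c)).card := by
  have h1 : (E.filter (fun c => out c = u ∧ p c)).card
      = ∑ v, if v ∈ C ∧ p v then w u v else 0 := by
    rw [Finset.card_filter]
    rw [← Finset.sum_filter (fun v => v ∈ C ∧ p v)]
    have h2 : ∀ v ∈ Finset.univ.filter (fun v => v ∈ C ∧ p v),
        w u v = if v ∈ E ∧ out v = u then 1 else 0 := by
      intro v hv
      rw [Finset.mem_filter] at hv
      exact h.cross u hu hu' v hv.2.1
    rw [Finset.sum_congr rfl h2, Finset.sum_filter, ← Finset.sum_filter_add_sum_filter_not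
      Finset.univ (fun v => v ∈ E)]
    have h3 : ∑ x ∈ Finset.univ.filter (fun v => ¬ v ∈ E),
        (if x ∈ C ∧ p x then (if x ∈ E ∧ out x = u then 1 else 0) else 0) = 0 := by
      refine Finset.sum_eq_zero (fun v hv => ?_)
      rw [Finset.mem_filter] at hv
      rw [if_neg (show ¬ (v ∈ E ∧ out v = u) from fun e => hv.2 e.1)]
      split_ifs <;> rfl
    rw [h3, add_zero]
    have h4 : Finset.univ.filter (fun v => v ∈ E) = E := by
      ext v
      simp
    rw [h4]
    refine Finset.sum_congr rfl (fun v hv => ?_)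
    have hvC := h.EC hv
    by_cases h5 : p v
    · by_cases h6 : out v = u
      · rw [if_pos ⟨h6, h5⟩, if_pos ⟨hvC, h5⟩, if_pos ⟨hv, h6⟩]
      · rw [if_neg (by tauto), if_pos ⟨hvC, h5⟩, if_neg (by tauto)]
    · rw [if_neg (by tauto), if_neg (by tauto)]
  rw [h1, ← Finset.sum_add_distrib]
  refine Finset.sum_congr rfl (fun v _ => ?_)
  by_cases h2 : p v
  · by_cases h3 : v ∈ C
    · rw [if_pos h2, if_neg (by tauto), if_pos (by tauto), zero_add]
    · rw [if_pos h2, if_pos (by tauto), if_neg (by tauto), add_zero]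
  · rw [if_neg h2, if_neg (by tauto), if_neg (by tauto)]

/-- The number of loops that were dropped at `u`, counted twice. -/
def lp (E : Finset V) (out τ : V → V) (u : V) : Finset V :=
  E.filter (fun c => out c = u ∧ out (τ c) = u)

theorem dg_nw (hM : Mg S w) (h : Gad S w C E out τ) {u : V} (hu : u ∈ S) (hu' : u ∉ C) :
    dg (nw w C E out τ) u + (lp E out τ u).card = dg w u := by
  have h1 := sum_nw hM h hu' (fun _ => True)
  have h2 := sum_old h hu hu' (fun _ => True)
  simp only [if_true, and_true] at h1 h2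
  unfold dg
  rw [h1, h2, add_assoc]
  congr 1
  rw [show E.filter (fun c => out c = u) = (E.filter (fun c => out c = u ∧ out (τ c) ≠ u))
    ∪ (lp E out τ u) from ?_, Finset.card_union_of_disjoint]
  · rw [Finset.disjoint_left]
    intro c hc hc'
    unfold lp at hc'
    rw [Finset.mem_filter] at hc hc'
    exact hc.2.2 hc'.2.2
  · ext c
    unfold lp
    simp only [Finset.mem_union, Finset.mem_filter]
    tauto

theorem even_lp (h : Gad S w C E out τ) (u : V) : Even (lp E out τ u).card := by
  refine even_card_of_inv _ τ ?_ ?_ ?_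
  · intro c hc
    unfold lp at hc ⊢
    rw [Finset.mem_filter] at hc ⊢
    refine ⟨h.tE c hc.1, hc.2.2, ?_⟩
    rw [h.tt c hc.1]
    exact hc.2.1
  · intro c hc
    unfold lp at hc
    rw [Finset.mem_filter] at hc
    exact h.tt c hc.1
  · intro c hc
    unfold lp at hc
    rw [Finset.mem_filter] at hc
    exact h.tne c hc.1

/-- The new multigraph is in the class. -/
theorem mg_nw (hM : Mg S w) (h : Gad S w C E out τ) : Mg (S \ C) (nw w C E out τ) := by
  refine ⟨nw_symm hM h, nw_loop, nw_supp hM h, ?_⟩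
  intro v hv
  rw [Finset.mem_sdiff] at hv
  have h1 := dg_nw hM h hv.1 hv.2
  obtain ⟨k, hk⟩ := even_lp h v
  rcases hM.deg v hv.1 with h2 | h2 <;> omega

/-- The new multigraph has a perfect matching. -/
theorem pm_nw (hM : Mg S w) (h : Gad S w C E out τ) {m : V → V} (hm : PM S w m)
    (hc : ∀ c ∈ E, m c = out c → m (τ c) = out (τ c)) :
    PM (S \ C) (nw w C E out τ) (fun v => if m v ∈ C then out (τ (m v)) else m v) := by
  have key : ∀ v ∈ S, v ∉ C → m v ∈ C → m v ∈ E ∧ out (m v) = v ∧
      m (τ (m v)) = out (τ (m v)) ∧ v ≠ out (τ (m v)) := by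
    intro v hv hvC hmv
    have h1 := hm.adj v hv
    rw [h.cross v hv hvC _ hmv] at h1
    have h2 : m v ∈ E ∧ out (m v) = v := by
      by_contra h3
      rw [if_neg h3] at h1
      exact h1 rfl
    have h3 : m (m v) = out (m v) := by rw [hm.inv v hv, h2.2]
    have h4 := hc _ h2.1 h3
    refine ⟨h2.1, h2.2, h4, ?_⟩
    intro h5
    have h6 : τ (m v) ∈ S := h.CS (h.EC (h.tE _ h2.1))
    have h7 := hm.inv _ h6
    rw [h4, ← h5] at h7
    exact h.tne _ h2.1 h7.symm
  constructor
  · intro v hv
    rw [Finset.mem_sdiff] at hv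
    show (if m v ∈ C then out (τ (m v)) else m v) ∈ S \ C
    by_cases h1 : m v ∈ C
    · rw [if_pos h1, Finset.mem_sdiff]
      exact h.outS _ (h.tE _ (key v hv.1 hv.2 h1).1)
    · rw [if_neg h1, Finset.mem_sdiff]
      exact ⟨hm.mem v hv.1, h1⟩
  · intro v hv
    rw [Finset.mem_sdiff] at hv
    show (if m (if m v ∈ C then out (τ (m v)) else m v) ∈ C then
      out (τ (m (if m v ∈ C then out (τ (m v)) else m v))) else
      m (if m v ∈ C then out (τ (m v)) else m v)) = v
    by_cases h1 : m v ∈ C
    · obtain ⟨h2, h3, h4, h5⟩ := key v hv.1 hv.2 h1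
      rw [if_pos h1]
      have h6 : τ (m v) ∈ S := h.CS (h.EC (h.tE _ h2))
      have h7 := hm.inv _ h6
      rw [h4] at h7
      rw [h7, if_pos (h.EC (h.tE _ h2)), h.tt _ h2, h3]
    · rw [if_neg h1, hm.inv v hv.1, if_neg hv.2]
  · intro v hv
    rw [Finset.mem_sdiff] at hv
    show nw w C E out τ v (if m v ∈ C then out (τ (m v)) else m v) ≠ 0
    by_cases h1 : m v ∈ C
    · obtain ⟨h2, h3, h4, h5⟩ := key v hv.1 hv.2 h1
      rw [if_pos h1]
      exact nw_new hv.2 (h.outS _ (h.tE _ h2)).2 h5 h2 h3 rfl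
    · rw [if_neg h1]
      have h2 := hm.adj v hv.1
      have h3 := le_nw (w := w) (E := E) (out := out) (τ := τ) hv.2 h1 (hM.ne h2)
      omega

/-- Extension of a good colouring of the new multigraph to the piece. -/
theorem lift (hM : Mg S w) (h : Gad S w C E out τ) {f' f : V → Bool}
    (hf' : Good (S \ C) (nw w C E out τ) f') (hff : ∀ v, v ∉ C → f v = f' v)
    (h1 : ∀ c ∈ E, f c = f (out c) → f (out (τ c)) = f (out c))
    (h2 : ∀ c ∈ E, f c = f (out c) → f (τ c) ≠ f (out (τ c)))
    (h3 : ∀ c ∈ C, 2 * own w f c < dg w c) (h4 : ∑ c ∈ C, sg (f c) = 0) : Good S w f := by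
  constructor
  · intro u hu
    by_cases huC : u ∈ C
    · exact h3 u huC
    · have h5 := hf'.1 u (Finset.mem_sdiff.2 ⟨hu, huC⟩)
      have h6 := dg_nw hM h hu huC
      have h7 : own (nw w C E out τ) f' u = (∑ v, if v ∉ C ∧ f v = f u then w u v else 0)
          + (E.filter (fun c => out c = u ∧ out (τ c) ≠ u ∧ f (out (τ c)) = f u)).card := by
        have h8 := sum_nw hM h huC (fun v => f v = f u)
        rw [← h8]
        unfold own
        refine Finset.sum_congr rfl (fun v _ => ?_)
        by_cases hv : v ∈ C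
        · have h9 : nw w C E out τ u v = 0 := by
            unfold nw
            rw [if_neg]
            rintro ⟨_, a, _⟩
            exact a hv
          rw [h9]
          split_ifs <;> rfl
        · rw [hff v hv, hff u huC]
      have h8 : own w f u = (∑ v, if v ∉ C ∧ f v = f u then w u v else 0)
          + (E.filter (fun c => out c = u ∧ f c = f u)).card :=
        sum_old h hu huC (fun v => f v = f u)
      have h9 : (E.filter (fun c => out c = u ∧ f c = f u)).card
          ≤ (E.filter (fun c => out c = u ∧ out (τ c) ≠ u ∧ f (out (τ c)) = f u)).card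
            + ((lp E out τ u).filter (fun c => f c = f u)).card := by
        refine le_trans (Finset.card_le_card ?_) (Finset.card_union_le _ _)
        intro c hc
        rw [Finset.mem_filter] at hc
        rw [Finset.mem_union, Finset.mem_filter, Finset.mem_filter]
        by_cases h10 : out (τ c) = u
        · right
          unfold lp
          rw [Finset.mem_filter]
          exact ⟨⟨hc.1, hc.2.1, h10⟩, hc.2.2⟩
        · left
          refine ⟨hc.1, hc.2.1, h10, ?_⟩
          have h11 := h1 c hc.1 (by rw [hc.2.1]; exact hc.2.2)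
          rw [h11, hc.2.1]
      have h10 : ((lp E out τ u).filter (fun c => f c = f u)).card
          ≤ ((lp E out τ u).filter (fun c => ¬ f c = f u)).card := by
        refine Finset.card_le_card_of_injOn τ ?_ ?_
        · intro c hc
          have hc' := Finset.mem_filter.1 (Finset.mem_coe.1 hc)
          have hc2 := hc'.1
          unfold lp at hc2
          rw [Finset.mem_filter] at hc2
          refine Finset.mem_coe.2 (Finset.mem_filter.2 ⟨?_, ?_⟩)
          · unfold lp
            rw [Finset.mem_filter]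
            refine ⟨h.tE c hc2.1, hc2.2.2, ?_⟩
            rw [h.tt c hc2.1]
            exact hc2.2.1
          · have h11 := h2 c hc2.1 (by rw [hc2.2.1]; exact hc'.2)
            rw [hc2.2.2] at h11
            exact h11
        · intro c hc d hd hcd
          have hc' := Finset.mem_filter.1 (Finset.mem_coe.1 hc)
          have hd' := Finset.mem_filter.1 (Finset.mem_coe.1 hd)
          have hc2 := hc'.1
          have hd2 := hd'.1
          unfold lp at hc2 hd2
          rw [Finset.mem_filter] at hc2 hd2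
          have h12 : τ (τ c) = τ (τ d) := by rw [hcd]
          rwa [h.tt c hc2.1, h.tt d hd2.1] at h12
      have h11 := Finset.card_filter_add_card_filter_not (s := lp E out τ u) (fun c => f c = f u)
      omega
  · have h5 : ∑ v ∈ S, sg (f v) = ∑ v ∈ S \ C, sg (f v) + ∑ v ∈ C, sg (f v) :=
      (Finset.sum_sdiff h.CS).symm
    have h6 : ∑ v ∈ S \ C, sg (f v) = ∑ v ∈ S \ C, sg (f' v) := by
      refine Finset.sum_congr rfl (fun v hv => ?_)
      rw [Finset.mem_sdiff] at hv
      rw [hff v hv.2]
    rw [h5, h6, h4, hf'.2, add_zero]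

end Pool.Agent.BLN.Red
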