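import Pool.Agent.BLN.Red.Defs

set_option autoImplicit false

/-!
The Petersen graph on `Fin 10`.
-/

namespace Pool.Agent.BLN.Red

open Finset

/-- The adjacency matrix of the Petersen graph. -/
def P (i j : Fin 10) : ℕ :=
  if (i.1 < 5 ∧ j.1 < 5 ∧ ((i.1 + 1) % 5 = j.1 ∨ (j.1 + 1) % 5 = i.1)) ∨
    (i.1 + 5 = j.1 ∨ j.1 + 5 = i.1) ∨
    (5 ≤ i.1 ∧ 5 ≤ j.1 ∧ ((i.1 + 2) % 5 = j.1 % 5 ∨ (j.1 + 2) % 5 = i.1 % 5)) then 1 else 0

theorem P_symm : ∀ i j : Fin 10, P i j = P j i := by decide +kernel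

theorem P_self : ∀ i : Fin 10, P i i = 0 := by decide +kernel

theorem P_le : ∀ i j : Fin 10, P i j ≤ 1 := by decide +kernel

theorem P_sum : ∀ i : Fin 10, ∑ j, P i j = 3 := by decide +kernel

/-- The numbering of the two-element subsets of `Fin 5`. -/
def eFun (i : Fin 10) : Finset (Fin 5) :=
  match i with
  | 0 => {0, 1}
  | 1 => {2, 3}
  | 2 => {4, 0}
  | 3 => {1, 2}
  | 4 => {3, 4}
  | 5 => {2, 4}
  | 6 => {1, 4}
  | 7 => {1, 3}
  | 8 => {0, 3}
  | 9 => {0, 2}

theorem eFun_card : ∀ i : Fin 10, (eFun i).card = 2 := by decide +kernel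

theorem eFun_disj : ∀ i j : Fin 10, P i j = 1 ↔ Disjoint (eFun i) (eFun j) := by decide +kernel

theorem eFun_inj : ∀ i j : Fin 10, eFun i = eFun j → i = j := by decide +kernel

/-- The numbering of the vertices of the Kneser form. -/
noncomputable def eEquiv : Fin 10 ≃ {s : Finset (Fin 5) // s.card = 2} :=
  Equiv.ofBijective (fun i => ⟨eFun i, eFun_card i⟩) (by
    rw [Fintype.bijective_iff_injective_and_card]
    refine ⟨fun i j h => eFun_inj i j (congrArg Subtype.val h), ?_⟩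
    rw [Fintype.card_fin, Fintype.card_finset_len, Fintype.card_fin]
    decide)

theorem eEquiv_apply (i : Fin 10) : (eEquiv i).1 = eFun i := rfl

variable {V : Type} [Fintype V] [DecidableEq V]

/-- There is a Petersen component. -/
def Pet (S : Finset V) (w : V → V → ℕ) : Prop :=
  ∃ π : Fin 10 → V, Function.Injective π ∧ (∀ i, π i ∈ S) ∧ ∀ i j, w (π i) (π j) = P i j

omit [DecidableEq V] in
/-- A copy of the Petersen graph is closed. -/
theorem pet_closed {S : Finset V} {w : V → V → ℕ} (hd : ∀ v ∈ S, dg w v ≤ 3) {π : Fin 10 → V}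
    (hi : Function.Injective π) (hS : ∀ i, π i ∈ S) (hw : ∀ i j, w (π i) (π j) = P i j)
    (i : Fin 10) (v : V) (hv : w (π i) v ≠ 0) : ∃ j, π j = v := by
  classical
  by_contra hcon
  push Not at hcon
  have h1 : ∑ j, w (π i) (π j) = 3 := by
    rw [← P_sum i]
    exact Finset.sum_congr rfl (fun j _ => hw i j)
  have h2 : ∑ j, w (π i) (π j) = ∑ u ∈ Finset.univ.image π, w (π i) u := by
    rw [Finset.sum_image (fun a _ b _ h => hi h)]
  have h3 : ∑ u ∈ insert v (Finset.univ.image π), w (π i) u ≤ dg w (π i) :=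
    Finset.sum_le_sum_of_subset (Finset.subset_univ _)
  rw [Finset.sum_insert] at h3
  · have h4 := hd _ (hS i)
    omega
  · rw [Finset.mem_image]
    rintro ⟨j, _, hj⟩
    exact hcon j hj

omit [DecidableEq V] in
theorem pet_dg {S : Finset V} {w : V → V → ℕ} (hd : ∀ v ∈ S, dg w v ≤ 3) {π : Fin 10 → V}
    (hi : Function.Injective π) (hS : ∀ i, π i ∈ S) (hw : ∀ i j, w (π i) (π j) = P i j)
    (i : Fin 10) : dg w (π i) = 3 := by
  classical
  have h1 : ∑ j, w (π i) (π j) = 3 := by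
    rw [← P_sum i]
    exact Finset.sum_congr rfl (fun j _ => hw i j)
  have h2 : ∑ j, w (π i) (π j) = ∑ u ∈ Finset.univ.image π, w (π i) u := by
    rw [Finset.sum_image (fun a _ b _ h => hi h)]
  have h3 : ∑ u ∈ Finset.univ.image π, w (π i) u ≤ dg w (π i) :=
    Finset.sum_le_sum_of_subset (Finset.subset_univ _)
  have h4 := hd _ (hS i)
  omega

end Pool.Agent.BLN.Red
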