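import Pool.Agent.BLN.Red.Gadget
import Pool.Agent.BLN.Red.PetDef

set_option autoImplicit false
set_option linter.unusedSectionVars false

/-!
Minimal counterexamples, and what happens when a gadget is removed from one.
-/

namespace Pool.Agent.BLN.Red

open Finset

variable {V : Type} [Fintype V] [DecidableEq V]

/-- A minimal counterexample. -/
structure Min (S : Finset V) (w : V → V → ℕ) : Prop where
  mg : Mg S w
  pm : ∃ m, PM S w m
  nopet : ¬ Pet S w
  bad : ∀ f, ¬ Good S w f
  min : ∀ (S' : Finset V) (w' : V → V → ℕ), S'.card < S.card → Mg S' w' →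
    (∃ m, PM S' w' m) → ¬ Pet S' w' → ∃ f, Good S' w' f

/-- Restriction of the multigraph to the set `X`. -/
def rw (w : V → V → ℕ) (X : Finset V) (u v : V) : ℕ := if u ∈ X ∧ v ∈ X then w u v else 0

/-- Connectedness, stated with closed sets. -/
def Conn (S : Finset V) (w : V → V → ℕ) : Prop :=
  ∀ T : Finset V, T ⊆ S → T.Nonempty → (∀ u ∈ T, ∀ v, w u v ≠ 0 → v ∈ T) → T = S

variable {S : Finset V} {w : V → V → ℕ} {C E : Finset V} {out τ : V → V}

/-- If the new multigraph has no Petersen component, it has a good colouring. -/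
theorem Min.step (h : Min S w) (hG : Gad S w C E out τ) (hC : C.Nonempty) {m : V → V}
    (hm : PM S w m) (hc : ∀ c ∈ E, m c = out c → m (τ c) = out (τ c))
    (hP : ¬ Pet (S \ C) (nw w C E out τ)) : ∃ f, Good (S \ C) (nw w C E out τ) f := by
  refine h.min _ _ ?_ (mg_nw h.mg hG) ⟨_, pm_nw h.mg hG hm hc⟩ hP
  refine Finset.card_lt_card ?_
  rw [Finset.ssubset_iff_subset_ne]
  refine ⟨Finset.sdiff_subset, fun he => ?_⟩
  obtain ⟨c, hc⟩ := hC
  have h1 : c ∈ S \ C := by
    rw [he]
    exact hG.CS hc
  exact (Finset.mem_sdiff.1 h1).2 hc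

/-- A Petersen component of the new multigraph which contains `out c` contains `out (τ c)`. -/
theorem pet_pair (hM : Mg S w) (hG : Gad S w C E out τ) {π : Fin 10 → V}
    (hi : Function.Injective π) (hS : ∀ i, π i ∈ S \ C)
    (hw : ∀ i j, nw w C E out τ (π i) (π j) = P i j) {c : V} (hc : c ∈ E) {i : Fin 10}
    (hci : π i = out c) : ∃ j, π j = out (τ c) ∧ j ≠ i ∧ P i j = 1 := by
  have hN := mg_nw hM hG
  have h1 := pet_dg (fun v hv => hN.deg_le hv) hi hS hw i
  have h2 := hS i
  rw [Finset.mem_sdiff] at h2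
  have h3 := dg_nw hM hG h2.1 h2.2
  have h4 := hM.deg_le h2.1
  have h5 : out (τ c) ≠ out c := by
    intro h6
    have h7 : 0 < (lp E out τ (π i)).card := by
      refine Finset.card_pos.2 ⟨c, ?_⟩
      unfold lp
      rw [Finset.mem_filter]
      exact ⟨hc, hci.symm, h6.trans hci.symm⟩
    omega
  have h6 : nw w C E out τ (π i) (out (τ c)) ≠ 0 :=
    nw_new h2.2 (hG.outS _ (hG.tE c hc)).2 (by rw [hci]; exact h5.symm) hc hci.symm rfl
  obtain ⟨j, hj⟩ := pet_closed (fun v hv => hN.deg_le hv) hi hS hw i _ h6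
  refine ⟨j, hj, ?_, ?_⟩
  · rintro rfl
    exact h5 (hj.symm.trans hci)
  · rw [← hj, hw i j] at h6
    have := P_le i j
    omega

/-- A Petersen component of the new multigraph contains some `out c`. -/
theorem pet_meets (hM : Mg S w) (hG : Gad S w C E out τ) (hcn : Conn S w) (hC : C.Nonempty)
    {π : Fin 10 → V} (hi : Function.Injective π) (hS : ∀ i, π i ∈ S \ C)
    (hw : ∀ i j, nw w C E out τ (π i) (π j) = P i j) : ∃ c ∈ E, ∃ i, π i = out c := by
  by_contra hcon
  push Not at hcon
  have hN := mg_nw hM hG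
  have h1 : Finset.univ.image π = S := by
    refine hcn _ ?_ ⟨π 0, Finset.mem_image_of_mem _ (Finset.mem_univ _)⟩ ?_
    · intro v hv
      obtain ⟨i, _, rfl⟩ := Finset.mem_image.1 hv
      exact (Finset.mem_sdiff.1 (hS i)).1
    · intro u hu v huv
      obtain ⟨i, _, rfl⟩ := Finset.mem_image.1 hu
      have h2 := Finset.mem_sdiff.1 (hS i)
      have h3 := hM.supp' huv
      have h4 : v ∉ C := by
        intro h5
        rw [hG.cross _ h2.1 h2.2 v h5] at huv
        by_cases h6 : v ∈ E ∧ out v = π i
        · exact hcon v h6.1 i h6.2.symm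
        · rw [if_neg h6] at huv
          exact huv rfl
      have h5 := le_nw (w := w) (E := E) (out := out) (τ := τ) h2.2 h4 (hM.ne huv)
      obtain ⟨j, hj⟩ := pet_closed (fun v hv => hN.deg_le hv) hi hS hw i v (by omega)
      rw [← hj]
      exact Finset.mem_image_of_mem _ (Finset.mem_univ _)
  obtain ⟨c, hc⟩ := hC
  have h2 := hG.CS hc
  rw [← h1] at h2
  obtain ⟨i, _, hi'⟩ := Finset.mem_image.1 h2
  have h3 := Finset.mem_sdiff.1 (hS i)
  rw [hi'] at h3
  exact h3.2 hc

/-- If a Petersen component of the new multigraph contains all `out c`, then there is nothing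
else. -/
theorem pet_all (hM : Mg S w) (hG : Gad S w C E out τ) (hcn : Conn S w) (hC : C.Nonempty)
    {π : Fin 10 → V} (hi : Function.Injective π) (hS : ∀ i, π i ∈ S \ C)
    (hw : ∀ i j, nw w C E out τ (π i) (π j) = P i j) (hall : ∀ c ∈ E, ∃ i, π i = out c) :
    ∀ v ∈ S, v ∉ C → ∃ i, π i = v := by
  have hN := mg_nw hM hG
  have h1 : C ∪ Finset.univ.image π = S := by
    refine hcn _ ?_ ?_ ?_
    · intro v hv
      rcases Finset.mem_union.1 hv with h | h
      · exact hG.CS h
      · obtain ⟨i, _, rfl⟩ := Finset.mem_image.1 h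
        exact (Finset.mem_sdiff.1 (hS i)).1
    · exact hC.mono Finset.subset_union_left
    · intro u hu v huv
      have h3 := hM.supp' huv
      by_cases h4 : v ∈ C
      · exact Finset.mem_union_left _ h4
      · refine Finset.mem_union_right _ ?_
        rcases Finset.mem_union.1 hu with h | h
        · rw [hM.symm, hG.cross v h3 h4 u h] at huv
          by_cases h6 : u ∈ E ∧ out u = v
          · obtain ⟨i, hi'⟩ := hall u h6.1
            rw [← h6.2, ← hi']
            exact Finset.mem_image_of_mem _ (Finset.mem_univ _)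
          · rw [if_neg h6] at huv
            exact absurd rfl huv
        · obtain ⟨i, _, rfl⟩ := Finset.mem_image.1 h
          have h2 := Finset.mem_sdiff.1 (hS i)
          have h5 := le_nw (w := w) (E := E) (out := out) (τ := τ) h2.2 h4 (hM.ne huv)
          obtain ⟨j, hj⟩ := pet_closed (fun v hv => hN.deg_le hv) hi hS hw i v (by omega)
          rw [← hj]
          exact Finset.mem_image_of_mem _ (Finset.mem_univ _)
  intro v hv hvC
  rw [← h1] at hv
  rcases Finset.mem_union.1 hv with h | h
  · exact absurd h hvC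
  · obtain ⟨i, _, hi'⟩ := Finset.mem_image.1 h
    exact ⟨i, hi'⟩

end Pool.Agent.BLN.Red
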