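import Pool.Agent.BLN.Red.Repl

set_option autoImplicit false
set_option maxRecDepth 100000

/-!
The states of the Petersen graph without an edge that are needed for the replacement.
-/

namespace Pool.Agent.BLN.Red

open Finset

/-- Witness for the Petersen graph without an edge. -/
def wtO (a b : Fin 10) : ℕ :=
  (0xaaa6a0023a000000000000000001d26c8006680000000b2400000003a400000cd000009d1740000000000000001d800001743d0000000000000000759d00000000000001f00000075001c900000000d9000cd00000000003d000000001f0001d80000000001d200000001960019300000000003a4d90000032c00 >>> (10 * (10 * a.val + b.val))) % 1024

theorem petE_holds : PetE := by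
  intro a b hab u
  refine ⟨fun i => (Nat.testBit (wtO a b) i.val) == u, ?_⟩
  revert a b u
  decide +kernel

end Pool.Agent.BLN.Red
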