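import Pool.Agent.BLN.Red.Two
import Pool.Agent.BLN.Red.PetLift

set_option autoImplicit false
set_option linter.unusedSectionVars false
set_option maxRecDepth 100000

/-!
The Petersen case for double edges and diamonds; a minimal counterexample is simple and has no
diamond.
-/

namespace Pool.Agent.BLN.Red

open Finset

/-- The Petersen graph without the edge `ab`. -/
def Pe (a b i j : Fin 10) : ℕ := if (i = a ∧ j = b) ∨ (i = b ∧ j = a) then 0 else P i j

/-- Witness for the double edge. -/
def wtD (a b : Fin 10) : ℕ :=
  (0x11b4536000046d00000000000000000000000005d213540001354000000000011e8000000000013a4000000047a000000012e84ba00000000000000000000011d800000004da13d000000000000000000000047513a80000000000000000011f0000000047500004f2000000000004d900004cd0000000000000013d0000000000011f000011d8000000000000005d2000000000004f800004f80000000000000013a44d90000000132c000 >>> (14 * (10 * a.val + b.val))) % 16384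

/-- Witness for the diamond. -/
def wtE (a b : Fin 10) : ℕ :=
  (0x6aa9a6a0001a3a000000000000000000000000197465d0000666800000000006aa8000000000063a400000018cd000000069a997400000000000000000000061d8000000197463a400000000000000000000187568e80000000000000000061f00000001875000199a0000000000187c000187c000000000000006334000000000061f000061d8000000000000018760000000000187600018cb0000000000000061d58750000000632c000 >>> (14 * (10 * a.val + b.val))) % 16384

/-- A double edge inserted into an edge of the Petersen graph. -/
theorem chkD (a b : Fin 10) (hab : P a b = 1) : ∃ (f : Fin 10 → Bool) (u v : Bool),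
    (∑ i, sg (f i)) + (sg u + sg v) = 0 ∧
    (∀ i, (∑ j, if f j = f i then Pe a b i j else 0) + ((if i = a ∧ u = f i then 1 else 0)
      + (if i = b ∧ v = f i then 1 else 0)) ≤ 1) ∧
    (if v = u then 1 else 0) + (if v = u then 1 else 0) + (if f a = u then 1 else 0) ≤ 1 ∧
    (if u = v then 1 else 0) + (if u = v then 1 else 0) + (if f b = v then 1 else 0) ≤ 1 := by
  refine ⟨fun i => Nat.testBit (wtD a b) i.val, Nat.testBit (wtD a b) 10,
    Nat.testBit (wtD a b) 11, ?_⟩
  revert a b
  decide +kernel

/-- A diamond inserted into an edge of the Petersen graph. -/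
theorem chkE (a b : Fin 10) (hab : P a b = 1) : ∃ (f : Fin 10 → Bool) (u p q v : Bool),
    (∑ i, sg (f i)) + (sg u + (sg p + (sg q + sg v))) = 0 ∧
    (∀ i, (∑ j, if f j = f i then Pe a b i j else 0) + ((if i = a ∧ u = f i then 1 else 0)
      + (if i = b ∧ v = f i then 1 else 0)) ≤ 1) ∧
    (if p = u then 1 else 0) + (if q = u then 1 else 0) + (if f a = u then 1 else 0) ≤ 1 ∧
    (if p = v then 1 else 0) + (if q = v then 1 else 0) + (if f b = v then 1 else 0) ≤ 1 ∧
    (if u = p then 1 else 0) + (if v = p then 1 else 0) + (if q = p then 1 else 0) ≤ 1 ∧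
    (if u = q then 1 else 0) + (if v = q then 1 else 0) + (if p = q then 1 else 0) ≤ 1 := by
  refine ⟨fun i => Nat.testBit (wtE a b) i.val, Nat.testBit (wtE a b) 10,
    Nat.testBit (wtE a b) 11, Nat.testBit (wtE a b) 12, Nat.testBit (wtE a b) 13, ?_⟩
  revert a b
  decide +kernel

variable {V : Type} [Fintype V] [DecidableEq V] {S : Finset V} {w : V → V → ℕ}

theorem two_filter {u v : V} (huv : u ≠ v) (p : V → Prop) [DecidablePred p] :
    ((({u, v} : Finset V)).filter p).card = (if p u then 1 else 0) + (if p v then 1 else 0) := by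
  rw [Finset.card_filter, Finset.sum_pair huv]

/-- If the new multigraph has a Petersen component, this is everything, and the new edge is one
of its edges. -/
theorem two_pet (hM : Mg S w) (hcn : Conn S w) {C : Finset V} {u v x y : V} (huv : u ≠ v)
    (hG : Gad S w C {u, v} (fun c => if c = u then x else y) (fun c => if c = u then v else u))
    (hC : C.Nonempty)
    {π : Fin 10 → V} (hi : Function.Injective π) (hS : ∀ i, π i ∈ S \ C)
    (hw : ∀ i j, nw w C {u, v} (fun c => if c = u then x else y)
      (fun c => if c = u then v else u) (π i) (π j) = P i j) :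
    ∃ a b : Fin 10, P a b = 1 ∧ π a = x ∧ π b = y ∧ (∀ z ∈ S, z ∉ C → ∃ i, π i = z) ∧
      ∀ i j, w (π i) (π j) = Pe a b i j := by
  have h1 : ∃ a b : Fin 10, P a b = 1 ∧ π a = x ∧ π b = y := by
    obtain ⟨c, hc, i, hi'⟩ := pet_meets hM hG hcn hC hi hS hw
    obtain ⟨j, hj, _, hij⟩ := pet_pair hM hG hi hS hw hc hi'
    rcases Finset.mem_insert.1 hc with h | h
    · have e1 : π i = if c = u then x else y := hi'
      have e2 : π j = if (if c = u then v else u) = u then x else y := hj
      rw [if_pos h] at e1
      rw [if_pos h, if_neg huv.symm] at e2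
      exact ⟨i, j, hij, e1, e2⟩
    · have h' : c ≠ u := fun e => huv (e.symm.trans (Finset.mem_singleton.1 h))
      have e1 : π i = if c = u then x else y := hi'
      have e2 : π j = if (if c = u then v else u) = u then x else y := hj
      rw [if_neg h'] at e1
      rw [if_neg h', if_pos rfl] at e2
      exact ⟨j, i, by rw [P_symm]; exact hij, e2, e1⟩
  obtain ⟨a, b, hab, ha, hb⟩ := h1
  refine ⟨a, b, hab, ha, hb, ?_, ?_⟩
  · refine pet_all hM hG hcn hC hi hS hw ?_
    intro c _
    show ∃ i, π i = if c = u then x else y
    by_cases h : c = u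
    · exact ⟨a, by rw [if_pos h, ha]⟩
    · exact ⟨b, by rw [if_neg h, hb]⟩
  · intro i j
    have h2 := pet_weight hM hi hS hw i j
    rw [two_filter huv] at h2
    have hba : a ≠ b := by
      rintro rfl
      rw [P_self] at hab
      omega
    have e1 : ((if u = u then x else y) = π i ∧
        (if (if u = u then v else u) = u then x else y) = π j) ↔ (i = a ∧ j = b) := by
      rw [if_pos rfl, if_pos rfl, if_neg huv.symm, ← ha, ← hb]
      constructor
      · rintro ⟨e, e'⟩
        exact ⟨(hi e).symm, (hi e').symm⟩
      · rintro ⟨e, e'⟩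
        exact ⟨by rw [e], by rw [e']⟩
    have e2 : ((if v = u then x else y) = π i ∧
        (if (if v = u then v else u) = u then x else y) = π j) ↔ (i = b ∧ j = a) := by
      rw [if_neg huv.symm, if_neg huv.symm, if_pos rfl, ← ha, ← hb]
      constructor
      · rintro ⟨e, e'⟩
        exact ⟨(hi e).symm, (hi e').symm⟩
      · rintro ⟨e, e'⟩
        exact ⟨by rw [e], by rw [e']⟩
    have e3 : (if i = j then 0 else (if ((fun c => if c = u then x else y) u = π i ∧
        (fun c => if c = u then x else y) ((fun c => if c = u then v else u) u) = π j) then 1 else 0)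
        + (if ((fun c => if c = u then x else y) v = π i ∧
        (fun c => if c = u then x else y) ((fun c => if c = u then v else u) v) = π j) then 1
          else 0)) = if (i = a ∧ j = b) ∨ (i = b ∧ j = a) then 1 else 0 := by
      have e4 : (if ((fun c => if c = u then x else y) u = π i ∧
        (fun c => if c = u then x else y) ((fun c => if c = u then v else u) u) = π j) then 1 else 0)
          = if (i = a ∧ j = b) then 1 else 0 := if_congr e1 rfl rfl
      have e5 : (if ((fun c => if c = u then x else y) v = π i ∧
        (fun c => if c = u then x else y) ((fun c => if c = u then v else u) v) = π j) then 1 else 0)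
          = if (i = b ∧ j = a) then 1 else 0 := if_congr e2 rfl rfl
      rw [e4, e5]
      by_cases h3 : i = a ∧ j = b
      · rw [if_neg (fun e : i = j => hba (h3.1.symm.trans (e.trans h3.2))), if_pos h3,
          if_neg (fun e => hba (h3.1.symm.trans e.1)), if_pos (Or.inl h3)]
      · by_cases h4 : i = b ∧ j = a
        · rw [if_neg (fun e : i = j => hba ((h4.1.symm.trans (e.trans h4.2)).symm)), if_neg h3,
            if_pos h4, if_pos (Or.inr h4)]
        · have h5 : ¬ ((i = a ∧ j = b) ∨ (i = b ∧ j = a)) := fun e => e.elim h3 h4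
          rw [if_neg h3, if_neg h4, if_neg h5]
          split_ifs <;> rfl
    rw [e3] at h2
    unfold Pe
    by_cases h3 : (i = a ∧ j = b) ∨ (i = b ∧ j = a)
    · rw [if_pos h3] at h2 ⊢
      have := P_le i j
      omega
    · rw [if_neg h3] at h2 ⊢
      omega

/-- The contribution of the new vertices to the own counts. -/
theorem two_exits {u v x y : V} (huv : u ≠ v) {π : Fin 10 → V} (hi : Function.Injective π)
    {a b : Fin 10} (ha : π a = x) (hb : π b = y) (F : Fin 10 → Bool) (g : V → Bool) (i : Fin 10) :
    ((({u, v} : Finset V)).filter (fun c => (fun c => if c = u then x else y) c = π i ∧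
      g c = F i)).card = (if i = a ∧ g u = F i then 1 else 0) + (if i = b ∧ g v = F i then 1
        else 0) := by
  rw [two_filter huv]
  congr 1
  · refine if_congr ?_ rfl rfl
    show (if u = u then x else y) = π i ∧ g u = F i ↔ _
    rw [if_pos rfl, ← ha]
    constructor
    · rintro ⟨e, e'⟩
      exact ⟨(hi e).symm, e'⟩
    · rintro ⟨e, e'⟩
      exact ⟨by rw [e], e'⟩
  · refine if_congr ?_ rfl rfl
    show (if v = u then x else y) = π i ∧ g v = F i ↔ _
    rw [if_neg huv.symm, ← hb]
    constructor
    · rintro ⟨e, e'⟩
      exact ⟨(hi e).symm, e'⟩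
    · rintro ⟨e, e'⟩
      exact ⟨by rw [e], e'⟩

/-- A minimal counterexample has no double edge. -/
theorem Min.simple (h : Min S w) (u v : V) : w u v ≤ 1 := by
  refine h.simple_of ?_ u v
  intro u v x y huv hx hy hG
  rintro ⟨π, hi, hS, hw⟩
  have hM := h.mg
  obtain ⟨a, b, hab, ha, hb, hall, hPe⟩ := two_pet hM h.conn huv hG
    ⟨u, Finset.mem_insert_self _ _⟩ hi hS hw
  obtain ⟨F, s, t, k1, k2, k3, k4⟩ := chkD a b hab
  have gu : (if u = u then s else t) = s := if_pos rfl
  have gv : (if v = u then s else t) = t := if_neg huv.symm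
  refine pet_lift hM hG hi hS hw hall F (fun c => if c = u then s else t) ?_ ?_ ?_
  · intro i
    rw [two_exits huv hi ha hb F (fun c => if c = u then s else t) i, gu, gv]
    refine le_trans (le_of_eq ?_) (k2 i)
    congr 1
    exact Finset.sum_congr rfl (fun j _ => by rw [hPe])
  · intro f hf1 hf2 c hc
    have fu : f u = s := (hf2 u (Finset.mem_insert_self _ _)).trans gu
    have fv : f v = t :=
      (hf2 v (Finset.mem_insert_of_mem (Finset.mem_singleton_self _))).trans gv
    have fx : f x = F a := by rw [← ha, hf1]
    have fy : f y = F b := by rw [← hb, hf1]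
    rcases Finset.mem_insert.1 hc with e | e
    · rw [e, hx.own, hx.dg, fu, fv, fx]
      omega
    · rw [Finset.mem_singleton.1 e, hy.own, hy.dg, fu, fv, fy]
      omega
  · rw [Finset.sum_pair huv, gu, gv]
    exact k1

/-- A minimal counterexample has no diamond. -/
theorem Min.nodiam (h : Min S w) {u a b v : V} (huv : u ≠ v) (h1 : w u a ≠ 0) (h2 : w u b ≠ 0)
    (h3 : w v a ≠ 0) (h4 : w v b ≠ 0) (h5 : w a b ≠ 0) : False := by
  refine h.nodiam_of h.simple ?_ huv h1 h2 h3 h4 h5
  intro u v p q x y huv hup huq hvp hvq hpq hx hy hp hq hG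
  rintro ⟨π, hi, hS, hw⟩
  have hM := h.mg
  obtain ⟨a, b, hab, ha, hb, hall, hPe⟩ := two_pet hM h.conn huv hG
    ⟨u, Finset.mem_insert_self _ _⟩ hi hS hw
  obtain ⟨F, s, s1, s2, t, k1, k2, k3, k4, k5, k6⟩ := chkE a b hab
  have hmem : ∀ z, z ∈ ({u, p, q, v} : Finset V) → z = u ∨ z = p ∨ z = q ∨ z = v := by
    intro z hz
    simpa using hz
  have hsum : ∀ g : V → ℤ, ∑ z ∈ ({u, p, q, v} : Finset V), g z = g u + (g p + (g q + g v)) := by
    intro g
    rw [Finset.sum_insert, Finset.sum_insert, Finset.sum_insert, Finset.sum_singleton]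
    · simp [hvq.symm]
    · simp [hpq, hvp.symm]
    · simp [hup, huq, huv]
  obtain ⟨g, gu, gp, gq, gv⟩ : ∃ g : V → Bool, g u = s ∧ g p = s1 ∧ g q = s2 ∧ g v = t :=
    ⟨fun c => if c = u then s else if c = p then s1 else if c = q then s2 else t,
      by simp, by simp [hup.symm], by simp [huq.symm, hpq.symm], by simp [huv.symm, hvp, hvq]⟩
  refine pet_lift hM hG hi hS hw hall F g ?_ ?_ ?_
  · intro i
    rw [two_exits huv hi ha hb F g i, gu, gv]
    refine le_trans (le_of_eq ?_) (k2 i)
    congr 1
    exact Finset.sum_congr rfl (fun j _ => by rw [hPe])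
  · intro f hf1 hf2 c hc
    have fu : f u = s := (hf2 u (by simp)).trans gu
    have fp : f p = s1 := (hf2 p (by simp)).trans gp
    have fq : f q = s2 := (hf2 q (by simp)).trans gq
    have fv : f v = t := (hf2 v (by simp)).trans gv
    have fx : f x = F a := by rw [← ha, hf1]
    have fy : f y = F b := by rw [← hb, hf1]
    rcases hmem c hc with e | e | e | e
    · rw [e, hx.own, hx.dg, fu, fp, fq, fx]
      omega
    · rw [e, hp.own, hp.dg, fu, fp, fq, fv]
      omega
    · rw [e, hq.own, hq.dg, fu, fp, fq, fv]
      omega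
    · rw [e, hy.own, hy.dg, fv, fp, fq, fy]
      omega
  · rw [hsum, gu, gp, gq, gv]
    exact k1

end Pool.Agent.BLN.Red
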