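import Pool.Agent.BLN.Red.Four2
import Pool.Agent.BLN.Red.PetFour
import Pool.Agent.BLN.Red.PetOne
import Pool.Agent.BLN.Red.TwoPet
import Pool.Agent.BLN.Red.Final

set_option autoImplicit false
set_option linter.unusedSectionVars false

/-!
The reduction is complete: S11147 follows from the statement `Main13` about C4-free simple graphs
with degrees 1 and 3 whose bridges are pendant edges.
-/

namespace Pool.Agent.BLN.Red

open Finset

theorem petC_holds : PetC := by
  intro a b c d hab hcd hne
  obtain ⟨f, g, h1, h2, h3, h4, h5, h6⟩ := chkC a b c d hab hcd (fun e => hne (Or.inl e))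
    (fun e => hne (Or.inr e))
  refine ⟨f, g 0, g 1, g 2, g 3, ?_, ?_, ?_, ?_, ?_, ?_⟩
  · intro i
    refine le_trans (le_of_eq ?_) (h2 i)
    have h7 : (∑ j, if f j = f i ∧ ¬ ((i = a ∧ j = b) ∨ (i = b ∧ j = a) ∨ (i = c ∧ j = d) ∨
        (i = d ∧ j = c)) then P i j else 0) = ∑ j, if f j = f i then Pf a b c d i j else 0 := by
      refine Finset.sum_congr rfl (fun j _ => ?_)
      unfold Pf
      by_cases h8 : f j = f i
      · rw [if_pos h8]
        by_cases h9 : (i = a ∧ j = b) ∨ (i = b ∧ j = a) ∨ (i = c ∧ j = d) ∨ (i = d ∧ j = c)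
        · rw [if_pos h9, if_neg (fun e => e.2 h9)]
        · rw [if_neg h9, if_pos ⟨h8, h9⟩]
      · rw [if_neg h8, if_neg (fun e => h8 e.1)]
    rw [h7]
    ring
  · omega
  · omega
  · omega
  · omega
  · have h7 : ∑ k, sg (g k) = sg (g 0) + (sg (g 1) + (sg (g 2) + sg (g 3))) := by
      rw [Fin.sum_univ_four]
      ring
    rw [← h7]
    exact h1

section

variable {V : Type} [Fintype V] [DecidableEq V] {S : Finset V} {w : V → V → ℕ}

/-- No four-cycle in a minimal counterexample. -/
theorem Min.noC4 (h : Min S w) {a b c d : V} (hac : a ≠ c) (hbd : b ≠ d) (h1 : w a b ≠ 0)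
    (h2 : w b c ≠ 0) (h3 : w c d ≠ 0) (h4 : w d a ≠ 0) : False :=
  noC4_aux petE_holds petC_holds h h.conn h.simple
    (fun _ _ _ _ huv k1 k2 k3 k4 k5 => h.nodiam huv k1 k2 k3 k4 k5) hac hbd h1 h2 h3 h4

/-- There is no minimal counterexample. -/
theorem Min.false (hMain : Main13) (h : Min S w) : False :=
  h.false_of hMain h.conn (fun hT _ _ hx hy hxy hu => h.bridge hT hx hy hxy hu) h.simple
    (fun hac hbd h1 h2 h3 h4 => h.noC4 hac hbd h1 h2 h3 h4)

end

/-- The statement of S11147 follows from `Main13`. -/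
theorem s11147_of_main13 (hMain : Main13) :
    ∀ (V : Type) [Fintype V] [DecidableEq V] (G : SimpleGraph V) [DecidableRel G.Adj],
      G.Connected → G.IsRegularOfDegree 3 → (∃ M : G.Subgraph, M.IsPerfectMatching) →
      IsEmpty (G ≃g SimpleGraph.fromRel
        (fun s t : {s : Finset (Fin 5) // s.card = 2} => Disjoint s.1 t.1)) →
      ∃ c : V → Bool,
        (Finset.univ.filter (fun v => c v = true)).card
          = (Finset.univ.filter (fun v => c v = false)).card ∧
        ∀ v : V, {w : V | (G ⊓ SimpleGraph.fromRel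
          (fun a b : V => c a = c b)).Reachable v w}.ncard ≤ 2 := by
  intro V _ _ G _ hconn hreg hmat hpet
  exact s11147_of (fun S w hM hm hP =>
    all_good_of (fun S' w' h' => Min.false hMain h') S.card S w rfl hM hm hP)
    G hconn hreg hmat hpet

end Pool.Agent.BLN.Red
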