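import Pool.Agent.BLN.Red.Min

set_option autoImplicit false
set_option linter.unusedSectionVars false

/-!
A copy of Petersen minus an edge that is attached at the two ends of the missing edge is replaced
by a vertex with a pendant.
-/

namespace Pool.Agent.BLN.Red

open Finset

variable {V : Type} [Fintype V] [DecidableEq V]

/-- The states of Petersen minus an edge that are needed: balanced, both ends of the missing edge
of colour `u`, one of them without neighbours of its colour. -/
def PetE : Prop :=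
  ∀ a b : Fin 10, P a b = 1 → ∀ u : Bool, ∃ F : Fin 10 → Bool, ∑ i, sg (F i) = 0 ∧ F a = u ∧
    F b = u ∧ ∀ i, (∑ j, if F j = F i ∧ ¬ ((i = a ∧ j = b) ∨ (i = b ∧ j = a)) then P i j else 0)
      + (if i = a then 1 else 0) ≤ 1

/-- The replacement. -/
structure Rp (S : Finset V) (w : V → V → ℕ) (π : Fin 10 → V) (i0 i1 : Fin 10) (c0 c1 : V) :
    Prop where
  inj : Function.Injective π
  mem : ∀ i, π i ∈ S
  adj : P i0 i1 = 1
  ne : c0 ≠ c1
  n0 : ∀ i, π i ≠ c0
  n1 : ∀ i, π i ≠ c1
  cc : w c0 c1 ≠ 0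
  inn : ∀ i j, w (π i) (π j) + (if (i = i0 ∧ j = i1) ∨ (i = i1 ∧ j = i0) then 1 else 0) = P i j
  outt : ∀ i v, (∀ j, π j ≠ v) →
    w (π i) v = (if i = i0 ∧ v = c0 then 1 else 0) + (if i = i1 ∧ v = c1 then 1 else 0)

variable {S : Finset V} {w : V → V → ℕ} {π : Fin 10 → V} {i0 i1 : Fin 10} {c0 c1 : V}

/-- The new weights. -/
def wr (w : V → V → ℕ) (π : Fin 10 → V) (i0 i1 : Fin 10) (c0 c1 : V) (u v : V) : ℕ :=
  if (∀ j, π j ≠ u) ∧ (∀ j, π j ≠ v) then w u v
  else if (u = π i0 ∧ (v = c0 ∨ v = c1 ∨ v = π i1)) ∨ (v = π i0 ∧ (u = c0 ∨ u = c1 ∨ u = π i1))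
    then 1 else 0

/-- The new vertex set. -/
def Sr (S : Finset V) (π : Fin 10 → V) (i0 i1 : Fin 10) : Finset V :=
  S.filter (fun v => (∀ j, π j ≠ v) ∨ v = π i0 ∨ v = π i1)

theorem Rp.i_ne (h : Rp S w π i0 i1 c0 c1) : i0 ≠ i1 := by
  rintro rfl
  have := h.adj
  rw [P_self] at this
  omega

theorem Rp.z_ne (h : Rp S w π i0 i1 c0 c1) : π i0 ≠ π i1 := fun e => h.i_ne (h.inj e)

theorem mem_Sr {v : V} : v ∈ Sr S π i0 i1 ↔ v ∈ S ∧ ((∀ j, π j ≠ v) ∨ v = π i0 ∨ v = π i1) := by
  unfold Sr
  rw [Finset.mem_filter]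

theorem wr_out {u v : V} (hu : ∀ j, π j ≠ u) (hv : ∀ j, π j ≠ v) :
    wr w π i0 i1 c0 c1 u v = w u v := by
  unfold wr
  rw [if_pos ⟨hu, hv⟩]

theorem wr_z (v : V) : wr w π i0 i1 c0 c1 (π i0) v
    = if v = c0 ∨ v = c1 ∨ v = π i1 ∨ (v = π i0 ∧ (π i0 = c0 ∨ π i0 = c1 ∨ π i0 = π i1))
      then 1 else 0 := by
  unfold wr
  rw [if_neg (fun h => h.1 i0 rfl)]
  congr 1
  apply propext
  tauto

theorem Rp.wr_z (h : Rp S w π i0 i1 c0 c1) (v : V) : wr w π i0 i1 c0 c1 (π i0) v
    = (if v = c0 then 1 else 0) + (if v = c1 then 1 else 0) + (if v = π i1 then 1 else 0) := by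
  rw [Red.wr_z]
  have h1 : ¬ (v = π i0 ∧ (π i0 = c0 ∨ π i0 = c1 ∨ π i0 = π i1)) := by
    rintro ⟨_, h2 | h2 | h2⟩
    · exact h.n0 i0 h2
    · exact h.n1 i0 h2
    · exact h.z_ne h2
  by_cases h2 : v = c0
  · subst h2
    rw [if_pos (Or.inl rfl), if_pos rfl, if_neg h.ne, if_neg (fun e => h.n0 i1 e.symm)]
  · by_cases h3 : v = c1
    · subst h3
      rw [if_pos (Or.inr (Or.inl rfl)), if_neg h2, if_pos rfl, if_neg (fun e => h.n1 i1 e.symm)]
    · by_cases h4 : v = π i1
      · subst h4
        rw [if_pos (Or.inr (Or.inr (Or.inl rfl))), if_neg h2, if_neg h3, if_pos rfl]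
      · rw [if_neg (by tauto), if_neg h2, if_neg h3, if_neg h4]

theorem wr_symm (hM : Mg S w) (u v : V) :
    wr w π i0 i1 c0 c1 u v = wr w π i0 i1 c0 c1 v u := by
  unfold wr
  by_cases h1 : (∀ j, π j ≠ u) ∧ (∀ j, π j ≠ v)
  · rw [if_pos h1, if_pos ⟨h1.2, h1.1⟩, hM.symm]
  · have h1' : ¬ ((∀ j, π j ≠ v) ∧ (∀ j, π j ≠ u)) := fun h2 => h1 ⟨h2.2, h2.1⟩
    rw [if_neg h1, if_neg h1']
    congr 1
    apply propext
    tauto

theorem Rp.wr_p (h : Rp S w π i0 i1 c0 c1) (v : V) : wr w π i0 i1 c0 c1 (π i1) v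
    = (if v = π i0 then 1 else 0) := by
  unfold wr
  rw [if_neg (fun h => h.1 i1 rfl)]
  congr 1
  apply propext
  constructor
  · rintro (⟨h1, _⟩ | ⟨h1, _⟩)
    · exact absurd h1.symm h.z_ne
    · exact h1
  · intro h1
    exact Or.inr ⟨h1, Or.inr (Or.inr rfl)⟩

/-- Outside the copy, the new weight. -/
theorem Rp.wr_o (h : Rp S w π i0 i1 c0 c1) (hM : Mg S w) {u : V} (hu : ∀ j, π j ≠ u) (v : V) :
    wr w π i0 i1 c0 c1 u v = (if ∀ j, π j ≠ v then w u v else 0)
      + (if v = π i0 then (if u = c0 then 1 else 0) + (if u = c1 then 1 else 0) else 0) := by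
  by_cases hv : ∀ j, π j ≠ v
  · rw [wr_out hu hv, if_pos hv, if_neg (fun e => hv i0 e.symm), add_zero]
  · rw [if_neg hv, zero_add]
    by_cases h1 : v = π i0
    · subst h1
      rw [if_pos rfl, wr_symm hM, h.wr_z, if_neg (show ¬ u = π i1 from fun e => hu i1 e.symm),
        add_zero]
    · rw [if_neg h1]
      unfold wr
      rw [if_neg (fun h2 => hv h2.2), if_neg]
      rintro (⟨h2, _⟩ | ⟨h2, _⟩)
      · exact hu i0 h2.symm
      · exact h1 h2

/-- A sum over all vertices splits in the copy and the rest. -/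
theorem sum_split (hi : Function.Injective π) (g : V → ℕ) :
    ∑ v, g v = (∑ v, if ∀ j, π j ≠ v then g v else 0) + ∑ i, g (π i) := by
  have h1 : ∑ i, g (π i) = ∑ v ∈ Finset.univ.image π, g v := by
    rw [Finset.sum_image (fun a _ b _ h => hi h)]
  have h2 : Finset.univ.image π = Finset.univ.filter (fun v => ¬ ∀ j, π j ≠ v) := by
    ext v
    rw [Finset.mem_image, Finset.mem_filter]
    push Not
    constructor
    · rintro ⟨i, _, hv⟩
      exact ⟨Finset.mem_univ _, i, hv⟩
    · rintro ⟨_, i, hv⟩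
      exact ⟨i, Finset.mem_univ _, hv⟩
  rw [h1, h2, ← Finset.sum_filter, Finset.sum_filter_add_sum_filter_not]

theorem Rp.sum_wr (h : Rp S w π i0 i1 c0 c1) (hM : Mg S w) {u : V} (hu : ∀ j, π j ≠ u)
    (p : V → Prop) [DecidablePred p] :
    (∑ v, if p v then wr w π i0 i1 c0 c1 u v else 0)
      = (∑ v, if ∀ j, π j ≠ v then (if p v then w u v else 0) else 0)
        + (if p (π i0) then (if u = c0 then 1 else 0) + (if u = c1 then 1 else 0) else 0) := by
  have h1 : ∀ v, (if p v then wr w π i0 i1 c0 c1 u v else 0)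
      = (if ∀ j, π j ≠ v then (if p v then w u v else 0) else 0)
        + (if v = π i0 then (if p v then (if u = c0 then 1 else 0) + (if u = c1 then 1 else 0)
            else 0) else 0) := by
    intro v
    rw [h.wr_o hM hu]
    by_cases h2 : p v
    · rw [if_pos h2, if_pos h2, if_pos h2]
    · rw [if_neg h2, if_neg h2, if_neg h2]
      split_ifs <;> rfl
  rw [Finset.sum_congr rfl (fun v _ => h1 v), Finset.sum_add_distrib]
  congr 1
  rw [Finset.sum_ite_eq' Finset.univ (π i0), if_pos (Finset.mem_univ _)]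

theorem Rp.sum_w (h : Rp S w π i0 i1 c0 c1) (hM : Mg S w) {u : V} (hu : ∀ j, π j ≠ u)
    (p : V → Prop) [DecidablePred p] :
    (∑ v, if p v then w u v else 0)
      = (∑ v, if ∀ j, π j ≠ v then (if p v then w u v else 0) else 0)
        + ((if u = c0 ∧ p (π i0) then 1 else 0) + (if u = c1 ∧ p (π i1) then 1 else 0)) := by
  rw [sum_split h.inj (fun v => if p v then w u v else 0)]
  congr 1
  have h1 : ∀ i, (if p (π i) then w u (π i) else 0)
      = (if i = i0 then (if u = c0 ∧ p (π i) then 1 else 0) else 0)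
        + (if i = i1 then (if u = c1 ∧ p (π i) then 1 else 0) else 0) := by
    intro i
    rw [hM.symm, h.outt i u hu]
    by_cases h2 : p (π i)
    · simp only [h2, if_true, and_true, ite_and]
    · simp [h2]
  rw [Finset.sum_congr rfl (fun i _ => h1 i), Finset.sum_add_distrib,
    Finset.sum_ite_eq' Finset.univ i0, Finset.sum_ite_eq' Finset.univ i1,
    if_pos (Finset.mem_univ _), if_pos (Finset.mem_univ _)]

theorem Rp.dg_o (h : Rp S w π i0 i1 c0 c1) (hM : Mg S w) {u : V} (hu : ∀ j, π j ≠ u) :
    dg (wr w π i0 i1 c0 c1) u = dg w u := by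
  have h1 := h.sum_wr hM hu (fun _ => True)
  have h2 := h.sum_w hM hu (fun _ => True)
  simp only [if_true, and_true] at h1 h2
  unfold dg
  rw [h1, h2]

theorem Rp.dg_z (h : Rp S w π i0 i1 c0 c1) : dg (wr w π i0 i1 c0 c1) (π i0) = 3 := by
  unfold dg
  rw [Finset.sum_congr rfl (fun v _ => h.wr_z v), Finset.sum_add_distrib, Finset.sum_add_distrib,
    Finset.sum_ite_eq', Finset.sum_ite_eq', Finset.sum_ite_eq']
  simp

theorem Rp.dg_p (h : Rp S w π i0 i1 c0 c1) : dg (wr w π i0 i1 c0 c1) (π i1) = 1 := by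
  unfold dg
  rw [Finset.sum_congr rfl (fun v _ => h.wr_p v), Finset.sum_ite_eq']
  simp

theorem Rp.c_mem (h : Rp S w π i0 i1 c0 c1) (hM : Mg S w) : c0 ∈ S ∧ c1 ∈ S := by
  constructor
  · refine hM.supp' (u := π i0) ?_
    rw [h.outt i0 c0 h.n0]
    simp
  · refine hM.supp' (u := π i1) ?_
    rw [h.outt i1 c1 h.n1]
    simp

theorem Rp.mg (h : Rp S w π i0 i1 c0 c1) (hM : Mg S w) :
    Mg (Sr S π i0 i1) (wr w π i0 i1 c0 c1) := by
  refine ⟨wr_symm hM, ?_, ?_, ?_⟩
  · intro v
    by_cases hv : ∀ j, π j ≠ v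
    · rw [wr_out hv hv, hM.loop]
    · unfold wr
      rw [if_neg (fun h2 => hv h2.1), if_neg]
      rintro (⟨h1, h2 | h2 | h2⟩ | ⟨h1, h2 | h2 | h2⟩)
      · exact h.n0 i0 (h1.symm.trans h2)
      · exact h.n1 i0 (h1.symm.trans h2)
      · exact h.z_ne (h1.symm.trans h2)
      · exact h.n0 i0 (h1.symm.trans h2)
      · exact h.n1 i0 (h1.symm.trans h2)
      · exact h.z_ne (h1.symm.trans h2)
  · intro u v huv
    rw [mem_Sr]
    by_cases hv : (∀ j, π j ≠ u) ∧ ∀ j, π j ≠ v
    · rw [wr_out hv.1 hv.2] at huv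
      exact ⟨hM.supp u v huv, Or.inl hv.1⟩
    · unfold wr at huv
      rw [if_neg hv] at huv
      have hc := h.c_mem hM
      by_cases h2 : (u = π i0 ∧ (v = c0 ∨ v = c1 ∨ v = π i1)) ∨
          (v = π i0 ∧ (u = c0 ∨ u = c1 ∨ u = π i1))
      · rcases h2 with ⟨h1, _⟩ | ⟨h1, h2 | h2 | h2⟩
        · subst h1
          exact ⟨h.mem i0, Or.inr (Or.inl rfl)⟩
        · subst h2
          exact ⟨hc.1, Or.inl h.n0⟩
        · subst h2
          exact ⟨hc.2, Or.inl h.n1⟩
        · subst h2
          exact ⟨h.mem i1, Or.inr (Or.inr rfl)⟩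
      · rw [if_neg h2] at huv
        exact absurd rfl huv
  · intro v hv
    rw [mem_Sr] at hv
    rcases hv.2 with h1 | h1 | h1
    · rw [h.dg_o hM h1]
      exact hM.deg v hv.1
    · subst h1
      exact Or.inr h.dg_z
    · subst h1
      exact Or.inl h.dg_p

theorem Rp.card (h : Rp S w π i0 i1 c0 c1) : (Sr S π i0 i1).card < S.card := by
  refine Finset.card_lt_card ?_
  rw [Finset.ssubset_iff_subset_ne]
  refine ⟨Finset.filter_subset _ _, fun he => ?_⟩
  have h1 : ∃ k : Fin 10, k ≠ i0 ∧ k ≠ i1 := by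
    by_contra hcon
    push Not at hcon
    have h2 : (Finset.univ : Finset (Fin 10)) ⊆ {i0, i1} := by
      intro k _
      rw [Finset.mem_insert, Finset.mem_singleton]
      by_cases h3 : k = i0
      · exact Or.inl h3
      · exact Or.inr (hcon k h3)
    have h3 := Finset.card_le_card h2
    have h4 : ({i0, i1} : Finset (Fin 10)).card ≤ 2 := Finset.card_le_two
    rw [Finset.card_univ, Fintype.card_fin] at h3
    omega
  obtain ⟨k, h2, h3⟩ := h1
  have h4 : π k ∈ Sr S π i0 i1 := by
    rw [he]
    exact h.mem k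
  rw [mem_Sr] at h4
  rcases h4.2 with h5 | h5 | h5
  · exact h5 k rfl
  · exact h2 (h.inj h5)
  · exact h3 (h.inj h5)

theorem Rp.pm (h : Rp S w π i0 i1 c0 c1) (hM : Mg S w) {m : V → V} (hm : PM S w m)
    (hc : m c0 = π i0 ↔ m c1 = π i1) : ∃ m', PM (Sr S π i0 i1) (wr w π i0 i1 c0 c1) m' := by
  have hcm := h.c_mem hM
  -- the vertices outside the copy that are matched into it
  have key : ∀ v ∈ S, (∀ j, π j ≠ v) → ∀ j, π j = m v →
      (v = c0 ∨ v = c1) ∧ m c0 = π i0 ∧ m c1 = π i1 := by
    intro v hv hvo j hj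
    have h1 := hm.adj v hv
    rw [← hj, hM.symm, h.outt j v hvo] at h1
    by_cases h2 : j = i0 ∧ v = c0
    · obtain ⟨rfl, rfl⟩ := h2
      exact ⟨Or.inl rfl, hj.symm, hc.1 hj.symm⟩
    · by_cases h3 : j = i1 ∧ v = c1
      · obtain ⟨rfl, rfl⟩ := h3
        exact ⟨Or.inr rfl, hc.2 hj.symm, hj.symm⟩
      · rw [if_neg h2, if_neg h3] at h1
        exact absurd rfl h1
  let m' : V → V := fun v => if v = π i0 then π i1 else if v = π i1 then π i0 else
    if ∀ j, π j ≠ m v then m v else if v = c0 then c1 else c0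
  have hz : m' (π i0) = π i1 := if_pos rfl
  have hp : m' (π i1) = π i0 := by
    show (if π i1 = π i0 then π i1 else if π i1 = π i1 then π i0 else
      if ∀ j, π j ≠ m (π i1) then m (π i1) else if π i1 = c0 then c1 else c0) = π i0
    rw [if_neg h.z_ne.symm, if_pos rfl]
  have ho : ∀ v, (∀ j, π j ≠ v) → m' v = if ∀ j, π j ≠ m v then m v else
      if v = c0 then c1 else c0 := by
    intro v hv
    show (if v = π i0 then π i1 else if v = π i1 then π i0 else
      if ∀ j, π j ≠ m v then m v else if v = c0 then c1 else c0) = _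
    rw [if_neg (fun e => hv i0 e.symm), if_neg (fun e => hv i1 e.symm)]
  have hno : ∀ v, ¬ (∀ j, π j ≠ v) → ∃ j, π j = v := by
    intro v hv
    push Not at hv
    exact hv
  refine ⟨m', ?_, ?_, ?_⟩
  · intro v hv
    rw [mem_Sr] at hv
    rcases hv.2 with h1 | h1 | h1
    · rw [ho v h1]
      by_cases h2 : ∀ j, π j ≠ m v
      · rw [if_pos h2, mem_Sr]
        exact ⟨hm.mem v hv.1, Or.inl h2⟩
      · rw [if_neg h2]
        by_cases h3 : v = c0
        · rw [if_pos h3, mem_Sr]
          exact ⟨hcm.2, Or.inl h.n1⟩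
        · rw [if_neg h3, mem_Sr]
          exact ⟨hcm.1, Or.inl h.n0⟩
    · rw [h1, hz, mem_Sr]
      exact ⟨h.mem i1, Or.inr (Or.inr rfl)⟩
    · rw [h1, hp, mem_Sr]
      exact ⟨h.mem i0, Or.inr (Or.inl rfl)⟩
  · intro v hv
    rw [mem_Sr] at hv
    rcases hv.2 with h1 | h1 | h1
    · rw [ho v h1]
      by_cases h2 : ∀ j, π j ≠ m v
      · rw [if_pos h2, ho _ h2, hm.inv v hv.1, if_pos h1]
      · rw [if_neg h2]
        obtain ⟨j, hj⟩ := hno _ h2
        obtain ⟨h3, h4, h5⟩ := key v hv.1 h1 j hj
        by_cases h6 : v = c0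
        · rw [if_pos h6, ho _ h.n1, if_neg, if_neg h.ne.symm, h6]
          rw [h5]
          exact fun h7 => h7 i1 rfl
        · rw [if_neg h6, ho _ h.n0, if_neg, if_pos rfl]
          · rcases h3 with h7 | h7
            · exact absurd h7 h6
            · exact h7.symm
          · rw [h4]
            exact fun h7 => h7 i0 rfl
    · rw [h1, hz, hp]
    · rw [h1, hp, hz]
  · intro v hv
    rw [mem_Sr] at hv
    rcases hv.2 with h1 | h1 | h1
    · rw [ho v h1]
      by_cases h2 : ∀ j, π j ≠ m v
      · rw [if_pos h2, wr_out h1 h2]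
        exact hm.adj v hv.1
      · rw [if_neg h2]
        obtain ⟨j, hj⟩ := hno _ h2
        obtain ⟨h3, h4, h5⟩ := key v hv.1 h1 j hj
        by_cases h6 : v = c0
        · rw [if_pos h6, h6, wr_out h.n0 h.n1]
          exact h.cc
        · have h7 : v = c1 := by
            rcases h3 with h7 | h7
            · exact absurd h7 h6
            · exact h7
          rw [if_neg h6, h7, wr_out h.n1 h.n0, hM.symm]
          exact h.cc
    · rw [h1, hz, h.wr_z]
      simp
    · rw [h1, hp, h.wr_p]
      simp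

theorem Rp.nopet (h : Rp S w π i0 i1 c0 c1) (hM : Mg S w) (hP : ¬ Pet S w) :
    ¬ Pet (Sr S π i0 i1) (wr w π i0 i1 c0 c1) := by
  rintro ⟨ρ, hi, hS, hw⟩
  have hN := h.mg hM
  have hp : ∀ k, ρ k ≠ π i1 := by
    intro k hk
    have h1 := pet_dg (fun v hv => hN.deg_le hv) hi hS hw k
    rw [hk, h.dg_p] at h1
    omega
  have hz : ∀ k, ρ k ≠ π i0 := by
    intro k hk
    obtain ⟨j, hj⟩ := pet_closed (fun v hv => hN.deg_le hv) hi hS hw k (π i1) (by
      rw [hk, h.wr_z]
      simp)
    exact hp j hj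
  have ho : ∀ k, ∀ j, π j ≠ ρ k := by
    intro k
    have h1 := (mem_Sr.1 (hS k)).2
    rcases h1 with h2 | h2 | h2
    · exact h2
    · exact absurd h2 (hz k)
    · exact absurd h2 (hp k)
  refine hP ⟨ρ, hi, fun i => (mem_Sr.1 (hS i)).1, fun i j => ?_⟩
  rw [← hw i j, wr_out (ho i) (ho j)]

/-- The copy does not occur in a minimal counterexample. -/
theorem Rp.false (hE : PetE) (h : Rp S w π i0 i1 c0 c1) (hmin : Min S w) {m : V → V}
    (hm : PM S w m) (hc : m c0 = π i0 ↔ m c1 = π i1) : False := by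
  have hM := hmin.mg
  obtain ⟨f', hf'⟩ := hmin.min _ _ h.card (h.mg hM) (h.pm hM hm hc) (h.nopet hM hmin.nopet)
  -- the two ends
  have hzS : π i0 ∈ Sr S π i0 i1 := mem_Sr.2 ⟨h.mem i0, Or.inr (Or.inl rfl)⟩
  have hpS : π i1 ∈ Sr S π i0 i1 := mem_Sr.2 ⟨h.mem i1, Or.inr (Or.inr rfl)⟩
  have hp : f' (π i1) ≠ f' (π i0) := by
    intro he
    have h1 := hf'.1 _ hpS
    rw [h.dg_p] at h1
    have h2 : own (wr w π i0 i1 c0 c1) f' (π i1) = 1 := by
      unfold own
      rw [Finset.sum_congr rfl (fun v _ => by rw [h.wr_p v])]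
      rw [Finset.sum_eq_single (π i0)]
      · rw [if_pos he.symm, if_pos rfl]
      · intro v _ hv
        rw [if_neg hv]
        split_ifs <;> rfl
      · intro hv
        exact absurd (Finset.mem_univ _) hv
    omega
  have hz : ¬ (f' c0 = f' (π i0) ∧ f' c1 = f' (π i0)) := by
    rintro ⟨ha, hb⟩
    have h1 := hf'.1 _ hzS
    rw [h.dg_z] at h1
    have h2 : 2 ≤ own (wr w π i0 i1 c0 c1) f' (π i0) := by
      unfold own
      have h3 : ∑ v ∈ ({c0, c1} : Finset V),
          (if f' v = f' (π i0) then wr w π i0 i1 c0 c1 (π i0) v else 0) = 2 := by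
        rw [Finset.sum_pair h.ne, if_pos ha, if_pos hb, h.wr_z, h.wr_z, if_pos rfl, if_neg h.ne,
          if_neg (fun e => h.n0 i1 e.symm), if_neg h.ne.symm, if_pos rfl,
          if_neg (fun e => h.n1 i1 e.symm)]
      rw [← h3]
      exact Finset.sum_le_sum_of_subset (Finset.subset_univ _)
    omega
  -- the colouring of the copy
  have hF : ∃ F : Fin 10 → Bool, ∑ i, sg (F i) = 0 ∧ F i0 = f' (π i0) ∧ F i1 = f' (π i0) ∧
      ∀ i, (∑ j, if F j = F i then w (π i) (π j) else 0)
        + ((if i = i0 ∧ f' c0 = f' (π i0) then 1 else 0)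
          + (if i = i1 ∧ f' c1 = f' (π i0) then 1 else 0)) ≤ 1 := by
    have hadd : ∀ (F : Fin 10 → Bool) (a b : Fin 10), ((a = i0 ∧ b = i1) ∨ (a = i1 ∧ b = i0)) →
        ∀ i, (∑ j, if F j = F i ∧ ¬ ((i = a ∧ j = b) ∨ (i = b ∧ j = a)) then P i j else 0)
          = ∑ j, if F j = F i then w (π i) (π j) else 0 := by
      intro F a b hab i
      refine Finset.sum_congr rfl (fun j _ => ?_)
      have h1 := h.inn i j
      have h2 : ((i = a ∧ j = b) ∨ (i = b ∧ j = a)) ↔ ((i = i0 ∧ j = i1) ∨ (i = i1 ∧ j = i0)) := by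
        rcases hab with ⟨rfl, rfl⟩ | ⟨rfl, rfl⟩
        · exact Iff.rfl
        · constructor
          · rintro (e | e)
            · exact Or.inr e
            · exact Or.inl e
          · rintro (e | e)
            · exact Or.inr e
            · exact Or.inl e
      by_cases h3 : (i = i0 ∧ j = i1) ∨ (i = i1 ∧ j = i0)
      · rw [if_pos h3] at h1
        have h4 := P_le i j
        have h5 : w (π i) (π j) = 0 := by omega
        rw [h5, if_neg (fun e => e.2 (h2.2 h3))]
        split_ifs <;> rfl
      · rw [if_neg h3, add_zero] at h1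
        rw [h1]
        by_cases h4 : F j = F i
        · rw [if_pos h4, if_pos ⟨h4, fun e => h3 (h2.1 e)⟩]
        · rw [if_neg h4, if_neg (fun e => h4 e.1)]
    by_cases hc0 : f' c0 = f' (π i0)
    · have hc1 : ¬ f' c1 = f' (π i0) := fun e => hz ⟨hc0, e⟩
      obtain ⟨F, h1, h2, h3, h4⟩ := hE i0 i1 h.adj (f' (π i0))
      refine ⟨F, h1, h2, h3, fun i => ?_⟩
      have h5 := h4 i
      rw [hadd F i0 i1 (Or.inl ⟨rfl, rfl⟩) i] at h5
      rw [if_neg (show ¬ (i = i1 ∧ f' c1 = f' (π i0)) from fun e => hc1 e.2)]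
      by_cases h6 : i = i0
      · rw [if_pos h6] at h5
        rw [if_pos ⟨h6, hc0⟩]
        omega
      · rw [if_neg h6] at h5
        rw [if_neg (show ¬ (i = i0 ∧ f' c0 = f' (π i0)) from fun e => h6 e.1)]
        omega
    · obtain ⟨F, h1, h2, h3, h4⟩ := hE i1 i0 (by rw [P_symm]; exact h.adj) (f' (π i0))
      refine ⟨F, h1, h3, h2, fun i => ?_⟩
      have h5 := h4 i
      rw [hadd F i1 i0 (Or.inr ⟨rfl, rfl⟩) i] at h5
      rw [if_neg (show ¬ (i = i0 ∧ f' c0 = f' (π i0)) from fun e => hc0 e.2)]
      by_cases h6 : i = i1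
      · rw [if_pos h6] at h5
        split_ifs <;> omega
      · rw [if_neg h6] at h5
        rw [if_neg (show ¬ (i = i1 ∧ f' c1 = f' (π i0)) from fun e => h6 e.1)]
        omega
  obtain ⟨F, hF0, hFz, hFp, hF1⟩ := hF
  classical
  let f : V → Bool := fun v => if hv : ∃ j, π j = v then F hv.choose else f' v
  have hfπ : ∀ i, f (π i) = F i := by
    intro i
    have hex : ∃ j, π j = π i := ⟨i, rfl⟩
    show (if hv : ∃ j, π j = π i then F hv.choose else f' (π i)) = F i
    rw [dif_pos hex]
    congr 1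
    exact h.inj hex.choose_spec
  have hfo : ∀ v, (∀ j, π j ≠ v) → f v = f' v := by
    intro v hv
    show (if hv : ∃ j, π j = v then F hv.choose else f' v) = f' v
    rw [dif_neg]
    rintro ⟨j, hj⟩
    exact hv j hj
  refine hmin.bad f ⟨?_, ?_⟩
  · intro u hu
    by_cases huo : ∀ j, π j ≠ u
    · -- outside the copy
      have h1 := hf'.1 u (mem_Sr.2 ⟨hu, Or.inl huo⟩)
      rw [h.dg_o hM huo] at h1
      have h2 : own w f u = own (wr w π i0 i1 c0 c1) f' u := by
        have h3 : own w f u = _ := h.sum_w hM huo (fun v => f v = f u)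
        have h4 : own (wr w π i0 i1 c0 c1) f' u = _ := h.sum_wr hM huo (fun v => f' v = f' u)
        rw [h3, h4]
        congr 1
        · refine Finset.sum_congr rfl (fun v _ => ?_)
          by_cases hv : ∀ j, π j ≠ v
          · rw [if_pos hv, if_pos hv, hfo v hv, hfo u huo]
          · rw [if_neg hv, if_neg hv]
        · rw [hfπ, hfπ, hFz, hFp, hfo u huo]
          by_cases h5 : f' (π i0) = f' u
          · simp [h5]
          · simp [h5]
      rw [h2]
      exact h1
    · push Not at huo
      obtain ⟨i, rfl⟩ := huo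
      have h1 : own w f (π i) ≤ 1 := by
        refine le_trans (le_of_eq ?_) (hF1 i)
        unfold own
        rw [sum_split h.inj, add_comm]
        congr 1
        · refine Finset.sum_congr rfl (fun j _ => ?_)
          rw [hfπ, hfπ]
        · have h2 : ∀ v, (if ∀ j, π j ≠ v then (if f v = f (π i) then w (π i) v else 0) else 0)
              = (if v = c0 then (if i = i0 ∧ f' c0 = f' (π i0) then 1 else 0) else 0)
                + (if v = c1 then (if i = i1 ∧ f' c1 = f' (π i0) then 1 else 0) else 0) := by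
            intro v
            by_cases hv : ∀ j, π j ≠ v
            · rw [if_pos hv, h.outt i v hv, hfo v hv, hfπ]
              by_cases h3 : v = c0
              · subst h3
                rw [if_pos rfl, if_neg h.ne]
                by_cases h4 : i = i0
                · subst h4
                  simp [hFz, h.ne]
                · simp [h4, h.ne]
              · rw [if_neg h3]
                by_cases h5 : v = c1
                · subst h5
                  rw [if_pos rfl]
                  by_cases h4 : i = i1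
                  · subst h4
                    simp [hFp, h3]
                  · simp [h4, h3]
                · simp [h3, h5]
            · rw [if_neg hv]
              have h3 : v ≠ c0 := by
                rintro rfl
                exact hv h.n0
              have h4 : v ≠ c1 := by
                rintro rfl
                exact hv h.n1
              rw [if_neg h3, if_neg h4]
          rw [Finset.sum_congr rfl (fun v _ => h2 v), Finset.sum_add_distrib,
            Finset.sum_ite_eq', Finset.sum_ite_eq', if_pos (Finset.mem_univ _),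
            if_pos (Finset.mem_univ _)]
      have h2 : dg w (π i) = 3 := by
        rcases hM.deg _ (h.mem i) with h3 | h3
        · exfalso
          have h4 : dg w (π i) = 3 := by
            unfold dg
            rw [sum_split h.inj]
            have h5 : ∀ v, (if ∀ j, π j ≠ v then w (π i) v else 0)
                = (if v = c0 then (if i = i0 then 1 else 0) else 0)
                  + (if v = c1 then (if i = i1 then 1 else 0) else 0) := by
              intro v
              by_cases hv : ∀ j, π j ≠ v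
              · rw [if_pos hv, h.outt i v hv]
                by_cases h6 : v = c0
                · by_cases h7 : v = c1
                  · exact absurd (h6.symm.trans h7) h.ne
                  · simp [h6, h.ne]
                · by_cases h7 : v = c1
                  · simp [h7, h.ne.symm]
                  · simp [h6, h7]
              · rw [if_neg hv]
                have h3 : v ≠ c0 := by
                  rintro rfl
                  exact hv h.n0
                have h4 : v ≠ c1 := by
                  rintro rfl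
                  exact hv h.n1
                rw [if_neg h3, if_neg h4]
            rw [Finset.sum_congr rfl (fun v _ => h5 v), Finset.sum_add_distrib,
              Finset.sum_ite_eq', Finset.sum_ite_eq', if_pos (Finset.mem_univ _),
              if_pos (Finset.mem_univ _)]
            have h6 := P_sum i
            have h7 : ∑ j, P i j = ∑ j, w (π i) (π j)
                + ∑ j, (if (i = i0 ∧ j = i1) ∨ (i = i1 ∧ j = i0) then 1 else 0) := by
              rw [← Finset.sum_add_distrib]
              exact Finset.sum_congr rfl (fun j _ => (h.inn i j).symm)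
            have h8 : ∑ j, (if (i = i0 ∧ j = i1) ∨ (i = i1 ∧ j = i0) then 1 else 0)
                = (if i = i0 then 1 else 0) + (if i = i1 then 1 else 0) := by
              have h9 : ∀ j, (if (i = i0 ∧ j = i1) ∨ (i = i1 ∧ j = i0) then 1 else 0)
                  = (if j = i1 then (if i = i0 then 1 else 0) else 0)
                    + (if j = i0 then (if i = i1 then 1 else 0) else 0) := by
                intro j
                by_cases h10 : i = i0
                · have h11 : ¬ i = i1 := fun e => h.i_ne (h10.symm.trans e)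
                  simp [h10, h.i_ne]
                · simp [h10]
                  by_cases h11 : i = i1
                  · simp [h11]
                  · simp [h11]
              rw [Finset.sum_congr rfl (fun j _ => h9 j), Finset.sum_add_distrib,
                Finset.sum_ite_eq', Finset.sum_ite_eq', if_pos (Finset.mem_univ _),
                if_pos (Finset.mem_univ _)]
            omega
          omega
        · exact h3
      omega
  · -- the sum
    have hsp : ∑ v ∈ S, sg (f v) = ∑ v ∈ S.filter (fun v => ∀ j, π j ≠ v), sg (f' v) := by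
      rw [← Finset.sum_filter_add_sum_filter_not S (fun v => ∀ j, π j ≠ v)]
      have h1 : ∑ v ∈ S.filter (fun v => ¬ ∀ j, π j ≠ v), sg (f v) = 0 := by
        have h2 : S.filter (fun v => ¬ ∀ j, π j ≠ v) = Finset.univ.image π := by
          ext v
          rw [Finset.mem_image, Finset.mem_filter]
          push Not
          constructor
          · rintro ⟨_, i, hv⟩
            exact ⟨i, Finset.mem_univ _, hv⟩
          · rintro ⟨i, _, hv⟩
            rw [← hv]
            exact ⟨h.mem i, i, rfl⟩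
        rw [h2, Finset.sum_image (fun a _ b _ e => h.inj e), ← hF0]
        exact Finset.sum_congr rfl (fun i _ => by rw [hfπ])
      rw [h1, add_zero]
      refine Finset.sum_congr rfl (fun v hv => ?_)
      rw [Finset.mem_filter] at hv
      rw [hfo v hv.2]
    have h2 := hf'.2
    have h3 : Sr S π i0 i1 = insert (π i0) (insert (π i1) (S.filter (fun v => ∀ j, π j ≠ v))) := by
      ext v
      rw [mem_Sr, Finset.mem_insert, Finset.mem_insert, Finset.mem_filter]
      constructor
      · rintro ⟨h4, h5 | h5 | h5⟩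
        · exact Or.inr (Or.inr ⟨h4, h5⟩)
        · exact Or.inl h5
        · exact Or.inr (Or.inl h5)
      · rintro (h5 | h5 | h5)
        · rw [h5]
          exact ⟨h.mem i0, Or.inr (Or.inl rfl)⟩
        · rw [h5]
          exact ⟨h.mem i1, Or.inr (Or.inr rfl)⟩
        · exact ⟨h5.1, Or.inl h5.2⟩
    rw [h3, Finset.sum_insert, Finset.sum_insert] at h2
    · have h4 := sg_ne hp.symm
      rw [hsp]
      linarith
    · rw [Finset.mem_filter]
      exact fun e => e.2 i1 rfl
    · rw [Finset.mem_insert, Finset.mem_filter]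
      rintro (e | e)
      · exact h.z_ne e
      · exact e.2 i0 rfl

end Pool.Agent.BLN.Red
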