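import Pool.Agent.BLN.Red.Comp

set_option autoImplicit false
set_option linter.unusedSectionVars false
set_option linter.unusedSimpArgs false

/-!
A minimal counterexample has no double edge and no diamond.
-/

namespace Pool.Agent.BLN.Red

open Finset

variable {V : Type} [Fintype V] [DecidableEq V] {S : Finset V} {w : V → V → ℕ}

/-- The three neighbours of a vertex are `a`, `b`, `c`, with multiplicity. -/
def Tri (w : V → V → ℕ) (v a b c : V) : Prop :=
  ∀ y, w v y = (if y = a then 1 else 0) + (if y = b then 1 else 0) + (if y = c then 1 else 0)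

theorem Tri.own {v a b c : V} (h : Tri w v a b c) (f : V → Bool) :
    own w f v = (if f a = f v then 1 else 0) + (if f b = f v then 1 else 0)
      + (if f c = f v then 1 else 0) := by
  have key : ∀ d : V, (∑ y, if f y = f v then (if y = d then 1 else 0) else 0)
      = if f d = f v then 1 else 0 := by
    intro d
    rw [Finset.sum_eq_single d]
    · rw [if_pos rfl]
    · intro y _ hy
      rw [if_neg hy]
      split_ifs <;> rfl
    · intro h1
      exact absurd (Finset.mem_univ _) h1
  unfold Red.own
  rw [← key a, ← key b, ← key c, ← Finset.sum_add_distrib, ← Finset.sum_add_distrib]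
  refine Finset.sum_congr rfl (fun y _ => ?_)
  rw [h y]
  by_cases h1 : f y = f v
  · simp only [if_pos h1]
  · simp only [if_neg h1]

theorem Tri.ne {v a b c y : V} (h : Tri w v a b c) (hy : w v y ≠ 0) : y = a ∨ y = b ∨ y = c := by
  by_contra hcon
  push Not at hcon
  rw [h y, if_neg hcon.1, if_neg hcon.2.1, if_neg hcon.2.2] at hy
  exact hy rfl

theorem Tri.zero {v a b c y : V} (h : Tri w v a b c) (ha : y ≠ a) (hb : y ≠ b) (hc : y ≠ c) :
    w v y = 0 := by
  rw [h y, if_neg ha, if_neg hb, if_neg hc]

theorem Tri.dg {v a b c : V} (h : Tri w v a b c) : dg w v = 3 := by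
  unfold Red.dg
  rw [Finset.sum_congr rfl (fun y _ => h y), Finset.sum_add_distrib, Finset.sum_add_distrib,
    Finset.sum_ite_eq', Finset.sum_ite_eq', Finset.sum_ite_eq', if_pos (Finset.mem_univ _),
    if_pos (Finset.mem_univ _), if_pos (Finset.mem_univ _)]

theorem exists_tri {v a b : V} (hd : dg w v = 3)
    (h : (a ≠ b ∧ w v a ≠ 0 ∧ w v b ≠ 0) ∨ (a = b ∧ 2 ≤ w v a)) : ∃ c, Tri w v a b c := by
  refine exists_third hd (fun y => (if y = a then 1 else 0) + (if y = b then 1 else 0)) ?_ ?_
  · intro y
    rcases h with ⟨h1, h2, h3⟩ | ⟨h1, h2⟩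
    · by_cases ha : y = a
      · rw [if_pos ha, if_neg (fun e => h1 (ha.symm.trans e)), ha]
        omega
      · by_cases hb : y = b
        · rw [if_neg ha, if_pos hb, hb]
          omega
        · rw [if_neg ha, if_neg hb]
          omega
    · rw [← h1]
      by_cases ha : y = a
      · rw [if_pos ha, ha]
        omega
      · rw [if_neg ha]
        omega
  · rw [Finset.sum_add_distrib, Finset.sum_ite_eq', Finset.sum_ite_eq',
      if_pos (Finset.mem_univ _), if_pos (Finset.mem_univ _)]

theorem Mg.dg_three (hM : Mg S w) {v : V} (hv : v ∈ S) (h : 2 ≤ dg w v) : dg w v = 3 := by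
  rcases hM.deg v hv with h1 | h1 <;> omega

/-- A piece that is replaced by one new edge. -/
theorem gad_two (hM : Mg S w) {C : Finset V} (hC : C ⊆ S) {u v x y : V} (huv : u ≠ v)
    (hu : u ∈ C) (hv : v ∈ C) (hx : x ∈ S) (hxC : x ∉ C) (hy : y ∈ S) (hyC : y ∉ C)
    (h1 : w u x = 1) (h2 : w v y = 1) (h3 : ∀ z, z ∉ C → z ≠ x → w u z = 0)
    (h4 : ∀ z, z ∉ C → z ≠ y → w v z = 0)
    (h5 : ∀ c ∈ C, c ≠ u → c ≠ v → ∀ z, z ∉ C → w c z = 0) :
    Gad S w C {u, v} (fun c => if c = u then x else y) (fun c => if c = u then v else u) := by
  refine ⟨hC, ?_, ?_, ?_, ?_, ?_, ?_⟩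
  · intro c hc
    rcases Finset.mem_insert.1 hc with h | h
    · rw [h]; exact hu
    · rw [Finset.mem_singleton.1 h]; exact hv
  · intro c _
    show (if c = u then x else y) ∈ S ∧ (if c = u then x else y) ∉ C
    by_cases h : c = u
    · rw [if_pos h]; exact ⟨hx, hxC⟩
    · rw [if_neg h]; exact ⟨hy, hyC⟩
  · intro z _ hzC c hc
    show w z c = if c ∈ ({u, v} : Finset V) ∧ (if c = u then x else y) = z then 1 else 0
    rw [hM.symm]
    by_cases h : c = u
    · rw [if_pos h, h]
      by_cases hz : x = z
      · rw [if_pos ⟨Finset.mem_insert_self _ _, hz⟩, ← hz, h1]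
      · rw [if_neg (fun e => hz e.2), h3 z hzC (fun e => hz e.symm)]
    · rw [if_neg h]
      by_cases h' : c = v
      · rw [h']
        by_cases hz : y = z
        · rw [if_pos ⟨Finset.mem_insert_of_mem (Finset.mem_singleton_self _), hz⟩, ← hz, h2]
        · rw [if_neg (fun e => hz e.2), h4 z hzC (fun e => hz e.symm)]
      · rw [if_neg, h5 c hc h h' z hzC]
        rintro ⟨e, _⟩
        rcases Finset.mem_insert.1 e with e | e
        · exact h e
        · exact h' (Finset.mem_singleton.1 e)
  · intro c _
    show (if c = u then v else u) ∈ ({u, v} : Finset V)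
    by_cases h : c = u
    · rw [if_pos h]; exact Finset.mem_insert_of_mem (Finset.mem_singleton_self _)
    · rw [if_neg h]; exact Finset.mem_insert_self _ _
  · intro c hc
    show (if (if c = u then v else u) = u then v else u) = c
    rcases Finset.mem_insert.1 hc with h | h
    · rw [h, if_pos rfl, if_neg huv.symm]
    · rw [Finset.mem_singleton.1 h, if_neg huv.symm, if_pos rfl]
  · intro c hc
    show (if c = u then v else u) ≠ c
    rcases Finset.mem_insert.1 hc with h | h
    · rw [h, if_pos rfl]; exact huv.symm
    · rw [Finset.mem_singleton.1 h, if_neg huv.symm]; exact huv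

/-- Lifting through a piece that is replaced by one new edge. -/
theorem lift_two (hM : Mg S w) {C : Finset V} {u v x y : V} (huv : u ≠ v)
    (hG : Gad S w C {u, v} (fun c => if c = u then x else y) (fun c => if c = u then v else u))
    {f' f : V → Bool}
    (hf' : Good (S \ C) (nw w C {u, v} (fun c => if c = u then x else y)
      (fun c => if c = u then v else u)) f') (hff : ∀ z, z ∉ C → f z = f' z)
    (hu : f u = f x → f y = f x ∧ f v ≠ f y)
    (hv : f v = f y → f x = f y ∧ f u ≠ f x)
    (h3 : ∀ c ∈ C, 2 * own w f c < dg w c) (h4 : ∑ c ∈ C, sg (f c) = 0) : Good S w f := by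
  refine lift hM hG hf' hff ?_ ?_ h3 h4
  · intro c hc
    show f c = f (if c = u then x else y) →
      f (if (if c = u then v else u) = u then x else y) = f (if c = u then x else y)
    rcases Finset.mem_insert.1 hc with h | h
    · rw [h, if_pos rfl, if_pos rfl, if_neg huv.symm]
      exact fun e => (hu e).1
    · rw [Finset.mem_singleton.1 h, if_neg huv.symm, if_neg huv.symm, if_pos rfl]
      exact fun e => (hv e).1
  · intro c hc
    show f c = f (if c = u then x else y) →
      f (if c = u then v else u) ≠ f (if (if c = u then v else u) = u then x else y)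
    rcases Finset.mem_insert.1 hc with h | h
    · rw [h, if_pos rfl, if_pos rfl, if_neg huv.symm]
      exact fun e => (hu e).2
    · rw [Finset.mem_singleton.1 h, if_neg huv.symm, if_neg huv.symm, if_pos rfl]
      exact fun e => (hv e).2

/-- Compatibility of the matching. -/
theorem pm_two {u v x y : V} {m : V → V} (huv : u ≠ v) (h1 : m u = x → m v = y)
    (h2 : m v = y → m u = x) : ∀ c ∈ ({u, v} : Finset V), m c = (fun c => if c = u then x else y) c →
      m ((fun c => if c = u then v else u) c)
        = (fun c => if c = u then x else y) ((fun c => if c = u then v else u) c) := by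
  intro c hc
  show m c = (if c = u then x else y) →
    m (if c = u then v else u) = (if (if c = u then v else u) = u then x else y)
  rcases Finset.mem_insert.1 hc with h | h
  · rw [h, if_pos rfl, if_pos rfl, if_neg huv.symm]
    exact h1
  · rw [Finset.mem_singleton.1 h, if_neg huv.symm, if_neg huv.symm, if_pos rfl]
    exact h2

/-- Petersen with a piece inserted into one edge: to be supplied by the finite checks. -/
def PetTwo (S : Finset V) (w : V → V → ℕ) (C : Finset V) (u v x y : V) : Prop :=
  Pet (S \ C) (nw w C {u, v} (fun c => if c = u then x else y) (fun c => if c = u then v else u)) →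
    ∃ f, Good S w f

/-- A minimal counterexample has no double edge, up to the Petersen case. -/
theorem Min.simple_of (h : Min S w) (hPet : ∀ u v x y : V, u ≠ v → Tri w u v v x → Tri w v u u y →
    Gad S w {u, v} {u, v} (fun c => if c = u then x else y) (fun c => if c = u then v else u) →
    PetTwo S w {u, v} u v x y) (u v : V) : w u v ≤ 1 := by
  by_contra hcon
  push Not at hcon
  have hM := h.mg
  have huv : u ≠ v := hM.ne (by omega)
  have hvu : w v u = w u v := hM.symm v u
  have huS : u ∈ S := hM.supp u v (by omega)
  have hvS : v ∈ S := hM.supp v u (by omega)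
  have hdu : dg w u = 3 := hM.dg_three huS (le_trans hcon (le_dg w u v))
  have hdv : dg w v = 3 := hM.dg_three hvS (le_trans (by omega) (le_dg w v u))
  obtain ⟨x, hx⟩ := exists_tri hdu (a := v) (b := v) (Or.inr ⟨rfl, hcon⟩)
  obtain ⟨y, hy⟩ := exists_tri hdv (a := u) (b := u) (Or.inr ⟨rfl, by omega⟩)
  have hC : ({u, v} : Finset V) ⊆ S := by
    intro z hz
    rcases Finset.mem_insert.1 hz with h1 | h1
    · rw [h1]; exact huS
    · rw [Finset.mem_singleton.1 h1]; exact hvS
  have huC : u ∈ ({u, v} : Finset V) := Finset.mem_insert_self _ _
  have hvC : v ∈ ({u, v} : Finset V) := Finset.mem_insert_of_mem (Finset.mem_singleton_self _)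
  have hxu : x ≠ u := by
    rintro rfl
    have h1 := hx x
    rw [hM.loop, if_neg huv, if_pos rfl] at h1
    omega
  have hyv : y ≠ v := by
    rintro rfl
    have h1 := hy y
    rw [hM.loop, if_neg huv.symm, if_pos rfl] at h1
    omega
  by_cases hxv : x = v
  · -- a triple edge
    have hyu : y = u := by
      by_contra hyu
      have h1 := hx v
      have h2 := hy u
      rw [if_pos rfl, if_pos hxv.symm] at h1
      rw [if_pos rfl, if_neg (fun e => hyu e.symm)] at h2
      omega
    have hS : ({u, v} : Finset V) = S := by
      refine h.conn _ hC ⟨u, huC⟩ ?_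
      intro a ha b hab
      rcases Finset.mem_insert.1 ha with h1 | h1
      · rw [h1] at hab
        rcases hx.ne hab with h2 | h2 | h2
        · rw [h2]; exact hvC
        · rw [h2]; exact hvC
        · rw [h2, hxv]; exact hvC
      · rw [Finset.mem_singleton.1 h1] at hab
        rcases hy.ne hab with h2 | h2 | h2
        · rw [h2]; exact huC
        · rw [h2]; exact huC
        · rw [h2, hyu]; exact huC
    refine h.bad (fun z => if z = u then true else false) ⟨?_, ?_⟩
    · intro z hz
      rw [← hS] at hz
      rcases Finset.mem_insert.1 hz with h1 | h1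
      · rw [h1, hx.own, hx.dg, hxv]
        simp [huv.symm]
      · rw [Finset.mem_singleton.1 h1, hy.own, hy.dg, hyu]
        simp [huv.symm]
    · rw [← hS, Finset.sum_pair huv]
      simp [huv.symm, sg]
  · have hyu : y ≠ u := by
      rintro rfl
      have h1 := hx v
      have h2 := hy y
      rw [if_pos rfl, if_neg (fun e => hxv e.symm)] at h1
      rw [if_pos rfl] at h2
      omega
    have hxC : x ∉ ({u, v} : Finset V) := by
      intro hz
      rcases Finset.mem_insert.1 hz with h1 | h1
      · exact hxu h1
      · exact hxv (Finset.mem_singleton.1 h1)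
    have hyC : y ∉ ({u, v} : Finset V) := by
      intro hz
      rcases Finset.mem_insert.1 hz with h1 | h1
      · exact hyu h1
      · exact hyv (Finset.mem_singleton.1 h1)
    have hwx : w u x = 1 := by
      rw [hx x, if_neg hxv, if_pos rfl]
    have hwy : w v y = 1 := by
      rw [hy y, if_neg hyu, if_pos rfl]
    have hG : Gad S w {u, v} {u, v} (fun c => if c = u then x else y)
        (fun c => if c = u then v else u) := by
      refine gad_two hM hC huv huC hvC (hM.supp' (u := u) (v := x) (by omega)) hxC
        (hM.supp' (u := v) (v := y) (by omega)) hyC hwx hwy ?_ ?_ ?_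
      · intro z hz hzx
        exact hx.zero (fun e => hz (e ▸ hvC)) (fun e => hz (e ▸ hvC)) hzx
      · intro z hz hzy
        exact hy.zero (fun e => hz (e ▸ huC)) (fun e => hz (e ▸ huC)) hzy
      · intro c hc hcu hcv
        rcases Finset.mem_insert.1 hc with h1 | h1
        · exact absurd h1 hcu
        · exact absurd (Finset.mem_singleton.1 h1) hcv
    by_cases hP : Pet (S \ {u, v}) (nw w {u, v} {u, v} (fun c => if c = u then x else y)
      (fun c => if c = u then v else u))
    · obtain ⟨f, hf⟩ := hPet u v x y huv hx hy hG hP
      exact h.bad f hf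
    · obtain ⟨m, hm⟩ := h.pm
      have hm1 : m u = x → m v = y := by
        intro h1
        rcases hy.ne (hm.adj v hvS) with h2 | h2 | h2
        · have h3 := hm.inv v hvS
          rw [h2, h1] at h3
          exact absurd h3 hxv
        · have h3 := hm.inv v hvS
          rw [h2, h1] at h3
          exact absurd h3 hxv
        · exact h2
      have hm2 : m v = y → m u = x := by
        intro h1
        rcases hx.ne (hm.adj u huS) with h2 | h2 | h2
        · have h3 := hm.inv u huS
          rw [h2, h1] at h3
          exact absurd h3 hyu
        · have h3 := hm.inv u huS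
          rw [h2, h1] at h3
          exact absurd h3 hyu
        · exact h2
      obtain ⟨f', hf'⟩ := h.step hG ⟨u, huC⟩ hm (pm_two huv hm1 hm2) hP
      · have hres : ∀ f : V → Bool, (∀ z, z ∉ ({u, v} : Finset V) → f z = f' z) →
            (f u = f x → f y = f x ∧ f v ≠ f y) → (f v = f y → f x = f y ∧ f u ≠ f x) →
            f u ≠ f v → False := by
          intro f hff h1 h2 h3
          refine h.bad f (lift_two hM huv hG hf' hff h1 h2 ?_ ?_)
          · intro c hc
            rcases Finset.mem_insert.1 hc with h4 | h4
            · rw [h4, hx.own, hx.dg, if_neg h3.symm]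
              split_ifs <;> omega
            · rw [Finset.mem_singleton.1 h4, hy.own, hy.dg, if_neg h3]
              split_ifs <;> omega
          · rw [Finset.sum_pair huv]
            exact sg_ne h3
        by_cases hxy : f' x = f' y
        · refine hres (fun z => if z = u then f' x else if z = v then !f' x else f' z) ?_ ?_ ?_ ?_
          · intro z hz
            have h1 : z ≠ u := fun e => hz (e ▸ huC)
            have h2 : z ≠ v := fun e => hz (e ▸ hvC)
            simp [h1, h2]
          · simp [hxu, hxv, hyu, hyv, huv.symm, hxy]
          · simp [hxu, hxv, hyu, hyv, huv.symm, hxy]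
          · simp [huv.symm]
        · refine hres (fun z => if z = u then !f' x else if z = v then !f' y else f' z) ?_ ?_ ?_ ?_
          · intro z hz
            have h1 : z ≠ u := fun e => hz (e ▸ huC)
            have h2 : z ≠ v := fun e => hz (e ▸ hvC)
            simp [h1, h2]
          · simp [hxu, hxv]
          · simp [hyu, hyv, huv.symm]
          · simp [huv.symm, hxy]

theorem Tri.swap {v a b c : V} (h : Tri w v a b c) : Tri w v b a c := by
  intro y
  rw [h y]
  omega

theorem two_le_dg {v a b : V} (hab : a ≠ b) (h1 : w v a ≠ 0) (h2 : w v b ≠ 0) : 2 ≤ dg w v := by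
  have h3 : ∑ y ∈ ({a, b} : Finset V), w v y ≤ dg w v :=
    Finset.sum_le_sum_of_subset (Finset.subset_univ _)
  rw [Finset.sum_pair hab] at h3
  omega

theorem pm_diam {u v a b x y : V} {m : V → V} (hm : PM S w m) (haS : a ∈ S) (hbS : b ∈ S)
    (hvS : v ∈ S) (ha : Tri w a u v b) (hb : Tri w b u v a) (hy : Tri w v a b y) (hab : a ≠ b)
    (hav : a ≠ v) (hbv : b ≠ v) (hxa : x ≠ a) (hxb : x ≠ b) (h1 : m u = x) : m v = y := by
  rcases hy.ne (hm.adj v hvS) with h2 | h2 | h2
  · exfalso
    have h3 := hm.inv v hvS
    rw [h2] at h3
    have h4 := hm.inv b hbS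
    rcases hb.ne (hm.adj b hbS) with h5 | h5 | h5
    · rw [h5, h1] at h4
      exact hxb h4
    · rw [h5, h2] at h4
      exact hab h4
    · rw [h5, h3] at h4
      exact hbv h4.symm
  · exfalso
    have h3 := hm.inv v hvS
    rw [h2] at h3
    have h4 := hm.inv a haS
    rcases ha.ne (hm.adj a haS) with h5 | h5 | h5
    · rw [h5, h1] at h4
      exact hxa h4
    · rw [h5, h2] at h4
      exact hab h4.symm
    · rw [h5, h3] at h4
      exact hav h4.symm
  · exact h2

/-- A minimal counterexample has no diamond, up to the Petersen case. -/
theorem Min.nodiam_of (h : Min S w) (hs : ∀ u v : V, w u v ≤ 1)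
    (hPet : ∀ u v a b x y : V, u ≠ v → u ≠ a → u ≠ b → v ≠ a → v ≠ b → a ≠ b → Tri w u a b x →
      Tri w v a b y → Tri w a u v b → Tri w b u v a →
      Gad S w {u, a, b, v} {u, v} (fun c => if c = u then x else y)
        (fun c => if c = u then v else u) → PetTwo S w {u, a, b, v} u v x y)
    {u a b v : V} (huv : u ≠ v) (h1 : w u a ≠ 0) (h2 : w u b ≠ 0) (h3 : w v a ≠ 0)
    (h4 : w v b ≠ 0) (h5 : w a b ≠ 0) : False := by
  have hM := h.mg
  have hua : u ≠ a := hM.ne h1
  have hub : u ≠ b := hM.ne h2
  have hva : v ≠ a := hM.ne h3
  have hvb : v ≠ b := hM.ne h4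
  have hab : a ≠ b := hM.ne h5
  have huS := hM.supp _ _ h1
  have hvS := hM.supp _ _ h3
  have haS := hM.supp _ _ h5
  have hbS := hM.supp' h5
  have h1' : w a u ≠ 0 := by rw [hM.symm]; exact h1
  have h2' : w b u ≠ 0 := by rw [hM.symm]; exact h2
  have h3' : w a v ≠ 0 := by rw [hM.symm]; exact h3
  have h4' : w b v ≠ 0 := by rw [hM.symm]; exact h4
  have h5' : w b a ≠ 0 := by rw [hM.symm]; exact h5
  obtain ⟨x, hx⟩ := exists_tri (hM.dg_three huS (two_le_dg hab h1 h2)) (Or.inl ⟨hab, h1, h2⟩)
  obtain ⟨y, hy⟩ := exists_tri (hM.dg_three hvS (two_le_dg hab h3 h4)) (Or.inl ⟨hab, h3, h4⟩)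
  obtain ⟨b', ha⟩ := exists_tri (hM.dg_three haS (two_le_dg huv h1' h3')) (Or.inl ⟨huv, h1', h3'⟩)
  obtain ⟨a', hb⟩ := exists_tri (hM.dg_three hbS (two_le_dg huv h2' h4')) (Or.inl ⟨huv, h2', h4'⟩)
  have hbb : b' = b := by
    rcases ha.ne h5 with e | e | e
    · exact absurd e.symm hub
    · exact absurd e.symm hvb
    · exact e.symm
  have haa : a' = a := by
    rcases hb.ne h5' with e | e | e
    · exact absurd e.symm hua
    · exact absurd e.symm hva
    · exact e.symm
  rw [hbb] at ha
  rw [haa] at hb
  have huC : u ∈ ({u, a, b, v} : Finset V) := by simp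
  have haC : a ∈ ({u, a, b, v} : Finset V) := by simp
  have hbC : b ∈ ({u, a, b, v} : Finset V) := by simp
  have hvC : v ∈ ({u, a, b, v} : Finset V) := by simp
  have hmem : ∀ z, z ∈ ({u, a, b, v} : Finset V) → z = u ∨ z = a ∨ z = b ∨ z = v := by
    intro z hz
    simpa using hz
  have hC : ({u, a, b, v} : Finset V) ⊆ S := by
    intro z hz
    rcases hmem z hz with e | e | e | e <;> rw [e] <;> assumption
  have hsum : ∀ g : V → ℤ, ∑ z ∈ ({u, a, b, v} : Finset V), g z = g u + (g a + (g b + g v)) := by
    intro g
    rw [Finset.sum_insert, Finset.sum_insert, Finset.sum_insert, Finset.sum_singleton]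
    · simp [hvb.symm]
    · simp [hab, hva.symm]
    · simp [hua, hub, huv]
  have hxu : x ≠ u := by
    rintro rfl
    have e := hx x
    rw [hM.loop, if_neg hua, if_neg hub, if_pos rfl] at e
    omega
  have hyv : y ≠ v := by
    rintro rfl
    have e := hy y
    rw [hM.loop, if_neg hva, if_neg hvb, if_pos rfl] at e
    omega
  have hxa : x ≠ a := by
    rintro rfl
    have e := hx x
    have e' := hs u x
    rw [if_pos rfl] at e
    split_ifs at e <;> omega
  have hxb : x ≠ b := by
    rintro rfl
    have e := hx x
    have e' := hs u x
    rw [if_pos rfl] at e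
    split_ifs at e <;> omega
  have hya : y ≠ a := by
    rintro rfl
    have e := hy y
    have e' := hs v y
    rw [if_pos rfl] at e
    split_ifs at e <;> omega
  have hyb : y ≠ b := by
    rintro rfl
    have e := hy y
    have e' := hs v y
    rw [if_pos rfl] at e
    split_ifs at e <;> omega
  by_cases hxv : x = v
  · -- the complete graph
    have hyu : y = u := by
      have e1 : w v u ≠ 0 := by
        rw [hM.symm, hx v, if_pos hxv.symm]
        omega
      rcases hy.ne e1 with e | e | e
      · exact absurd e hua
      · exact absurd e hub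
      · exact e.symm
    have hS : ({u, a, b, v} : Finset V) = S := by
      refine h.conn _ hC ⟨u, huC⟩ ?_
      intro p hp q hpq
      rcases hmem p hp with e | e | e | e
      · rw [e] at hpq
        rcases hx.ne hpq with e | e | e
        · rw [e]; exact haC
        · rw [e]; exact hbC
        · rw [e, hxv]; exact hvC
      · rw [e] at hpq
        rcases ha.ne hpq with e | e | e
        · rw [e]; exact huC
        · rw [e]; exact hvC
        · rw [e]; exact hbC
      · rw [e] at hpq
        rcases hb.ne hpq with e | e | e
        · rw [e]; exact huC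
        · rw [e]; exact hvC
        · rw [e]; exact haC
      · rw [e] at hpq
        rcases hy.ne hpq with e | e | e
        · rw [e]; exact haC
        · rw [e]; exact hbC
        · rw [e, hyu]; exact huC
    refine h.bad (fun z => if z = u ∨ z = v then true else false) ⟨?_, ?_⟩
    · intro z hz
      rw [← hS] at hz
      rcases hmem z hz with e | e | e | e
      · rw [e, hx.own, hx.dg, hxv]
        simp [hua.symm, hub.symm, hva.symm, hvb.symm]
      · rw [e, ha.own, ha.dg]
        simp [hua.symm, hub.symm, hva.symm, hvb.symm]
      · rw [e, hb.own, hb.dg]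
        simp [hua.symm, hub.symm, hva.symm, hvb.symm]
      · rw [e, hy.own, hy.dg, hyu]
        simp [hua.symm, hub.symm, hva.symm, hvb.symm]
    · rw [← hS, hsum]
      simp [hua.symm, hub.symm, hva.symm, hvb.symm, sg]
  · have hyu : y ≠ u := by
      rintro rfl
      have e1 : w y v ≠ 0 := by
        rw [hM.symm, hy y, if_pos rfl]
        omega
      rcases hx.ne e1 with e | e | e
      · exact hva e
      · exact hvb e
      · exact hxv e.symm
    have hxC : x ∉ ({u, a, b, v} : Finset V) := by
      intro hz
      rcases hmem x hz with e | e | e | e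
      · exact hxu e
      · exact hxa e
      · exact hxb e
      · exact hxv e
    have hyC : y ∉ ({u, a, b, v} : Finset V) := by
      intro hz
      rcases hmem y hz with e | e | e | e
      · exact hyu e
      · exact hya e
      · exact hyb e
      · exact hyv e
    have hwx : w u x = 1 := by
      rw [hx x, if_neg hxa, if_neg hxb, if_pos rfl]
    have hwy : w v y = 1 := by
      rw [hy y, if_neg hya, if_neg hyb, if_pos rfl]
    have hG : Gad S w {u, a, b, v} {u, v} (fun c => if c = u then x else y)
        (fun c => if c = u then v else u) := by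
      refine gad_two hM hC huv huC hvC (hM.supp' (u := u) (v := x) (by omega)) hxC
        (hM.supp' (u := v) (v := y) (by omega)) hyC hwx hwy ?_ ?_ ?_
      · intro z hz hzx
        exact hx.zero (fun e => hz (e ▸ haC)) (fun e => hz (e ▸ hbC)) hzx
      · intro z hz hzy
        exact hy.zero (fun e => hz (e ▸ haC)) (fun e => hz (e ▸ hbC)) hzy
      · intro c hc hcu hcv z hz
        rcases hmem c hc with e | e | e | e
        · exact absurd e hcu
        · rw [e]
          exact ha.zero (fun e => hz (e ▸ huC)) (fun e => hz (e ▸ hvC)) (fun e => hz (e ▸ hbC))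
        · rw [e]
          exact hb.zero (fun e => hz (e ▸ huC)) (fun e => hz (e ▸ hvC)) (fun e => hz (e ▸ haC))
        · exact absurd e hcv
    by_cases hP : Pet (S \ {u, a, b, v}) (nw w {u, a, b, v} {u, v}
      (fun c => if c = u then x else y) (fun c => if c = u then v else u))
    · obtain ⟨f, hf⟩ := hPet u v a b x y huv hua hub hva hvb hab hx hy ha hb hG hP
      exact h.bad f hf
    · obtain ⟨m, hm⟩ := h.pm
      have hm1 : m u = x → m v = y :=
        pm_diam hm haS hbS hvS ha hb hy hab hva.symm hvb.symm hxa hxb
      have hm2 : m v = y → m u = x :=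
        pm_diam hm haS hbS huS ha.swap hb.swap hx hab hua.symm hub.symm hya hyb
      obtain ⟨f', hf'⟩ := h.step hG ⟨u, huC⟩ hm (pm_two huv hm1 hm2) hP
      have hres : ∀ f : V → Bool, (∀ z, z ∉ ({u, a, b, v} : Finset V) → f z = f' z) →
          f u ≠ f x → f v ≠ f y →
          ((f a ≠ f b ∧ f u ≠ f v) ∨ (f a = f b ∧ f u = f v ∧ f u ≠ f a)) → False := by
        intro f hff e1 e2 e3
        refine h.bad f (lift_two hM huv hG hf' hff (fun e => absurd e e1) (fun e => absurd e e2)
          ?_ ?_)
        · intro c hc
          rcases hmem c hc with e | e | e | e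
          · rw [e, hx.own, hx.dg]
            revert e1 e2 e3
            generalize f a = A
            generalize f b = B
            generalize f u = C
            generalize f v = D
            generalize f x = X
            generalize f y = Y
            revert A B C D X Y
            decide
          · rw [e, ha.own, ha.dg]
            revert e1 e2 e3
            generalize f a = A
            generalize f b = B
            generalize f u = C
            generalize f v = D
            generalize f x = X
            generalize f y = Y
            revert A B C D X Y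
            decide
          · rw [e, hb.own, hb.dg]
            revert e1 e2 e3
            generalize f a = A
            generalize f b = B
            generalize f u = C
            generalize f v = D
            generalize f x = X
            generalize f y = Y
            revert A B C D X Y
            decide
          · rw [e, hy.own, hy.dg]
            revert e1 e2 e3
            generalize f a = A
            generalize f b = B
            generalize f u = C
            generalize f v = D
            generalize f x = X
            generalize f y = Y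
            revert A B C D X Y
            decide
        · rw [hsum]
          revert e3
          generalize f a = A
          generalize f b = B
          generalize f u = C
          generalize f v = D
          revert A B C D
          decide
      by_cases hxy : f' x = f' y
      · refine hres (fun z => if z = u ∨ z = v then !f' x else if z = a ∨ z = b then f' x
          else f' z) ?_ ?_ ?_ ?_
        · intro z hz
          have e1 : z ≠ u := fun e => hz (e ▸ huC)
          have e2 : z ≠ v := fun e => hz (e ▸ hvC)
          have e3 : z ≠ a := fun e => hz (e ▸ haC)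
          have e4 : z ≠ b := fun e => hz (e ▸ hbC)
          simp [e1, e2, e3, e4]
        · simp [hxu, hxv, hxa, hxb]
        · simp [hyu, hyv, hya, hyb, hxy]
        · right
          simp [hua.symm, hub.symm, hva.symm, hvb.symm]
      · refine hres (fun z => if z = u then !f' x else if z = v then !f' y else
          if z = a then true else if z = b then false else f' z) ?_ ?_ ?_ ?_
        · intro z hz
          have e1 : z ≠ u := fun e => hz (e ▸ huC)
          have e2 : z ≠ v := fun e => hz (e ▸ hvC)
          have e3 : z ≠ a := fun e => hz (e ▸ haC)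
          have e4 : z ≠ b := fun e => hz (e ▸ hbC)
          simp [e1, e2, e3, e4]
        · simp [hxu, hxv, hxa, hxb]
        · simp [hyu, hyv, hya, hyb, huv.symm]
        · left
          simp [hua.symm, hub.symm, hva.symm, hvb.symm, huv.symm, hab.symm, hxy]

end Pool.Agent.BLN.Red
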